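import Mathlib

/-! Integral representatives of points of bounded height, Liouville's inequality, Siegel's lemma. -/

set_option autoImplicit false

open NumberField Height

namespace Pool.Agent.KS6_12

variable {K : Type} [Field K] [NumberField K]

lemma house_le_mulHeight₁ (x : K) : house x ≤ mulHeight₁ x := by
  classical
  have h1 : ∀ τ : K →+* ℂ, ‖τ x‖ ≤ mulHeight₁ x := by
    intro τ
    have h2 : (InfinitePlace.mk τ) x = ‖τ x‖ := rfl
    rw [NumberField.mulHeight₁_eq]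
    have h3 : ‖τ x‖ ≤ ∏ v : InfinitePlace K, max (v x) 1 ^ v.mult := by
      rw [← h2]
      calc (InfinitePlace.mk τ) x ≤ max ((InfinitePlace.mk τ) x) 1 := le_max_left _ _
        _ ≤ max ((InfinitePlace.mk τ) x) 1 ^ (InfinitePlace.mk τ).mult :=
            le_self_pow₀ (le_max_right _ _) (InfinitePlace.mk τ).mult_ne_zero
        _ ≤ ∏ v : InfinitePlace K, max (v x) 1 ^ v.mult := by
            rw [← Finset.mul_prod_erase Finset.univ
              (fun v : InfinitePlace K => max (v x) 1 ^ v.mult)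
              (Finset.mem_univ (InfinitePlace.mk τ))]
            refine le_mul_of_one_le_right (by positivity) ?_
            calc (1 : ℝ) = ∏ v ∈ Finset.univ.erase (InfinitePlace.mk τ), (1 : ℝ) := by simp
              _ ≤ _ := Finset.prod_le_prod (fun _ _ => zero_le_one)
                  fun v _ => one_le_pow₀ (le_max_right _ _)
    have h4 : (1 : ℝ) ≤ ∏ᶠ v : FinitePlace K, max (v x) 1 :=
      one_le_finprod fun _ => le_max_right _ _
    calc ‖τ x‖ ≤ ∏ v : InfinitePlace K, max (v x) 1 ^ v.mult := h3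
      _ ≤ _ := le_mul_of_one_le_right (le_trans (norm_nonneg _) h3) h4
  rw [house_eq_sup']
  have h5 : ∀ τ ∈ (Finset.univ : Finset (K →+* ℂ)), ‖τ x‖₊ ≤ (mulHeight₁ x).toNNReal := by
    intro τ _
    rw [← NNReal.coe_le_coe, coe_nnnorm, Real.coe_toNNReal _ (mulHeight₁_nonneg x)]
    exact h1 τ
  have h6 := Finset.sup'_le (H := Finset.univ_nonempty) (f := fun φ : K →+* ℂ => ‖φ x‖₊) h5
  have h7 : ((Finset.univ.sup' Finset.univ_nonempty (fun φ : K →+* ℂ => ‖φ x‖₊) : NNReal) : ℝ) ≤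
      (((mulHeight₁ x).toNNReal : NNReal) : ℝ) := NNReal.coe_le_coe.2 h6
  rwa [Real.coe_toNNReal _ (mulHeight₁_nonneg x)] at h7

/-- denominators bounded by the height -/
lemma exists_den (x : K) : ∃ (c : ℕ) (a : 𝓞 K), c ≠ 0 ∧ (c : ℝ) ≤ mulHeight₁ x ∧
    (a : K) = c * x ∧ house (a : K) ≤ mulHeight₁ x ^ 2 := by
  obtain ⟨c, hc, hcx, hint⟩ := exists_nat_le_mulHeight₁ x
  refine ⟨c, ⟨c * x, hint⟩, hc, hcx, rfl, ?_⟩
  change house ((c : K) * x) ≤ _
  rw [house_nat_mul, sq]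
  exact mul_le_mul hcx (house_le_mulHeight₁ x) (house_nonneg _) (mulHeight₁_nonneg x)

/-- an integral representative of a point of bounded height -/
theorem exists_rep {n : ℕ} {x : Fin (n + 1) → K} {i : Fin (n + 1)} (hi : x i ≠ 0) :
    ∃ y : Fin (n + 1) → 𝓞 K, y i ≠ 0 ∧ (∀ j, (y j : K) * x i = (y i : K) * x j) ∧
      ∀ j, house (y j : K) ≤ mulHeight x ^ (n + 2) := by
  classical
  have h1 : ∀ j, mulHeight₁ (x j / x i) ≤ mulHeight x := by
    intro j
    rw [mulHeight₁_div_eq_mulHeight]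
    have h2 : ![x j, x i] = x ∘ ![j, i] := by
      funext k
      fin_cases k <;> rfl
    rw [h2]
    exact mulHeight_comp_le _ _
  choose c a hc hcx ha _ using fun j => exists_den (x j / x i)
  have hH : (1 : ℝ) ≤ mulHeight x := one_le_mulHeight x
  set N : ℕ := ∏ j, c j with hN
  have hN0 : N ≠ 0 := Finset.prod_ne_zero_iff.2 fun j _ => hc j
  have hNle : (N : ℝ) ≤ mulHeight x ^ (n + 1) := by
    rw [hN]
    push_cast
    calc ∏ j, (c j : ℝ) ≤ ∏ _j : Fin (n + 1), mulHeight x :=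
          Finset.prod_le_prod (fun _ _ => by positivity) fun j _ => (hcx j).trans (h1 j)
      _ = mulHeight x ^ (n + 1) := by simp
  have hNa : ∀ j, ∃ b : 𝓞 K, (b : K) = N * (x j / x i) := by
    intro j
    refine ⟨((∏ k ∈ Finset.univ.erase j, c k : ℕ) : 𝓞 K) * a j, ?_⟩
    have h2 : N = (∏ k ∈ Finset.univ.erase j, c k) * c j :=
      (Finset.prod_erase_mul Finset.univ c (Finset.mem_univ j)).symm
    rw [h2]
    push_cast [map_mul]
    have h3 := ha j
    rw [RingOfIntegers.coe_eq_algebraMap] at h3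
    rw [h3]
    ring
  choose b hb using hNa
  refine ⟨b, ?_, ?_, ?_⟩
  · intro h0
    have h2 := hb i
    rw [h0, div_self hi, mul_one] at h2
    simp only [map_zero] at h2
    exact hN0 (by exact_mod_cast h2.symm)
  · intro j
    rw [hb j, hb i, div_self hi]
    field_simp
  · intro j
    rw [hb j, house_nat_mul, pow_succ]
    exact mul_le_mul hNle ((house_le_mulHeight₁ _).trans (h1 j)) (house_nonneg _) (by positivity)

/-- Liouville's inequality -/
theorem liouville (σ : K →+* ℂ) {E : 𝓞 K} (hE : E ≠ 0) :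
    1 ≤ ‖σ (E : K)‖ * house (E : K) ^ (Module.finrank ℚ K - 1) := by
  refine le_trans ?_ (norm_norm_le_norm_mul_house_pow (E : K) σ)
  have h1 : Algebra.norm ℤ E ≠ 0 := Algebra.norm_ne_zero_iff.2 hE
  have h2 : (Algebra.norm ℚ (E : K)) = ((Algebra.norm ℤ E : ℤ) : ℚ) :=
    (Algebra.coe_norm_int E).symm
  rw [h2]
  have h3 : ‖((Algebra.norm ℤ E : ℤ) : ℚ)‖ = |((Algebra.norm ℤ E : ℤ) : ℝ)| := by
    rw [← Rat.norm_cast_real, Real.norm_eq_abs]
    push_cast
    rfl
  rw [h3]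
  exact_mod_cast Int.one_le_abs h1

lemma siegel_aux (K : Type) [Field K] [NumberField K] : ∃ c : ℝ,
    ∀ (α β : Type) [Fintype α] [Fintype β] [DecidableEq β] (p q : ℕ) (a : Matrix α β (𝓞 K)),
      a ≠ 0 → 0 < p → p < q → Fintype.card α = p → Fintype.card β = q →
      ∀ A : ℝ, (∀ k l, house (a k l : K) ≤ A) →
      ∃ ξ : β → 𝓞 K, ξ ≠ 0 ∧ Matrix.mulVec a ξ = 0 ∧
        ∀ l, house (ξ l : K) ≤ c * ((c * q * A) ^ ((p : ℝ) / (q - p))) := by
  classical
  apply Exists.intro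
  intro α β _ _ _ p q a ha h0p hpq hα hβ A habs
  exact house.exists_ne_zero_int_vec_house_le K a ha h0p hpq (cardα := hα) (habs := habs) (cardβ := hβ)

/-- Siegel's lemma with exponent 3 -/
theorem siegel (K : Type) [Field K] [NumberField K] : ∃ C : ℝ, 1 ≤ C ∧
    ∀ (α β : Type) [Fintype α] [Fintype β] [DecidableEq β] (m : ℕ) (a : Matrix α β (𝓞 K)),
      0 < m → a ≠ 0 → Fintype.card α = 3 * m → Fintype.card β = 4 * m →
      ∀ A : ℝ, 1 ≤ A → (∀ k l, house (a k l : K) ≤ A) →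
      ∃ ξ : β → 𝓞 K, ξ ≠ 0 ∧ (∀ k, ∑ l, a k l * ξ l = 0) ∧
        ∀ l, house (ξ l : K) ≤ C * (m * A) ^ 3 := by
  classical
  obtain ⟨c, hc⟩ := siegel_aux K
  refine ⟨max 1 (|c| * (|c| * 4) ^ 3), le_max_left _ _, ?_⟩
  intro α β _ _ _ m a hm ha hα hβ A hA habs
  obtain ⟨ξ, hξ, h0, hξb⟩ := hc α β (3 * m) (4 * m) a ha (by omega) (by omega) hα hβ A habs
  refine ⟨ξ, hξ, fun k => congrFun h0 k, fun l => (hξb l).trans ?_⟩
  have h1 : ((3 * m : ℕ) : ℝ) / ((4 * m : ℕ) - (3 * m : ℕ) : ℝ) = 3 := by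
    have : (m : ℝ) ≠ 0 := by exact_mod_cast hm.ne'
    push_cast
    field_simp
    ring
  rw [h1]
  have h2 : (c * (4 * m : ℕ) * A) ^ (3 : ℝ) = (c * (4 * m : ℕ) * A) ^ 3 := by
    exact_mod_cast Real.rpow_natCast _ 3
  rw [h2]
  push_cast
  have h3 : c * (c * (4 * m) * A) ^ 3 ≤ |c| * (|c| * 4) ^ 3 * (m * A) ^ 3 := by
    calc c * (c * (4 * m) * A) ^ 3 ≤ |c * (c * (4 * m) * A) ^ 3| := le_abs_self _
      _ = |c| * (|c| * 4) ^ 3 * (m * A) ^ 3 := by
          rw [abs_mul, abs_pow, abs_mul, abs_mul, abs_of_nonneg (by positivity : (0 : ℝ) ≤ A),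
            abs_of_nonneg (by positivity : (0 : ℝ) ≤ 4 * (m : ℝ))]
          ring
  exact h3.trans (mul_le_mul_of_nonneg_right (le_max_right _ _) (by positivity))

end Pool.Agent.KS6_12
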