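import Pool.Graph.R_pool_sql_team_seeded_3dad9d7b.NH29.GK.Brody

/-! A hyperbolic compact set: every disc is contained in one standard affine chart near each point
of the half disc, with bounded coordinates, uniformly in the disc. -/

set_option autoImplicit false

open Metric Set Filter Topology
open Pool.Agent.NH29.GK

namespace Pool.Agent.KS6_12

variable {n : ℕ}

lemma diag_eq {u : Fin (n + 1) → ℂ} (i : Fin (n + 1)) :
    Phi u i i = ((‖u i‖ ^ 2 / ∑ l, ‖u l‖ ^ 2 : ℝ) : ℂ) := by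
  unfold Phi
  rw [nsq_eq, Complex.mul_conj, Complex.normSq_eq_norm_sq]
  push_cast
  rfl

lemma sum_sq_pos {u : Fin (n + 1) → ℂ} (hu : u ≠ 0) : 0 < ∑ l, ‖u l‖ ^ 2 := by
  obtain ⟨i, hi⟩ := Function.ne_iff.1 hu
  refine Finset.sum_pos' (fun j _ => by positivity) ⟨i, Finset.mem_univ i, ?_⟩
  have : u i ≠ 0 := hi
  positivity

lemma exists_big_diag {A : Mat n} (hA : A ∈ PM n) : ∃ i, 1 / (n + 1 : ℝ) ≤ ‖A i i‖ := by
  obtain ⟨u, hu, rfl⟩ := hA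
  have hpos := sum_sq_pos hu
  by_contra hcon
  push Not at hcon
  have h1 : ∀ i, ‖u i‖ ^ 2 < (∑ l, ‖u l‖ ^ 2) / (n + 1 : ℝ) := by
    intro i
    have h2 := hcon i
    rw [diag_eq, Complex.norm_real, Real.norm_of_nonneg (by positivity), div_lt_iff₀ hpos] at h2
    calc ‖u i‖ ^ 2 < 1 / (n + 1 : ℝ) * ∑ l, ‖u l‖ ^ 2 := h2
      _ = _ := by ring
  have h3 : ∑ i, ‖u i‖ ^ 2 < ∑ _i : Fin (n + 1), (∑ l, ‖u l‖ ^ 2) / (n + 1 : ℝ) :=
    Finset.sum_lt_sum_of_nonempty ⟨0, Finset.mem_univ _⟩ fun i _ => h1 i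
  rw [Finset.sum_const, Finset.card_univ, Fintype.card_fin, nsmul_eq_mul] at h3
  have h4 : ((n + 1 : ℕ) : ℝ) * ((∑ l, ‖u l‖ ^ 2) / (n + 1 : ℝ)) = ∑ l, ‖u l‖ ^ 2 := by
    push_cast
    field_simp
  rw [h4] at h3
  exact lt_irrefl _ h3

lemma chart_bound {A : Mat n} (hA : A ∈ PM n) {i : Fin (n + 1)} {δ : ℝ} (hδ : 0 < δ)
    (hi : δ ≤ ‖A i i‖) (j : Fin (n + 1)) : ‖chart i A j‖ ^ 2 ≤ 1 / δ := by
  obtain ⟨u, hu, rfl⟩ := hA
  have hpos := sum_sq_pos hu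
  have h0 : Phi u i i ≠ 0 := by
    intro h
    rw [h, norm_zero] at hi
    linarith
  have hui : u i ≠ 0 := (Phi_diag_ne hu).1 h0
  have huip : 0 < ‖u i‖ ^ 2 := by positivity
  rw [diag_eq, Complex.norm_real, Real.norm_of_nonneg (by positivity), le_div_iff₀ hpos] at hi
  unfold chart
  rw [Phi_ratio hu hui, norm_div, div_pow, div_le_div_iff₀ huip hδ]
  have h1 : ‖u j‖ ^ 2 ≤ ∑ l, ‖u l‖ ^ 2 :=
    Finset.single_le_sum (f := fun l => ‖u l‖ ^ 2) (fun l _ => by positivity) (Finset.mem_univ j)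
  calc ‖u j‖ ^ 2 * δ ≤ (∑ l, ‖u l‖ ^ 2) * δ := mul_le_mul_of_nonneg_right h1 hδ.le
    _ = δ * ∑ l, ‖u l‖ ^ 2 := by ring
    _ ≤ 1 * ‖u i‖ ^ 2 := by rw [one_mul]; exact hi

/-- Uniform charts for the discs in a hyperbolic compact set of projection matrices -/
theorem exists_chart {S : Set (Mat n)} (hS : IsCompact S) (hPM : S ⊆ PM n)
    (hconst : ∀ H : ℂ → Mat n, HolP univ H → (∀ z, H z ∈ S) → ∀ z, H z = H 0) :
    ∃ ρ : ℝ, 0 < ρ ∧ ρ ≤ 1 / 4 ∧ ∀ Ψ : ℂ → Mat n, HolP (ball 0 1) Ψ →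
      (∀ z ∈ ball (0 : ℂ) 1, Ψ z ∈ S) → ∀ z₀ ∈ ball (0 : ℂ) (1 / 2),
      ∃ (i : Fin (n + 1)) (g : ℂ → Fin (n + 1) → ℂ), DifferentiableOn ℂ g (ball z₀ ρ) ∧
        ∀ z ∈ ball z₀ ρ, g z i = 1 ∧ (∀ j, ‖g z j‖ ^ 2 ≤ 2 * (n + 1)) ∧ g z ≠ 0 ∧
          Ψ z = Phi (g z) := by
  obtain ⟨C, hC, hCΨ⟩ := green (β := Empty) (P := fun b => b.elim) (e := fun b => b.elim)
    hS hPM (subset_refl S) (fun b => b.elim) (fun b => b.elim)
    (fun H hH hHS _ => hconst H hH hHS)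
  set ρ : ℝ := min (1 / 4) (1 / (4 * C * (2 * (n + 1)))) with hρ
  have hn : (0 : ℝ) < n + 1 := by positivity
  have hρpos : 0 < ρ := lt_min (by norm_num) (by positivity)
  have hρ4 : ρ ≤ 1 / 4 := min_le_left _ _
  have hρC : 4 * C * ρ ≤ 1 / (2 * (n + 1)) := by
    have : ρ ≤ 1 / (4 * C * (2 * (n + 1))) := min_le_right _ _
    calc 4 * C * ρ ≤ 4 * C * (1 / (4 * C * (2 * (n + 1)))) :=
          mul_le_mul_of_nonneg_left this (by positivity)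
      _ = 1 / (2 * (n + 1)) := by field_simp
  refine ⟨ρ, hρpos, hρ4, fun Ψ hΨ hΨS z₀ hz₀ => ?_⟩
  rw [mem_ball_zero_iff] at hz₀
  have hder : ∀ z₁ ∈ ball (0 : ℂ) (3 / 4), ‖fderiv ℝ Ψ z₁‖ ≤ 4 * C := by
    intro z₁ hz₁
    rw [mem_ball_zero_iff] at hz₁
    have hsub : ball (0 : ℂ) 1 ⊆ aff z₁ (1 / 4) ⁻¹' ball (0 : ℂ) 1 := by
      intro z hz
      rw [mem_ball_zero_iff] at hz
      rw [mem_preimage, mem_ball_zero_iff]
      unfold aff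
      refine (norm_add_le _ _).trans_lt ?_
      rw [norm_mul, Complex.norm_real, Real.norm_of_nonneg (by norm_num)]
      linarith
    have h1 := hCΨ (fun z => Ψ (aff z₁ (1 / 4) z)) ((hΨ.aff z₁ (1 / 4)).mono hsub)
      (fun z hz => hΨS _ (hsub hz))
    have h2 : aff z₁ (1 / 4) 0 = z₁ := by simp [aff]
    have h3 := norm_fderiv_aff (Ψ := Ψ) (a := z₁) (ρ := 1 / 4) (by norm_num) (z := 0) (by
      rw [h2]
      exact hΨ.differentiableAt (mem_ball_zero_iff.2 (by linarith)))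
    rw [h3, h2] at h1
    linarith
  have hz1 : z₀ ∈ ball (0 : ℂ) 1 := mem_ball_zero_iff.2 (by linarith)
  obtain ⟨i, hi⟩ := exists_big_diag (hPM (hΨS z₀ hz1))
  have hsub : ball z₀ ρ ⊆ ball (0 : ℂ) (3 / 4) := by
    intro z hz
    rw [mem_ball_iff_norm] at hz
    rw [mem_ball_zero_iff]
    have : z = (z - z₀) + z₀ := by ring
    rw [this]
    refine (norm_add_le _ _).trans_lt ?_
    linarith
  have hsub1 : ball z₀ ρ ⊆ ball (0 : ℂ) 1 := hsub.trans (ball_subset_ball (by norm_num))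
  have hdiag : ∀ z ∈ ball z₀ ρ, 1 / (2 * (n + 1) : ℝ) ≤ ‖Ψ z i i‖ := by
    intro z hz
    have h1 : ‖Ψ z - Ψ z₀‖ ≤ 4 * C * ‖z - z₀‖ :=
      (convex_ball z₀ ρ).norm_image_sub_le_of_norm_fderiv_le
        (fun x hx => hΨ.differentiableAt (hsub1 hx)) (fun x hx => hder x (hsub hx))
        (mem_ball_self hρpos) hz
    have h2 : ‖Ψ z i i - Ψ z₀ i i‖ ≤ ‖Ψ z - Ψ z₀‖ :=
      (norm_le_pi_norm ((Ψ z - Ψ z₀) i) i).trans (norm_le_pi_norm (Ψ z - Ψ z₀) i)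
    have h3 : 4 * C * ‖z - z₀‖ ≤ 4 * C * ρ :=
      mul_le_mul_of_nonneg_left (mem_ball_iff_norm.1 hz).le (by positivity)
    have h4 : ‖Ψ z₀ i i‖ ≤ ‖Ψ z i i‖ + ‖Ψ z i i - Ψ z₀ i i‖ := by
      have : Ψ z₀ i i = Ψ z i i - (Ψ z i i - Ψ z₀ i i) := by ring
      conv_lhs => rw [this]
      exact norm_sub_le _ _
    have h5 : 1 / (n + 1 : ℝ) = 1 / (2 * (n + 1)) + 1 / (2 * (n + 1)) := by
      field_simp
      norm_num
    linarith
  have hne : ∀ z ∈ ball z₀ ρ, Ψ z i i ≠ 0 := by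
    intro z hz h0
    have := hdiag z hz
    rw [h0, norm_zero] at this
    have h2 : (0 : ℝ) < 1 / (2 * (n + 1)) := by positivity
    linarith
  refine ⟨i, fun z => chart i (Ψ z), fun z hz =>
    (hΨ.diff_chart (hsub1 hz) (hne z hz)).differentiableWithinAt, fun z hz => ?_⟩
  have hPMz := hPM (hΨS z (hsub1 hz))
  refine ⟨PM.chart_self (hne z hz), fun j => ?_, PM.chart_ne (hne z hz),
    (PM.Phi_chart hPMz (hne z hz)).symm⟩
  have h1 := chart_bound hPMz (δ := 1 / (2 * (n + 1))) (by positivity) (hdiag z hz) j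
  rwa [one_div_one_div] at h1

end Pool.Agent.KS6_12
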