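import Pool.Agent.KS6_12.Hyp.Schwarz
import Pool.Agent.KS6_12.Hyp.Arith

/-! Linear relations with small coefficients between the coordinates of many rational points on a
holomorphic disc. -/

set_option autoImplicit false

open NumberField Height Metric Set

namespace Pool.Agent.KS6_12

variable {K : Type} [Field K] [NumberField K]

/-- The data attached to a finite set of parameters -/
structure Dat (σ : K →+* ℂ) (z₀ b : ℂ) (g : ℂ → ℂ) (W Y : ℝ) (u : K) (c : ℕ) (a x y : 𝓞 K) :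
    Prop where
  c0 : c ≠ 0
  cW : (c : ℝ) ≤ W
  ac : (a : K) = c * u
  aW : house (a : K) ≤ W
  uW : house u ≤ W
  x0 : x ≠ 0
  xY : house (x : K) ≤ Y
  yY : house (y : K) ≤ Y
  xy : σ (y : K) = g (z₀ + b * σ u) * σ (x : K)

/-- the polynomial with given coefficients -/
noncomputable def mkPoly {L : Type} [Semiring L] {d : ℕ} (t : Fin d → L) : Polynomial L :=
  ∑ j, Polynomial.C (t j) * Polynomial.X ^ (j : ℕ)

lemma mkPoly_coeff {L : Type} [Semiring L] {d : ℕ} (t : Fin d → L) (j : Fin d) :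
    (mkPoly t).coeff j = t j := by
  unfold mkPoly
  simp only [Polynomial.finsetSum_coeff, Polynomial.coeff_C_mul, Polynomial.coeff_X_pow]
  rw [Finset.sum_eq_single j]
  · simp
  · intro k _ hk
    rw [if_neg, mul_zero]
    intro h
    exact hk (Fin.ext h.symm)
  · simp

lemma mkPoly_degree_lt {L : Type} [Semiring L] {d : ℕ} (t : Fin d → L) :
    (mkPoly t).degree < d := by
  unfold mkPoly
  rw [Polynomial.degree_lt_iff_coeff_zero]
  intro k hk
  simp only [Polynomial.finsetSum_coeff, Polynomial.coeff_C_mul, Polynomial.coeff_X_pow]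
  refine Finset.sum_eq_zero fun j _ => ?_
  rw [if_neg, mul_zero]
  have := j.2
  omega

lemma mkPoly_eval {L : Type} [CommSemiring L] {d : ℕ} (t : Fin d → L) (u : L) :
    (mkPoly t).eval u = ∑ j, t j * u ^ (j : ℕ) := by
  unfold mkPoly
  simp [Polynomial.eval_finsetSum]

lemma mkPoly_ne {L : Type} [Semiring L] {d : ℕ} {t : Fin d → L} (h : t ≠ 0) : mkPoly t ≠ 0 := by
  intro h0
  apply h
  funext j
  rw [← mkPoly_coeff t j, h0]
  simp

/-- the integral value -/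
noncomputable def val {m : ℕ} (ξ : Bool × Fin (2 * m) → 𝓞 K) (c : ℕ) (a x y : 𝓞 K) : 𝓞 K :=
  ∑ l : Bool × Fin (2 * m), (a ^ (l.2 : ℕ) * (c : 𝓞 K) ^ (2 * m - 1 - (l.2 : ℕ)) *
    (if l.1 then y else x)) * ξ l

lemma house_entry {W Y : ℝ} (hW : 1 ≤ W) {m : ℕ} (_hm : 0 < m) {c : ℕ} {a w : 𝓞 K}
    (hc : (c : ℝ) ≤ W) (ha : house (a : K) ≤ W) (hw : house (w : K) ≤ Y) (j : Fin (2 * m)) :
    house ((a ^ (j : ℕ) * (c : 𝓞 K) ^ (2 * m - 1 - (j : ℕ)) * w : 𝓞 K) : K) ≤ W ^ (2 * m) * Y := by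
  have hY : 0 ≤ Y := (house_nonneg _).trans hw
  have h1 : ((a ^ (j : ℕ) * (c : 𝓞 K) ^ (2 * m - 1 - (j : ℕ)) * w : 𝓞 K) : K) =
      (a : K) ^ (j : ℕ) * (c : K) ^ (2 * m - 1 - (j : ℕ)) * (w : K) := by
    push_cast [map_mul, map_pow]
    simp
  rw [h1]
  refine (house_mul_le _ _).trans ?_
  refine mul_le_mul ?_ hw (house_nonneg _) (by positivity)
  refine (house_mul_le _ _).trans ?_
  have h2 : house ((c : K) ^ (2 * m - 1 - (j : ℕ))) ≤ W ^ (2 * m - 1 - (j : ℕ)) := by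
    refine (house_pow_le _ _).trans ?_
    have h3 : house (c : K) = c := by
      have := house_intCast (K := K) (c : ℤ)
      simpa using this
    rw [h3]
    exact pow_le_pow_left₀ (by positivity) hc _
  have h3 : house ((a : K) ^ (j : ℕ)) ≤ W ^ (j : ℕ) :=
    (house_pow_le _ _).trans (pow_le_pow_left₀ (house_nonneg _) ha _)
  calc house ((a : K) ^ (j : ℕ)) * house ((c : K) ^ (2 * m - 1 - (j : ℕ)))
      ≤ W ^ (j : ℕ) * W ^ (2 * m - 1 - (j : ℕ)) :=
        mul_le_mul h3 h2 (house_nonneg _) (by positivity)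
    _ = W ^ (2 * m - 1) := by
        rw [← pow_add]
        congr 1
        have := j.2
        omega
    _ ≤ W ^ (2 * m) := pow_le_pow_right₀ hW (by omega)

lemma house_val {W Y X : ℝ} (hW : 1 ≤ W) {m : ℕ} (hm : 0 < m) {c : ℕ} {a x y : 𝓞 K}
    (hc : (c : ℝ) ≤ W) (ha : house (a : K) ≤ W) (hx : house (x : K) ≤ Y) (hy : house (y : K) ≤ Y)
    {ξ : Bool × Fin (2 * m) → 𝓞 K} (hξ : ∀ l, house (ξ l : K) ≤ X) :
    house (val ξ c a x y : K) ≤ 4 * m * (W ^ (2 * m) * Y * X) := by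
  have hY : 0 ≤ Y := (house_nonneg _).trans hx
  unfold val
  change house (algebraMap (𝓞 K) K _) ≤ _
  rw [map_sum]
  refine (house_sum_le_sum_house _ _).trans ?_
  have h1 : ∀ l ∈ (Finset.univ : Finset (Bool × Fin (2 * m))), house ((algebraMap (𝓞 K) K)
      ((a ^ (l.2 : ℕ) * (c : 𝓞 K) ^ (2 * m - 1 - (l.2 : ℕ)) * (if l.1 then y else x)) * ξ l)) ≤
      W ^ (2 * m) * Y * X := by
    intro l _
    rw [map_mul]
    refine (house_mul_le _ _).trans ?_
    refine mul_le_mul ?_ (hξ l) (house_nonneg _) (by positivity)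
    refine house_entry hW hm hc ha ?_ l.2
    split
    · exact hy
    · exact hx
  refine (Finset.sum_le_card_nsmul _ _ _ h1).trans ?_
  rw [nsmul_eq_mul, Finset.card_univ, Fintype.card_prod, Fintype.card_bool, Fintype.card_fin]
  push_cast
  apply le_of_eq
  ring

lemma val_eq {m : ℕ} {ξ : Bool × Fin (2 * m) → 𝓞 K} {c : ℕ} {a x y : 𝓞 K} {u : K}
    (hac : (a : K) = c * u) :
    (val ξ c a x y : K) = (c : K) ^ (2 * m - 1) *
      ((mkPoly fun j => (ξ (false, j) : K)).eval u * x +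
        (mkPoly fun j => (ξ (true, j) : K)).eval u * y) := by
  unfold val
  simp only [RingOfIntegers.coe_eq_algebraMap]
  rw [map_sum, Fintype.sum_prod_type, Fintype.sum_bool, mkPoly_eval, mkPoly_eval]
  simp only [map_mul, map_pow, map_natCast]
  rw [add_comm, mul_add, Finset.sum_mul, Finset.sum_mul, Finset.mul_sum, Finset.mul_sum]
  have key : ∀ j : Fin (2 * m), (algebraMap (𝓞 K) K a) ^ (j : ℕ) * (c : K) ^ (2 * m - 1 - (j : ℕ)) =
      (c : K) ^ (2 * m - 1) * u ^ (j : ℕ) := by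
    intro j
    have h2 : (algebraMap (𝓞 K) K a) = c * u := hac
    rw [h2, mul_pow]
    have h3 : (c : K) ^ (2 * m - 1) = (c : K) ^ (j : ℕ) * (c : K) ^ (2 * m - 1 - (j : ℕ)) := by
      rw [← pow_add]
      congr 1
      have := j.2
      omega
    rw [h3]
    ring
  congr 1
  · refine Finset.sum_congr rfl fun j _ => ?_
    rw [key j]
    simp only [Bool.false_eq_true, if_false]
    ring
  · refine Finset.sum_congr rfl fun j _ => ?_
    rw [key j]
    simp only [if_true]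
    ring

lemma mkPoly_eval_map {m : ℕ} (σ : K →+* ℂ) (t : Fin m → K) (u : K) :
    (mkPoly fun j => σ (t j)).eval (σ u) = σ ((mkPoly t).eval u) := by
  rw [mkPoly_eval, mkPoly_eval, map_sum]
  simp only [map_mul, map_pow]

/-- the auxiliary function -/
noncomputable def aux {m : ℕ} (σ : K →+* ℂ) (z₀ b : ℂ) (g : ℂ → ℂ)
    (ξ : Bool × Fin (2 * m) → 𝓞 K) (z : ℂ) : ℂ :=
  (mkPoly fun j => σ (ξ (false, j) : K)).eval ((z - z₀) / b) +
    (mkPoly fun j => σ (ξ (true, j) : K)).eval ((z - z₀) / b) * g z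

lemma aux_diff {m : ℕ} {σ : K →+* ℂ} {z₀ b : ℂ} {g : ℂ → ℂ} {U : Set ℂ}
    (hg : DifferentiableOn ℂ g U) (ξ : Bool × Fin (2 * m) → 𝓞 K) :
    DifferentiableOn ℂ (aux σ z₀ b g ξ) U := by
  unfold aux
  have h1 : ∀ P : Polynomial ℂ, DifferentiableOn ℂ (fun z => P.eval ((z - z₀) / b)) U := by
    intro P
    exact (P.differentiable.comp (by fun_prop : Differentiable ℂ fun z : ℂ => (z - z₀) / b)).differentiableOn
  exact (h1 _).add ((h1 _).mul hg)

lemma norm_mkPoly_eval_le {d : ℕ} {t : Fin d → ℂ} {X T : ℝ} (hT : 1 ≤ T) (hX : 0 ≤ X)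
    (ht : ∀ j, ‖t j‖ ≤ X) {w : ℂ} (hw : ‖w‖ ≤ T) : ‖(mkPoly t).eval w‖ ≤ d * (X * T ^ d) := by
  rw [mkPoly_eval]
  refine (norm_sum_le _ _).trans ?_
  have h1 : ∀ j ∈ (Finset.univ : Finset (Fin d)), ‖t j * w ^ (j : ℕ)‖ ≤ X * T ^ d := by
    intro j _
    rw [norm_mul, norm_pow]
    refine mul_le_mul (ht j) ?_ (by positivity) hX
    exact (pow_le_pow_left₀ (norm_nonneg _) hw _).trans (pow_le_pow_right₀ hT j.2.le)
  refine (Finset.sum_le_card_nsmul _ _ _ h1).trans ?_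
  rw [nsmul_eq_mul, Finset.card_univ, Fintype.card_fin]

theorem pade (σ : K →+* ℂ) (M₀ : ℝ) (hM₀ : 0 ≤ M₀) : ∃ C₂ : ℝ, 1 ≤ C₂ ∧
    ∀ ρ : ℝ, 0 < ρ → ρ ≤ 1 → ∀ z₀ b : ℂ, b ≠ 0 → ‖b‖ ≤ 1 →
    ∀ g : ℂ → ℂ, DifferentiableOn ℂ g (ball z₀ ρ) → (∀ z ∈ ball z₀ ρ, ‖g z‖ ≤ M₀) →
    ∀ W Y : ℝ, 1 ≤ W → 1 ≤ Y → ‖b‖ * W ≤ ρ / 8 → ∀ m : ℕ, 0 < m →
    (C₂ * (m * Y) ^ 4) ^ Module.finrank ℚ K *
      (W ^ (8 * Module.finrank ℚ K + 3) * (16 / ρ) ^ 3 * ‖b‖) ^ m < 1 →
    ∀ (S : Finset K) (c : K → ℕ) (a x y : K → 𝓞 K),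
      (∀ u ∈ S, Dat σ z₀ b g W Y u (c u) (a u) (x u) (y u)) → 3 * m ≤ S.card →
    ∃ ξ : Bool × Fin (2 * m) → 𝓞 K, ξ ≠ 0 ∧ ∀ u ∈ S,
      (mkPoly fun j => (ξ (false, j) : K)).eval u * x u +
        (mkPoly fun j => (ξ (true, j) : K)).eval u * y u = 0 := by
  classical
  obtain ⟨C₁, hC₁, hsieg⟩ := siegel K
  refine ⟨4 * C₁ * (1 + M₀), by nlinarith, ?_⟩
  intro ρ hρ hρ1 z₀ b hb hb1 g hg hgM W Y hW hY hbW m hm hsmall S c a x y hS hcard
  set C₂ := 4 * C₁ * (1 + M₀) with hC₂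
  have hbpos : 0 < ‖b‖ := norm_pos_iff.2 hb
  obtain ⟨S₀, hS₀S, hS₀⟩ := Finset.exists_subset_card_eq hcard
  have hA1 : 1 ≤ W ^ (2 * m) * Y := by
    have : 1 ≤ W ^ (2 * m) := one_le_pow₀ hW
    nlinarith
  have hS₀ne : S₀.Nonempty := by
    rw [← Finset.card_pos, hS₀]
    omega
  obtain ⟨u₀, hu₀⟩ := hS₀ne
  set a' : Matrix S₀ (Bool × Fin (2 * m)) (𝓞 K) := fun u l =>
    a u ^ (l.2 : ℕ) * (c u : 𝓞 K) ^ (2 * m - 1 - (l.2 : ℕ)) * (if l.1 then y u else x u) with ha'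
  have ha'0 : a' ≠ 0 := by
    intro h0
    have h1 := congrFun (congrFun h0 ⟨u₀, hu₀⟩) (false, ⟨0, by omega⟩)
    simp only [ha', Bool.false_eq_true, if_false, pow_zero, one_mul, Matrix.zero_apply] at h1
    rcases mul_eq_zero.1 h1 with h2 | h2
    · have h3 := (hS u₀ (hS₀S hu₀)).c0
      have h4 : (c u₀ : 𝓞 K) ≠ 0 := by exact_mod_cast h3
      exact pow_ne_zero _ h4 h2
    · exact (hS u₀ (hS₀S hu₀)).x0 h2
  obtain ⟨ξ, hξ, hξ0, hξb⟩ := hsieg S₀ (Bool × Fin (2 * m)) m a' hm ha'0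
    (by rw [Fintype.card_coe, hS₀])
    (by rw [Fintype.card_prod, Fintype.card_bool, Fintype.card_fin]; ring)
    (W ^ (2 * m) * Y) hA1 (by
      intro k l
      have hk := hS k (hS₀S k.2)
      refine house_entry hW hm hk.cW hk.aW ?_ l.2
      split
      · exact hk.yY
      · exact hk.xY)
  set X : ℝ := C₁ * (m * (W ^ (2 * m) * Y)) ^ 3 with hX
  have hXnn : 0 ≤ X := by positivity
  refine ⟨ξ, hξ, ?_⟩
  have hval0 : ∀ u ∈ S₀, val ξ (c u) (a u) (x u) (y u) = 0 := fun u hu => hξ0 ⟨u, hu⟩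
  -- the value of the auxiliary function
  have hG : ∀ u ∈ S, σ (val ξ (c u) (a u) (x u) (y u) : K) =
      (c u : ℂ) ^ (2 * m - 1) * σ (x u : K) * aux σ z₀ b g ξ (z₀ + b * σ u) := by
    intro u hu
    have hu' := hS u hu
    rw [val_eq hu'.ac, map_mul, map_pow, map_natCast, map_add, map_mul, map_mul, hu'.xy]
    unfold aux
    have h1 : (z₀ + b * σ u - z₀) / b = σ u := by
      field_simp
      ring
    rw [h1, mkPoly_eval_map, mkPoly_eval_map]
    ring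
  have hinj : Set.InjOn (fun u : K => z₀ + b * σ u) (S₀ : Set K) := by
    intro u _ v _ huv
    have h1 : b * σ u = b * σ v := add_left_cancel huv
    exact σ.injective (mul_left_cancel₀ hb h1)
  set r : ℝ := ‖b‖ * W with hr
  have hrnn : 0 ≤ r := by positivity
  have hmem : ∀ u ∈ S, z₀ + b * σ u ∈ closedBall z₀ r := by
    intro u hu
    rw [mem_closedBall_iff_norm, add_sub_cancel_left, norm_mul]
    exact mul_le_mul_of_nonneg_left ((norm_embedding_le_house u σ).trans (hS u hu).uW)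
      (norm_nonneg _)
  have hB : ∀ z ∈ closedBall z₀ (ρ / 2), ‖aux σ z₀ b g ξ z‖ ≤
      2 * m * (X * (1 / ‖b‖) ^ (2 * m)) * (1 + M₀) := by
    intro z hz
    have hzb : z ∈ ball z₀ ρ := closedBall_subset_ball (by linarith) hz
    have h1 : ‖(z - z₀) / b‖ ≤ 1 / ‖b‖ := by
      rw [norm_div]
      have := mem_closedBall_iff_norm.1 hz
      exact div_le_div_of_nonneg_right (by linarith) hbpos.le
    have h2 : 1 ≤ 1 / ‖b‖ := by
      rw [le_div_iff₀ hbpos]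
      linarith
    have h3 : ∀ s : Bool, ‖(mkPoly fun j => σ (ξ (s, j) : K)).eval ((z - z₀) / b)‖ ≤
        2 * m * (X * (1 / ‖b‖) ^ (2 * m)) := by
      intro s
      have := norm_mkPoly_eval_le (d := 2 * m) (t := fun j => σ (ξ (s, j) : K)) h2 hXnn
        (fun j => (norm_embedding_le_house _ σ).trans (hξb (s, j))) h1
      push_cast at this
      exact this
    unfold aux
    refine (norm_add_le _ _).trans ?_
    rw [norm_mul, mul_add, mul_one]
    refine add_le_add (h3 false) ?_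
    exact mul_le_mul (h3 true) (hgM z hzb) (norm_nonneg _) (by positivity)
  have hzero : ∀ w ∈ S₀.image (fun u : K => z₀ + b * σ u),
      w ∈ closedBall z₀ r ∧ aux σ z₀ b g ξ w = 0 := by
    intro w hw
    obtain ⟨u, hu, rfl⟩ := Finset.mem_image.1 hw
    refine ⟨hmem u (hS₀S hu), ?_⟩
    have h1 := hG u (hS₀S hu)
    rw [hval0 u hu] at h1
    simp only [map_zero] at h1
    have hu' := hS u (hS₀S hu)
    have h2 : (c u : ℂ) ^ (2 * m - 1) * σ (x u : K) ≠ 0 := by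
      refine mul_ne_zero (pow_ne_zero _ (by exact_mod_cast hu'.c0)) ?_
      rw [Ne, map_eq_zero]
      exact fun h => hu'.x0 (RingOfIntegers.coe_eq_zero_iff.1 h)
    exact (mul_eq_zero.1 h1.symm).resolve_left h2
  have hcardim : (S₀.image (fun u : K => z₀ + b * σ u)).card = 3 * m := by
    rw [Finset.card_image_of_injOn hinj, hS₀]
  intro u hu
  have hu' := hS u hu
  have hvz : val ξ (c u) (a u) (x u) (y u) = 0 := by
    by_contra hne
    have hL := liouville σ hne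
    have hGu : ‖aux σ z₀ b g ξ (z₀ + b * σ u)‖ ≤
        2 * m * (X * (1 / ‖b‖) ^ (2 * m)) * (1 + M₀) * (16 / ρ * (‖b‖ * W)) ^ (3 * m) := by
      have h1 := schwarz_many (c := z₀) (r := r) (R' := ρ / 2) (R := ρ) (by linarith)
        (by linarith) (by linarith) (aux_diff (b := b) (σ := σ) hg ξ) hB _ hzero (hmem u hu)
      rw [hcardim] at h1
      refine h1.trans (mul_le_mul_of_nonneg_left ?_ (by positivity))
      refine pow_le_pow_left₀ (div_nonneg (by positivity) (by linarith)) ?_ _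
      rw [div_le_iff₀ (by linarith), ← hr]
      have h2 : 16 / ρ * r * (ρ / 2 - r) = 8 * r - 16 / ρ * r * r := by
        field_simp
        ring
      rw [h2]
      have h3 : 16 / ρ * r * r ≤ 2 * r := by
        have h4 : 16 / ρ * r ≤ 2 := by
          rw [div_mul_eq_mul_div, div_le_iff₀ hρ]
          linarith
        exact mul_le_mul_of_nonneg_right h4 hrnn
      linarith
    have h1 : ‖σ (val ξ (c u) (a u) (x u) (y u) : K)‖ ≤
        C₂ * (m * Y) ^ 4 * (W ^ 11 * (16 / ρ) ^ 3 * ‖b‖) ^ m := by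
      rw [hG u hu, norm_mul, norm_mul, norm_pow]
      have h2 : ‖(c u : ℂ)‖ ^ (2 * m - 1) ≤ W ^ (2 * m) := by
        rw [Complex.norm_natCast]
        exact (pow_le_pow_left₀ (by positivity) hu'.cW _).trans
          (pow_le_pow_right₀ hW (by omega))
      have h3 : ‖σ (x u : K)‖ ≤ Y := (norm_embedding_le_house _ σ).trans hu'.xY
      calc ‖(c u : ℂ)‖ ^ (2 * m - 1) * ‖σ (x u : K)‖ * ‖aux σ z₀ b g ξ (z₀ + b * σ u)‖
          ≤ W ^ (2 * m) * Y * (2 * m * (X * (1 / ‖b‖) ^ (2 * m)) * (1 + M₀) *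
            (16 / ρ * (‖b‖ * W)) ^ (3 * m)) :=
            mul_le_mul (mul_le_mul h2 h3 (norm_nonneg _) (by positivity)) hGu (norm_nonneg _)
              (by positivity)
        _ = (C₂ / 2) * (m * Y) ^ 4 * (W ^ 11 * (16 / ρ) ^ 3 * ‖b‖) ^ m := by
            rw [hX, hC₂]
            have e1 : (16 / ρ * (‖b‖ * W)) ^ (3 * m) =
                ((16 / ρ) ^ 3) ^ m * (‖b‖ ^ m * (‖b‖ ^ (2 * m))) * (W ^ 3) ^ m := by
              have f1 : ‖b‖ ^ (3 * m) = ‖b‖ ^ m * ‖b‖ ^ (2 * m) := by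
                rw [← pow_add]
                congr 1
                ring
              rw [mul_pow, mul_pow, pow_mul (16 / ρ), f1, pow_mul W]
              ring
            have e2 : (1 / ‖b‖) ^ (2 * m) * ‖b‖ ^ (2 * m) = 1 := by
              rw [← mul_pow, one_div_mul_cancel hbpos.ne', one_pow]
            have e3 : (W ^ 11 * (16 / ρ) ^ 3 * ‖b‖) ^ m =
                (W ^ (2 * m)) ^ 4 * (W ^ 3) ^ m * ((16 / ρ) ^ 3) ^ m * ‖b‖ ^ m := by
              rw [mul_pow, mul_pow, ← pow_mul W, ← pow_mul W, ← pow_mul W, ← pow_add]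
              congr 3
              ring
            rw [e1, e3]
            have e4 : W ^ (2 * m) * Y * (2 * ↑m * (C₁ * (↑m * (W ^ (2 * m) * Y)) ^ 3 *
                (1 / ‖b‖) ^ (2 * m)) * (1 + M₀) * (((16 / ρ) ^ 3) ^ m *
                (‖b‖ ^ m * ‖b‖ ^ (2 * m)) * (W ^ 3) ^ m)) =
                ((1 / ‖b‖) ^ (2 * m) * ‖b‖ ^ (2 * m)) * (4 * C₁ * (1 + M₀) / 2 *
                (↑m * Y) ^ 4 * ((W ^ (2 * m)) ^ 4 * (W ^ 3) ^ m * ((16 / ρ) ^ 3) ^ m *
                ‖b‖ ^ m)) := by ring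
            rw [e4, e2, one_mul]
        _ ≤ _ := by
            have : 0 ≤ (m * Y) ^ 4 * (W ^ 11 * (16 / ρ) ^ 3 * ‖b‖) ^ m := by positivity
            have h5 : 0 ≤ C₂ := by positivity
            nlinarith
    have h2 : house (val ξ (c u) (a u) (x u) (y u) : K) ≤ C₂ * (m * Y) ^ 4 * (W ^ 8) ^ m := by
      refine (house_val hW hm hu'.cW hu'.aW hu'.xY hu'.yY hξb).trans ?_
      have e1 : 4 * (m : ℝ) * (W ^ (2 * m) * Y * X) =
          4 * C₁ * (m * Y) ^ 4 * (W ^ (2 * m)) ^ 4 := by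
        rw [hX]
        ring
      have e2 : (W ^ 8) ^ m = (W ^ (2 * m)) ^ 4 := by
        rw [← pow_mul, ← pow_mul]
        congr 1
        ring
      rw [e1, e2, hC₂]
      have : 0 ≤ C₁ * (m * Y) ^ 4 * (W ^ (2 * m)) ^ 4 := by positivity
      nlinarith
    obtain ⟨δ, hδ⟩ : ∃ δ, Module.finrank ℚ K = δ + 1 :=
      ⟨Module.finrank ℚ K - 1, (Nat.succ_pred_eq_of_pos Module.finrank_pos).symm⟩
    rw [hδ, Nat.add_sub_cancel] at hL
    rw [hδ] at hsmall
    have h3 : ‖σ (val ξ (c u) (a u) (x u) (y u) : K)‖ *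
        house (val ξ (c u) (a u) (x u) (y u) : K) ^ δ ≤
        (C₂ * (m * Y) ^ 4 * (W ^ 11 * (16 / ρ) ^ 3 * ‖b‖) ^ m) *
          (C₂ * (m * Y) ^ 4 * (W ^ 8) ^ m) ^ δ :=
      mul_le_mul h1 (pow_le_pow_left₀ (house_nonneg _) h2 _) (pow_nonneg (house_nonneg _) _)
        (by positivity)
    have h4 : (C₂ * (m * Y) ^ 4 * (W ^ 11 * (16 / ρ) ^ 3 * ‖b‖) ^ m) *
          (C₂ * (m * Y) ^ 4 * (W ^ 8) ^ m) ^ δ =
        (C₂ * (m * Y) ^ 4) ^ (δ + 1) *
          (W ^ (8 * (δ + 1) + 3) * (16 / ρ) ^ 3 * ‖b‖) ^ m := by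
      have e1 : W ^ (8 * (δ + 1) + 3) = W ^ 11 * (W ^ 8) ^ δ := by
        rw [← pow_mul, ← pow_add]
        congr 1
        ring
      have e2 : ((W ^ 8) ^ m) ^ δ = ((W ^ 8) ^ δ) ^ m := by
        rw [← pow_mul, ← pow_mul, ← pow_mul, ← pow_mul]
        congr 1
        ring
      rw [e1, mul_pow (C₂ * (m * Y) ^ 4), e2, mul_pow _ ‖b‖, mul_pow _ ((16 / ρ) ^ 3),
        mul_pow _ ‖b‖, mul_pow _ ((16 / ρ) ^ 3), mul_pow (W ^ 11)]
      ring
    rw [h4] at h3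
    linarith
  have h5 := congrArg (algebraMap (𝓞 K) K) hvz
  have h6 := val_eq (ξ := ξ) (x := x u) (y := y u) hu'.ac
  rw [RingOfIntegers.coe_eq_algebraMap, h5, map_zero] at h6
  exact (mul_eq_zero.1 h6.symm).resolve_left (pow_ne_zero _ (by exact_mod_cast hu'.c0))

end Pool.Agent.KS6_12
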