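import Pool.Agent.KS6_12.Hyp.Curve
import Pool.Agent.KS6_12.Hyp.Pade

/-! The core of the repulsion theorem for rational points on discs in a hyperbolic variety. -/

set_option autoImplicit false

open NumberField Height Metric Set
open Pool.Agent.NH29.GK (Phi Mat PM HolP Phi_inj Phi_diag_ne)

namespace Pool.Agent.KS6_12

section general

variable {K : Type} [Field K]

lemma toC_mem {n : ℕ} {ι : Type} {σ : K →+* ℂ} {F : ι → MvPolynomial (Fin (n + 1)) K} {e : ι → ℕ}
    (hF : ∀ i, (F i).IsHomogeneous (e i)) {x : PP K n}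
    (h : toC σ x ∈ Zer fun i => (F i).map σ) (i : ι) : MvPolynomial.eval x.rep (F i) = 0 := by
  have h1 := h i
  unfold toC at h1
  rw [eval_rep ((hF i).map σ)] at h1
  have h2 : MvPolynomial.eval (fun j => σ (x.rep j)) ((F i).map σ) =
      σ (MvPolynomial.eval x.rep (F i)) := by
    rw [MvPolynomial.eval_map, MvPolynomial.eval₂_comp]
    rfl
  rw [h2, map_eq_zero] at h1
  exact h1

lemma natDegree_aeval_le {n : ℕ} {P : MvPolynomial (Fin (n + 1)) K} {e : ℕ}
    (hP : P.IsHomogeneous e) {φ : Fin (n + 1) → Polynomial K} {D : ℕ}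
    (hD : ∀ j, (φ j).natDegree ≤ D) : (MvPolynomial.aeval φ P).natDegree ≤ e * D := by
  rw [MvPolynomial.aeval_def, MvPolynomial.eval₂_eq']
  refine Polynomial.natDegree_sum_le_of_forall_le _ _ fun β hβ => ?_
  have h1 : β.degree = e := by
    by_contra h
    exact (MvPolynomial.mem_support_iff.1 hβ) (hP.coeff_eq_zero h)
  refine (Polynomial.natDegree_C_mul_le _ _).trans ?_
  refine (Polynomial.natDegree_prod_le _ _).trans ?_
  calc ∑ i, (φ i ^ β i).natDegree ≤ ∑ i, β i * D :=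
        Finset.sum_le_sum fun i _ => Polynomial.natDegree_pow_le_of_le _ (hD i)
    _ = e * D := by rw [← Finset.sum_mul, ← h1, Finsupp.degree_eq_sum]

lemma eval_aeval_poly {n : ℕ} (P : MvPolynomial (Fin (n + 1)) K)
    (φ : Fin (n + 1) → Polynomial K) (u : K) :
    (MvPolynomial.aeval φ P).eval u = MvPolynomial.eval (fun j => (φ j).eval u) P := by
  have h1 := MvPolynomial.comp_aeval_apply φ (Polynomial.aeval (R := K) u) P
  have h2 : (fun j => (Polynomial.aeval (R := K) u) (φ j)) = fun j => (φ j).eval u := by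
    funext j
    simp [Polynomial.aeval_def, Polynomial.eval₂_eq_eval_map]
  rw [h2] at h1
  rw [← MvPolynomial.coe_aeval_eq_eval]
  change _ = (MvPolynomial.aeval fun j => Polynomial.eval u (φ j)) P
  rw [← h1]
  simp [Polynomial.aeval_def, Polynomial.eval₂_eq_eval_map]

lemma map_aeval_poly {n : ℕ} (σ : K →+* ℂ) (P : MvPolynomial (Fin (n + 1)) K)
    (φ : Fin (n + 1) → Polynomial K) :
    MvPolynomial.aeval (fun j => (φ j).map σ) (P.map σ) = (MvPolynomial.aeval φ P).map σ := by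
  rw [MvPolynomial.aeval_def, MvPolynomial.eval₂_map, MvPolynomial.aeval_def]
  have h1 := MvPolynomial.eval₂_comp_left (Polynomial.mapRingHom σ) (algebraMap K (Polynomial K))
    φ P
  rw [Polynomial.coe_mapRingHom] at h1
  rw [h1]
  congr 1
  ext x
  simp [Polynomial.algebraMap_eq]

lemma eval_smul_form' {n : ℕ} {P : MvPolynomial (Fin (n + 1)) K} {e : ℕ}
    (hP : P.IsHomogeneous e) (c : K) (v : Fin (n + 1) → K) :
    MvPolynomial.eval (fun j => c * v j) P = c ^ e * MvPolynomial.eval v P := by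
  have := aeval_mul_form hP c v
  rwa [← MvPolynomial.coe_aeval_eq_eval]

end general

variable {K : Type} [Field K] [NumberField K]

/-- the coordinates of a rational point on a chart of a disc -/
lemma coords {n : ℕ} {σ : K →+* ℂ} {x : PP K n} {v : Fin (n + 1) → ℂ} {i : Fin (n + 1)}
    (hv : v ≠ 0) (hvi : v i = 1) (h : Phi (toC σ x).rep = Phi v) :
    x.rep i ≠ 0 ∧ ∀ j, σ (x.rep j) = v j * σ (x.rep i) := by
  have hne : (fun j => σ (x.rep j)) ≠ 0 := by
    intro h0
    apply x.rep_nonzero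
    funext j
    have := congrFun h0 j
    simpa using this
  unfold toC at h
  rw [Phi_rep hne] at h
  obtain ⟨c, hc, h1⟩ := Phi_inj hv hne h.symm
  have h2 : σ (x.rep i) = c := by
    have := congrFun h1 i
    rw [Pi.smul_apply, hvi, smul_eq_mul, mul_one] at this
    exact this
  refine ⟨?_, fun j => ?_⟩
  · intro h0
    rw [h0, map_zero] at h2
    exact hc h2.symm
  · have := congrFun h1 j
    rw [Pi.smul_apply, smul_eq_mul] at this
    rw [h2, mul_comm]
    exact this

/-- zeros of a polynomial of small degree -/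
lemma poly_eq_zero {A : Polynomial K} {d : ℕ} (hA : A.degree < d) {S : Finset K}
    (hS : d ≤ S.card) (h : ∀ u ∈ S, A.eval u = 0) : A = 0 := by
  by_contra hne
  have h1 := Polynomial.eq_zero_of_natDegree_lt_card_of_eval_eq_zero' A S h (by
    have := (Polynomial.natDegree_lt_iff_degree_lt hne).2 hA
    omega)
  exact hne h1

/-- The conclusion of the argument for one coordinate, once the relation is a multiple of a
constant relation. -/
lemma const_coord (σ : K →+* ℂ) {M₀ : ℝ} (hM₀ : 0 ≤ M₀) {ρ : ℝ} (hρ : 0 < ρ)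
    {z₀ b : ℂ} (hb : b ≠ 0) {g : ℂ → ℂ} (hg : DifferentiableOn ℂ g (ball z₀ ρ))
    (hgM : ∀ z ∈ ball z₀ ρ, ‖g z‖ ≤ M₀) {W Y : ℝ} (hW : 1 ≤ W) (hY : 1 ≤ Y)
    (hbW : ‖b‖ * W ≤ ρ / 8) {m : ℕ} (hm : 0 < m)
    (hsmall : (2 * (1 + M₀) * Y ^ 2) ^ Module.finrank ℚ K * (16 / ρ * (‖b‖ * W)) ^ m < 1)
    {S : Finset K} {c : K → ℕ} {a x y : K → 𝓞 K}
    (hS : ∀ u ∈ S, Dat σ z₀ b g W Y u (c u) (a u) (x u) (y u)) {T : Finset K} (hTS : T ⊆ S)
    (hT : m ≤ T.card) {γ : ℂ} (hγ : ∀ u ∈ T, g (z₀ + b * σ u) = γ) :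
    ∀ u ∈ S, g (z₀ + b * σ u) = γ := by
  classical
  have hbpos : 0 < ‖b‖ := norm_pos_iff.2 hb
  obtain ⟨T₀, hT₀T, hT₀⟩ := Finset.exists_subset_card_eq hT
  have hTne : T₀.Nonempty := by
    rw [← Finset.card_pos, hT₀]
    exact hm
  obtain ⟨u₁, hu₁⟩ := hTne
  have hu₁T := hT₀T hu₁
  have hu₁S := hTS hu₁T
  set r : ℝ := ‖b‖ * W with hr
  have hrnn : 0 ≤ r := by positivity
  have hmem : ∀ u ∈ S, z₀ + b * σ u ∈ closedBall z₀ r := by
    intro u hu
    rw [mem_closedBall_iff_norm, add_sub_cancel_left, norm_mul]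
    exact mul_le_mul_of_nonneg_left ((norm_embedding_le_house u σ).trans (hS u hu).uW)
      (norm_nonneg _)
  have hinj : Set.InjOn (fun u : K => z₀ + b * σ u) (T₀ : Set K) := by
    intro u _ v _ huv
    have h1 : b * σ u = b * σ v := add_left_cancel huv
    exact σ.injective (mul_left_cancel₀ hb h1)
  have hγM : ‖γ‖ ≤ M₀ := by
    rw [← hγ u₁ hu₁T]
    exact hgM _ (closedBall_subset_ball (by linarith) (hmem u₁ hu₁S))
  have hcardim : (T₀.image (fun u : K => z₀ + b * σ u)).card = m := by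
    rw [Finset.card_image_of_injOn hinj, hT₀]
  intro u hu
  have hbound : ‖g (z₀ + b * σ u) - γ‖ ≤ 2 * M₀ * (16 / ρ * (‖b‖ * W)) ^ m := by
    have h1 := schwarz_many (c := z₀) (r := r) (R' := ρ / 2) (R := ρ) (by linarith)
      (by linarith) (by linarith) (g := fun z => g z - γ) (hg.sub_const γ) (B := 2 * M₀) (by
        intro z hz
        refine (norm_sub_le _ _).trans ?_
        have := hgM z (closedBall_subset_ball (by linarith) hz)
        linarith) (T₀.image (fun u : K => z₀ + b * σ u)) (by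
        intro w hw
        obtain ⟨v, hv, rfl⟩ := Finset.mem_image.1 hw
        refine ⟨hmem v (hTS (hT₀T hv)), ?_⟩
        rw [hγ v (hT₀T hv), sub_self]) (hmem u hu)
    rw [hcardim] at h1
    refine h1.trans (mul_le_mul_of_nonneg_left ?_ (by positivity))
    refine pow_le_pow_left₀ (div_nonneg (by positivity) (by linarith)) ?_ _
    rw [div_le_iff₀ (by linarith), ← hr]
    have h2 : 16 / ρ * r * (ρ / 2 - r) = 8 * r - 16 / ρ * r * r := by
      field_simp
      ring
    rw [h2]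
    have h3 : 16 / ρ * r * r ≤ 2 * r := by
      have h4 : 16 / ρ * r ≤ 2 := by
        rw [div_mul_eq_mul_div, div_le_iff₀ hρ]
        linarith
      exact mul_le_mul_of_nonneg_right h4 hrnn
    linarith
  set E : 𝓞 K := x u₁ * y u - y u₁ * x u with hE
  have hEK : (E : K) = (x u₁ : K) * y u - (y u₁ : K) * x u := by
    rw [hE]
    simp only [RingOfIntegers.coe_eq_algebraMap, map_sub, map_mul]
  have hσE : σ (E : K) = σ (x u₁ : K) * σ (x u : K) * (g (z₀ + b * σ u) - γ) := by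
    rw [hEK, map_sub, map_mul, map_mul, (hS u hu).xy, (hS u₁ hu₁S).xy, hγ u₁ hu₁T]
    ring
  have hσx : ∀ v ∈ S, ‖σ (x v : K)‖ ≤ Y := fun v hv =>
    (norm_embedding_le_house _ σ).trans (hS v hv).xY
  have hE0 : E = 0 := by
    by_contra hne
    have hL := liouville σ hne
    have h1 : ‖σ (E : K)‖ ≤ 2 * (1 + M₀) * Y ^ 2 * (16 / ρ * (‖b‖ * W)) ^ m := by
      rw [hσE, norm_mul, norm_mul]
      calc ‖σ (x u₁ : K)‖ * ‖σ (x u : K)‖ * ‖g (z₀ + b * σ u) - γ‖
          ≤ Y * Y * (2 * M₀ * (16 / ρ * (‖b‖ * W)) ^ m) :=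
            mul_le_mul (mul_le_mul (hσx u₁ hu₁S) (hσx u hu) (norm_nonneg _) (by positivity))
              hbound (norm_nonneg _) (by positivity)
        _ ≤ 2 * (1 + M₀) * Y ^ 2 * (16 / ρ * (‖b‖ * W)) ^ m := by
            have : 0 ≤ Y ^ 2 * (16 / ρ * (‖b‖ * W)) ^ m := by positivity
            nlinarith
    have h2 : house (E : K) ≤ 2 * (1 + M₀) * Y ^ 2 := by
      rw [hEK]
      have h3 : house ((x u₁ : K) * y u - (y u₁ : K) * x u) ≤
          house ((x u₁ : K) * y u) + house ((y u₁ : K) * x u) := by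
        rw [sub_eq_add_neg]
        refine (house_add_le _ _).trans ?_
        have : house (-((y u₁ : K) * x u)) = house ((y u₁ : K) * x u) := by
          unfold house
          rw [map_neg, norm_neg]
        rw [this]
      have h4 : house ((x u₁ : K) * y u) ≤ Y * Y := (house_mul_le _ _).trans
        (mul_le_mul (hS u₁ hu₁S).xY (hS u hu).yY (house_nonneg _) (by positivity))
      have h5 : house ((y u₁ : K) * x u) ≤ Y * Y := (house_mul_le _ _).trans
        (mul_le_mul (hS u₁ hu₁S).yY (hS u hu).xY (house_nonneg _) (by positivity))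
      nlinarith
    obtain ⟨δ, hδ⟩ : ∃ δ, Module.finrank ℚ K = δ + 1 :=
      ⟨Module.finrank ℚ K - 1, (Nat.succ_pred_eq_of_pos Module.finrank_pos).symm⟩
    rw [hδ, Nat.add_sub_cancel] at hL
    rw [hδ] at hsmall
    have h3 : ‖σ (E : K)‖ * house (E : K) ^ δ ≤
        (2 * (1 + M₀) * Y ^ 2 * (16 / ρ * (‖b‖ * W)) ^ m) * (2 * (1 + M₀) * Y ^ 2) ^ δ :=
      mul_le_mul h1 (pow_le_pow_left₀ (house_nonneg _) h2 _) (pow_nonneg (house_nonneg _) _)
        (by positivity)
    have h4 : (2 * (1 + M₀) * Y ^ 2 * (16 / ρ * (‖b‖ * W)) ^ m) * (2 * (1 + M₀) * Y ^ 2) ^ δ =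
        (2 * (1 + M₀) * Y ^ 2) ^ (δ + 1) * (16 / ρ * (‖b‖ * W)) ^ m := by ring
    rw [h4] at h3
    linarith
  rw [hE0] at hσE
  simp only [map_zero] at hσE
  have h5 : ∀ v ∈ S, σ (x v : K) ≠ 0 := by
    intro v hv
    rw [Ne, map_eq_zero]
    exact fun h => (hS v hv).x0 (RingOfIntegers.coe_eq_zero_iff.1 h)
  exact sub_eq_zero.1 ((mul_eq_zero.1 hσE.symm).resolve_left
    (mul_ne_zero (h5 u₁ hu₁S) (h5 u hu)))

end Pool.Agent.KS6_12
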