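import Pool.Agent.KS6_12.Hyp.Trans

/-! Rational curves in a Brody hyperbolic variety are constant. -/

set_option autoImplicit false

open Metric Set Filter Topology

namespace Pool.Agent.KS6_12

variable {n : ℕ} {ι : Type}

lemma aeval_mul_form {R A : Type} [CommRing R] [CommRing A] [Algebra R A] {n : ℕ}
    {P : MvPolynomial (Fin (n + 1)) R} {e : ℕ} (hP : P.IsHomogeneous e) (d : A)
    (ψ : Fin (n + 1) → A) :
    MvPolynomial.aeval (fun j => d * ψ j) P = d ^ e * MvPolynomial.aeval ψ P := by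
  rw [MvPolynomial.aeval_def, MvPolynomial.aeval_def, MvPolynomial.eval₂_eq',
    MvPolynomial.eval₂_eq', Finset.mul_sum]
  refine Finset.sum_congr rfl fun β hβ => ?_
  have h1 : β.degree = e := by
    by_contra h
    exact (MvPolynomial.mem_support_iff.1 hβ) (hP.coeff_eq_zero h)
  have h2 : ∏ i, (d * ψ i) ^ β i = d ^ e * ∏ i, ψ i ^ β i := by
    simp only [mul_pow]
    rw [Finset.prod_mul_distrib, Finset.prod_pow_eq_pow_sum]
    congr 2
    rw [← h1, Finsupp.degree_eq_sum]
  rw [h2]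
  ring

/-- removing the common factor of polynomials -/
lemma exists_coprime {φ : Fin (n + 1) → Polynomial ℂ} (hφ : φ ≠ 0) :
    ∃ (d : Polynomial ℂ) (ψ : Fin (n + 1) → Polynomial ℂ), d ≠ 0 ∧ (∀ j, φ j = d * ψ j) ∧
      ∀ z : ℂ, ∃ j, (ψ j).eval z ≠ 0 := by
  classical
  obtain ⟨i⟩ : Nonempty (NormalizedGCDMonoid (Polynomial ℂ)) :=
    ⟨UniqueFactorizationMonoid.toNormalizedGCDMonoid _⟩
  obtain ⟨ψ, h1, h2⟩ := Finset.extract_gcd φ (Finset.univ_nonempty (α := Fin (n + 1)))
  refine ⟨Finset.univ.gcd φ, ψ, ?_, fun j => h1 j (Finset.mem_univ j), fun z => ?_⟩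
  · intro h0
    apply hφ
    funext j
    exact Finset.gcd_eq_zero_iff.1 h0 j (Finset.mem_univ j)
  · by_contra hcon
    push Not at hcon
    have h3 : (Polynomial.X - Polynomial.C z) ∣ Finset.univ.gcd ψ :=
      Finset.dvd_gcd fun j _ => Polynomial.dvd_iff_isRoot.2 (hcon j)
    rw [h2] at h3
    exact Polynomial.not_isUnit_X_sub_C z (isUnit_of_dvd_one h3)

theorem poly_curve_const {F : ι → MvPolynomial (Fin (n + 1)) ℂ} {e : ι → ℕ}
    (hF : ∀ i, (F i).IsHomogeneous (e i)) (hyp : BrodyHyp F) {φ : Fin (n + 1) → Polynomial ℂ}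
    (hφ : φ ≠ 0) (hz : ∀ i, MvPolynomial.aeval φ (F i) = 0) :
    ∃ c : Fin (n + 1) → ℂ, c ≠ 0 ∧ ∀ j k, Polynomial.C (c k) * φ j = Polynomial.C (c j) * φ k := by
  obtain ⟨d, ψ, hd, hφψ, hψ⟩ := exists_coprime hφ
  have hψz : ∀ i, MvPolynomial.aeval ψ (F i) = 0 := by
    intro i
    have h1 := hz i
    have h2 : φ = fun j => d * ψ j := funext hφψ
    rw [h2, aeval_mul_form (hF i)] at h1
    exact (mul_eq_zero.1 h1).resolve_left (pow_ne_zero _ hd)
  set v : ℂ → Fin (n + 1) → ℂ := fun z j => (ψ j).eval z with hv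
  have hvne : ∀ z, v z ≠ 0 := by
    intro z h0
    obtain ⟨j, hj⟩ := hψ z
    exact hj (congrFun h0 j)
  have hvd : Differentiable ℂ v := differentiable_pi.2 fun j => (ψ j).differentiable
  have hvF : ∀ z i, MvPolynomial.eval (v z) (F i) = 0 := by
    intro z i
    have h1 := congrArg (Polynomial.aeval (R := ℂ) z) (hψz i)
    rw [map_zero, MvPolynomial.comp_aeval_apply] at h1
    have h2 : (fun j => (Polynomial.aeval (R := ℂ) z) (ψ j)) = v z := by
      funext j
      rw [hv]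
      simp [Polynomial.aeval_def, Polynomial.eval₂_eq_eval_map]
    rw [h2] at h1
    rw [← MvPolynomial.coe_aeval_eq_eval]
    exact h1
  have hconst := hyp (fun z => Projectivization.mk ℂ (v z) (hvne z))
    (fun z _ => ⟨univ, v, isOpen_univ, mem_univ z, hvd.differentiableOn,
      fun w _ => ⟨hvne w, rfl⟩⟩) (fun z i => (eval_rep (hF i) (hvne z)).2 (hvF z i))
  refine ⟨v 0, hvne 0, fun j k => ?_⟩
  have h1 : Polynomial.C (v 0 k) * ψ j = Polynomial.C (v 0 j) * ψ k := by
    apply Polynomial.funext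
    intro z
    have h2 := (Projectivization.mk_eq_mk_iff' ℂ _ _ (hvne z) (hvne 0)).1 (hconst z 0)
    obtain ⟨a, ha⟩ := h2
    have h3 := congrFun ha j
    have h4 := congrFun ha k
    simp only [Pi.smul_apply, smul_eq_mul] at h3 h4
    rw [Polynomial.eval_mul, Polynomial.eval_C, Polynomial.eval_mul, Polynomial.eval_C]
    change v 0 k * v z j = v 0 j * v z k
    rw [← h3, ← h4]
    ring
  rw [hφψ j, hφψ k]
  linear_combination d * h1

end Pool.Agent.KS6_12
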