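import Mathlib

/-! Definitions: projective varieties given by forms, holomorphic curves, Brody hyperbolicity. -/

set_option autoImplicit false

open Metric Set

namespace Pool.Agent.KS6_12

/-- Projective space of dimension `n` over a field `L`. -/
abbrev PP (L : Type) [Field L] (n : ℕ) : Type := Projectivization L (Fin (n + 1) → L)

/-- The set of points of projective space over `L` at which all the forms `F i` vanish. -/
def Zer {L : Type} [Field L] {n : ℕ} {ι : Type} (F : ι → MvPolynomial (Fin (n + 1)) L) :
    Set (PP L n) :=
  {x | ∀ i, MvPolynomial.eval x.rep (F i) = 0}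

/-- `f` is a holomorphic map from the open set `U` of the plane to complex projective space: near
each point of `U` it has holomorphic homogeneous coordinates without common zeros. -/
def IsHol {n : ℕ} (U : Set ℂ) (f : ℂ → PP ℂ n) : Prop :=
  ∀ z ∈ U, ∃ (V : Set ℂ) (g : ℂ → Fin (n + 1) → ℂ), IsOpen V ∧ z ∈ V ∧ DifferentiableOn ℂ g V ∧
    ∀ w ∈ V, ∃ h : g w ≠ 0, f w = Projectivization.mk ℂ (g w) h

/-- The complex variety defined by the forms `F i` is Brody hyperbolic: every holomorphic map from
the complex plane to it is constant. -/
def BrodyHyp {n : ℕ} {ι : Type} (F : ι → MvPolynomial (Fin (n + 1)) ℂ) : Prop :=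
  ∀ f : ℂ → PP ℂ n, IsHol univ f → (∀ z, f z ∈ Zer F) → ∀ z w, f z = f w

/-- The complex point given by a `K`-rational point and an embedding of `K`. -/
noncomputable def toC {K : Type} [Field K] {n : ℕ} (σ : K →+* ℂ) (x : PP K n) : PP ℂ n :=
  Projectivization.mk ℂ (fun i => σ (x.rep i)) (by
    intro h
    apply x.rep_nonzero
    funext i
    have := congrFun h i
    simpa using this)

end Pool.Agent.KS6_12
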