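import Pool.Agent.KS6_12.Hyp.Trans

/-! The identity theorem for holomorphic maps to projective space. -/

set_option autoImplicit false

open Metric Set Filter Topology
open Pool.Agent.NH29.GK

namespace Pool.Agent.KS6_12

variable {n : ℕ}

/-- A holomorphic map on a connected open set which is constant near a point is constant. -/
theorem IsHol.const_of_eventually {U : Set ℂ} (hUc : IsPreconnected U)
    {f : ℂ → PP ℂ n} (hf : IsHol U f) {P : PP ℂ n} {z₀ : ℂ} (hz₀ : z₀ ∈ U)
    (h : ∀ᶠ z in 𝓝 z₀, f z = P) : ∀ z ∈ U, f z = P := by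
  set A : Set ℂ := {z | ∀ᶠ w in 𝓝 z, f w = P} with hA
  have hAo : IsOpen A := by
    rw [isOpen_iff_mem_nhds]
    intro z hz
    exact eventually_eventually_nhds.2 hz
  have hsub : U ⊆ A := by
    refine hUc.subset_of_closure_inter_subset hAo ⟨z₀, hz₀, h⟩ ?_
    rintro z ⟨hzA, hzU⟩
    obtain ⟨V, g, hV, hzV, hg, hfg⟩ := hf z hzU
    obtain ⟨r, hr, hrV⟩ := Metric.isOpen_iff.1 hV z hzV
    obtain ⟨w, hwA, hwr⟩ := Metric.mem_closure_iff.1 hzA r hr
    have hwb : w ∈ ball z r := by
      rw [mem_ball, dist_comm]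
      exact hwr
    have hgb : DifferentiableOn ℂ g (ball z r) := hg.mono hrV
    obtain ⟨p, hp, rfl⟩ : ∃ (p : Fin (n + 1) → ℂ) (hp : p ≠ 0), P = Projectivization.mk ℂ p hp :=
      ⟨P.rep, P.rep_nonzero, P.mk_rep.symm⟩
    have hpar : ∀ v ∈ ball z r, ∀ j k, g v j * p k = g v k * p j := by
      intro v hv j k
      have han : AnalyticOnNhd ℂ (fun v => g v j * p k - g v k * p j) (ball z r) := by
        apply DifferentiableOn.analyticOnNhd _ isOpen_ball
        exact ((differentiableOn_pi.1 hgb j).mul_const _).sub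
          ((differentiableOn_pi.1 hgb k).mul_const _)
      have hz0 : (fun v => g v j * p k - g v k * p j) =ᶠ[𝓝 w] 0 := by
        have h1 : ∀ᶠ v in 𝓝 w, f v = Projectivization.mk ℂ p hp := hwA
        filter_upwards [h1, isOpen_ball.mem_nhds hwb] with v hv1 hv2
        obtain ⟨hne, hfv⟩ := hfg v (hrV hv2)
        rw [hfv] at hv1
        obtain ⟨a, ha⟩ := (Projectivization.mk_eq_mk_iff' ℂ _ _ _ _).1 hv1
        simp only [Pi.zero_apply]
        rw [← ha]
        simp only [Pi.smul_apply, smul_eq_mul]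
        ring
      have := han.eqOn_zero_of_preconnected_of_eventuallyEq_zero
        (convex_ball z r).isPreconnected hwb hz0 hv
      exact sub_eq_zero.1 this
    have hfr : ∀ v ∈ ball z r, f v = Projectivization.mk ℂ p hp := by
      intro v hv
      obtain ⟨hne, hfv⟩ := hfg v (hrV hv)
      rw [hfv, Projectivization.mk_eq_mk_iff']
      obtain ⟨k, hk⟩ := Function.ne_iff.1 hp
      have hk' : p k ≠ 0 := hk
      refine ⟨g v k / p k, ?_⟩
      funext j
      rw [Pi.smul_apply, smul_eq_mul]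
      have := hpar v hv j k
      field_simp
      linear_combination -this
    exact eventually_of_mem (isOpen_ball.mem_nhds (mem_ball_self hr)) hfr
  intro z hz
  exact (hsub hz).self_of_nhds

lemma isPreconnected_outside {R₀ : ℝ} (hR : 0 ≤ R₀) : IsPreconnected {z : ℂ | R₀ < ‖z‖} := by
  have h1 : {z : ℂ | R₀ < ‖z‖} =
      (fun q : ℝ × ℝ => (q.1 : ℂ) * Complex.exp (q.2 * Complex.I)) '' (Ioi R₀ ×ˢ univ) := by
    ext z
    constructor
    · intro hz
      refine ⟨(‖z‖, z.arg), ⟨hz, mem_univ _⟩, ?_⟩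
      exact Complex.norm_mul_exp_arg_mul_I z
    · rintro ⟨q, ⟨hq, -⟩, rfl⟩
      have hq' : R₀ < q.1 := hq
      rw [mem_ofPred_eq, norm_mul, Complex.norm_exp_ofReal_mul_I, mul_one, Complex.norm_real,
        Real.norm_of_nonneg (hR.trans hq'.le)]
      exact hq'
  rw [h1]
  refine (isPreconnected_Ioi.prod isPreconnected_univ).image _ ?_
  apply Continuous.continuousOn
  fun_prop

end Pool.Agent.KS6_12
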