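import Pool.Agent.KS6_12.Hyp.Chart

/-! Kwack's theorem: a disc punctured at infinity in a hyperbolic compact set has a chart near
infinity. -/

set_option autoImplicit false

open Metric Set Filter Topology
open Pool.Agent.NH29.GK

namespace Pool.Agent.KS6_12

variable {n : ℕ}

lemma HolP.comp_exp {U : Set ℂ} {Ψ : ℂ → Mat n} (h : HolP U Ψ) :
    HolP (Complex.exp ⁻¹' U) (fun ζ => Ψ (Complex.exp ζ)) := by
  intro z hz
  obtain ⟨V, F, hV, hzV, hd, hF⟩ := h _ hz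
  exact ⟨Complex.exp ⁻¹' V, fun w => F (Complex.exp w), hV.preimage Complex.continuous_exp, hzV,
    hd.comp Complex.differentiable_exp.differentiableOn (fun w hw => hw), fun w hw => hF _ hw⟩

/-- entries of projection matrices -/
lemma entry_le {A : Mat n} (hA : A ∈ PM n) (j k : Fin (n + 1)) : ‖A j k‖ ≤ 1 := by
  obtain ⟨u, hu, rfl⟩ := hA
  have hpos := sum_sq_pos hu
  unfold Phi
  rw [norm_div, norm_mul, nsq_eq, Complex.norm_real, Real.norm_of_nonneg hpos.le,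
    div_le_one hpos, RCLike.norm_conj]
  have h1 : ‖u j‖ * ‖u k‖ ≤ (‖u j‖ ^ 2 + ‖u k‖ ^ 2) / 2 := by nlinarith [sq_nonneg (‖u j‖ - ‖u k‖)]
  have h2 : ∀ l, ‖u l‖ ^ 2 ≤ ∑ l, ‖u l‖ ^ 2 := fun l =>
    Finset.single_le_sum (f := fun l => ‖u l‖ ^ 2) (fun l _ => by positivity) (Finset.mem_univ l)
  linarith [h2 j, h2 k]

/-- the chart is Lipschitz -/
lemma chart_lip {A B : Mat n} (hA : A ∈ PM n) {i : Fin (n + 1)} {δ : ℝ} (hδ : 0 < δ)
    (hAi : δ ≤ ‖A i i‖) (hBi : δ ≤ ‖B i i‖) (j : Fin (n + 1)) :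
    ‖chart i A j - chart i B j‖ ≤ 2 / δ ^ 2 * ‖A - B‖ := by
  have hA0 : A i i ≠ 0 := by
    intro h
    rw [h, norm_zero] at hAi
    linarith
  have hB0 : B i i ≠ 0 := by
    intro h
    rw [h, norm_zero] at hBi
    linarith
  have hAp : 0 < ‖A i i‖ := norm_pos_iff.2 hA0
  have hBp : 0 < ‖B i i‖ := norm_pos_iff.2 hB0
  have h1 : ∀ k l, ‖A k l - B k l‖ ≤ ‖A - B‖ := fun k l =>
    (norm_le_pi_norm ((A - B) k) l).trans (norm_le_pi_norm (A - B) k)
  have h2 : chart i A j - chart i B j =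
      (A j i * (B i i - A i i) + A i i * (A j i - B j i)) / (A i i * B i i) := by
    unfold chart
    field_simp
    ring
  rw [h2, norm_div, norm_mul (A i i), div_le_iff₀ (by positivity)]
  have h3 : ‖A j i * (B i i - A i i) + A i i * (A j i - B j i)‖ ≤ 2 * ‖A - B‖ := by
    refine (norm_add_le _ _).trans ?_
    rw [norm_mul, norm_mul]
    have h4 : ‖A j i‖ * ‖B i i - A i i‖ ≤ 1 * ‖A - B‖ := by
      rw [norm_sub_rev]
      exact mul_le_mul (entry_le hA j i) (h1 i i) (norm_nonneg _) zero_le_one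
    have h5 : ‖A i i‖ * ‖A j i - B j i‖ ≤ 1 * ‖A - B‖ :=
      mul_le_mul (entry_le hA i i) (h1 j i) (norm_nonneg _) zero_le_one
    linarith
  refine h3.trans ?_
  have h6 : δ ^ 2 ≤ ‖A i i‖ * ‖B i i‖ := by
    rw [sq]
    exact mul_le_mul hAi hBi hδ.le (norm_nonneg _)
  calc 2 * ‖A - B‖ = 2 / δ ^ 2 * ‖A - B‖ * δ ^ 2 := by field_simp
    _ ≤ 2 / δ ^ 2 * ‖A - B‖ * (‖A i i‖ * ‖B i i‖) :=
        mul_le_mul_of_nonneg_left h6 (by positivity)

/-- Small circles -/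
theorem small_circles {S : Set (Mat n)} (hS : IsCompact S) (hPM : S ⊆ PM n)
    (hconst : ∀ H : ℂ → Mat n, HolP univ H → (∀ z, H z ∈ S) → ∀ z, H z = H 0) {R₀ : ℝ}
    (hR₀ : 0 < R₀) {Ψ : ℂ → Mat n} (hΨ : HolP {z | R₀ < ‖z‖} Ψ)
    (hΨS : ∀ z, R₀ < ‖z‖ → Ψ z ∈ S) {ε : ℝ} (hε : 0 < ε) :
    ∃ R₁ : ℝ, R₀ < R₁ ∧ ∀ z w : ℂ, R₁ ≤ ‖z‖ → ‖z‖ = ‖w‖ → ‖Ψ z - Ψ w‖ ≤ ε := by
  obtain ⟨C, hC, hCΨ⟩ := green (β := Empty) (P := fun b => b.elim) (e := fun b => b.elim)
    hS hPM (subset_refl S) (fun b => b.elim) (fun b => b.elim)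
    (fun H hH hHS _ => hconst H hH hHS)
  set a : ℝ := Real.log R₀ with ha
  set E : ℂ → Mat n := fun ζ => Ψ (Complex.exp ζ) with hE
  have hdom : ∀ ζ : ℂ, a < ζ.re → Complex.exp ζ ∈ {z : ℂ | R₀ < ‖z‖} := by
    intro ζ hζ
    rw [mem_ofPred_eq, Complex.norm_exp, ← Real.log_lt_iff_lt_exp hR₀]
    exact hζ
  have hEhol : HolP {ζ | a < ζ.re} E := (HolP.comp_exp hΨ).mono hdom
  have hder : ∀ ζ : ℂ, a < ζ.re → ‖fderiv ℝ E ζ‖ ≤ C / (ζ.re - a) := by
    intro ζ hζ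
    have hpos : 0 < ζ.re - a := sub_pos.2 hζ
    have hsub : ball (0 : ℂ) 1 ⊆ aff ζ (ζ.re - a) ⁻¹' {ζ | a < ζ.re} := by
      intro w hw
      rw [mem_ball_zero_iff] at hw
      rw [mem_preimage, mem_ofPred_eq]
      unfold aff
      rw [Complex.add_re, Complex.re_ofReal_mul]
      have h1 : -1 < w.re := by
        have := Complex.abs_re_le_norm w
        have h2 := neg_abs_le w.re
        linarith
      have h3 : (ζ.re - a) * (-1) < (ζ.re - a) * w.re := mul_lt_mul_of_pos_left h1 hpos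
      linarith
    have h1 := hCΨ (fun z => E (aff ζ (ζ.re - a) z)) ((hEhol.aff ζ (ζ.re - a)).mono hsub)
      (fun z hz => hΨS _ (hdom _ (hsub hz)))
    have h2 : aff ζ (ζ.re - a) 0 = ζ := by simp [aff]
    have h3 := norm_fderiv_aff (Ψ := E) (a := ζ) (ρ := ζ.re - a) hpos.le (z := 0) (by
      rw [h2]
      exact hEhol.differentiableAt hζ)
    rw [h3, h2] at h1
    rw [le_div_iff₀ hpos]
    linarith
  set s₀ : ℝ := a + 2 * Real.pi * C / ε with hs₀
  have hs₀a : a < s₀ := by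
    have : 0 < 2 * Real.pi * C / ε := by positivity
    linarith
  refine ⟨Real.exp s₀, ?_, fun z w hz hzw => ?_⟩
  · rwa [← Real.log_lt_iff_lt_exp hR₀]
  have hzpos : 0 < ‖z‖ := lt_of_lt_of_le (Real.exp_pos _) hz
  have hz0 : z ≠ 0 := norm_pos_iff.1 hzpos
  have hw0 : w ≠ 0 := norm_pos_iff.1 (hzw ▸ hzpos)
  have hconv : Convex ℝ {ζ : ℂ | s₀ ≤ ζ.re} := convex_halfSpace_re_ge s₀
  have hlz : s₀ ≤ (Complex.log z).re := by
    rw [Complex.log_re, Real.le_log_iff_exp_le hzpos]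
    exact hz
  have hlw : s₀ ≤ (Complex.log w).re := by
    rw [Complex.log_re, ← hzw, Real.le_log_iff_exp_le hzpos]
    exact hz
  have hbd : ∀ ζ ∈ {ζ : ℂ | s₀ ≤ ζ.re}, ‖fderiv ℝ E ζ‖ ≤ C / (s₀ - a) := by
    intro ζ hζ
    have hζ' : s₀ ≤ ζ.re := hζ
    refine (hder ζ (by linarith)).trans ?_
    exact div_le_div_of_nonneg_left hC.le (by linarith) (by linarith)
  have h1 := hconv.norm_image_sub_le_of_norm_fderiv_le
    (fun ζ hζ => hEhol.differentiableAt (lt_of_lt_of_le hs₀a hζ)) hbd hlw hlz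
  have h2 : E (Complex.log z) = Ψ z := by
    rw [hE]
    simp only [Complex.exp_log hz0]
  have h3 : E (Complex.log w) = Ψ w := by
    rw [hE]
    simp only [Complex.exp_log hw0]
  rw [h2, h3] at h1
  refine h1.trans ?_
  have h4 : ‖Complex.log z - Complex.log w‖ ≤ 2 * Real.pi := by
    have h5 : Complex.log z - Complex.log w = ((z.arg - w.arg : ℝ) : ℂ) * Complex.I := by
      apply Complex.ext
      · simp [Complex.log_re, hzw]
      · simp [Complex.log_im]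
    rw [h5, norm_mul, Complex.norm_I, mul_one, Complex.norm_real, Real.norm_eq_abs, abs_le]
    have h6 := Complex.neg_pi_lt_arg z
    have h7 := Complex.arg_le_pi z
    have h8 := Complex.neg_pi_lt_arg w
    have h9 := Complex.arg_le_pi w
    constructor <;> linarith
  have h10 : s₀ - a = 2 * Real.pi * C / ε := by rw [hs₀]; ring
  calc C / (s₀ - a) * ‖Complex.log z - Complex.log w‖ ≤ C / (s₀ - a) * (2 * Real.pi) :=
        mul_le_mul_of_nonneg_left h4 (div_nonneg hC.le (by linarith))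
    _ = ε := by
        rw [h10]
        have : Real.pi ≠ 0 := Real.pi_ne_zero
        field_simp

/-- the mean over a circle of an almost constant function -/
lemma mean_circle {r ε : ℝ} (hr : 0 < r) {f : ℂ → ℂ} (hf : ContinuousOn f (sphere 0 r)) {a : ℂ}
    (h : ∀ w ∈ sphere (0 : ℂ) r, ‖f w - a‖ ≤ ε) :
    ‖(∮ w in C(0, r), (w - 0)⁻¹ • f w) - (2 * Real.pi * Complex.I) * a‖ ≤ 2 * Real.pi * ε := by
  have hc1 : ContinuousOn (fun w : ℂ => (w - 0)⁻¹) (sphere 0 r) := by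
    refine ContinuousOn.inv₀ (by fun_prop) fun w hw => ?_
    rw [sub_zero]
    intro h0
    rw [h0, mem_sphere_zero_iff_norm, norm_zero] at hw
    linarith
  have i1 : CircleIntegrable (fun w : ℂ => (w - 0)⁻¹ • f w) 0 r := by
    apply ContinuousOn.circleIntegrable hr.le
    exact hc1.smul hf
  have i2 : CircleIntegrable (fun w : ℂ => (w - 0)⁻¹ • a) 0 r := by
    apply ContinuousOn.circleIntegrable hr.le
    exact hc1.smul continuousOn_const
  have h1 : (∮ w in C(0, r), (w - 0)⁻¹ • a) = (2 * Real.pi * Complex.I) * a := by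
    have h2 := circleIntegral.integral_smul_const (fun w : ℂ => (w - 0)⁻¹) a 0 r
    rw [h2, circleIntegral.integral_sub_center_inv 0 hr.ne', smul_eq_mul]
  rw [← h1, ← circleIntegral.integral_sub i1 i2]
  have h3 : ∀ w ∈ sphere (0 : ℂ) r, ‖(w - 0)⁻¹ • f w - (w - 0)⁻¹ • a‖ ≤ r⁻¹ * ε := by
    intro w hw
    rw [← smul_sub, norm_smul, norm_inv, sub_zero, mem_sphere_zero_iff_norm.1 hw]
    exact mul_le_mul_of_nonneg_left (h w hw) (by positivity)
  refine (circleIntegral.norm_integral_le_of_norm_le_const hr.le h3).trans (le_of_eq ?_)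
  field_simp

/-- the coordinates of a chart bound the diagonal entry -/
lemma diag_ge {A : Mat n} (hA : A ∈ PM n) {i : Fin (n + 1)} (hi : A i i ≠ 0) {M : ℝ}
    (hM : ∀ j, ‖chart i A j‖ ≤ M) : 1 / ((n + 1) * M ^ 2) ≤ ‖A i i‖ := by
  obtain ⟨u, hu, rfl⟩ := hA
  have hui : u i ≠ 0 := (Phi_diag_ne hu).1 hi
  have hpos := sum_sq_pos hu
  have huip : 0 < ‖u i‖ ^ 2 := by positivity
  have h1 : ∀ j, ‖u j‖ ^ 2 ≤ M ^ 2 * ‖u i‖ ^ 2 := by
    intro j
    have h2 := hM j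
    unfold chart at h2
    rw [Phi_ratio hu hui, norm_div, div_le_iff₀ (norm_pos_iff.2 hui)] at h2
    calc ‖u j‖ ^ 2 ≤ (M * ‖u i‖) ^ 2 := pow_le_pow_left₀ (norm_nonneg _) h2 2
      _ = _ := by ring
  have h3 : ∑ l, ‖u l‖ ^ 2 ≤ (n + 1) * (M ^ 2 * ‖u i‖ ^ 2) := by
    refine (Finset.sum_le_card_nsmul _ _ _ fun j _ => h1 j).trans (le_of_eq ?_)
    rw [nsmul_eq_mul, Finset.card_univ, Fintype.card_fin]
    push_cast
    ring
  have hM0 : 0 < M ^ 2 := by
    by_contra hcon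
    push Not at hcon
    have h4 : M ^ 2 * ‖u i‖ ^ 2 ≤ 0 := mul_nonpos_of_nonpos_of_nonneg hcon huip.le
    have := h1 i
    linarith
  rw [diag_eq, Complex.norm_real, Real.norm_of_nonneg (by positivity), div_le_div_iff₀
    (by positivity) hpos]
  linarith

/-- Kwack's theorem: a chart near infinity -/
theorem chart_at_infinity {S : Set (Mat n)} (hS : IsCompact S) (hPM : S ⊆ PM n)
    (hconst : ∀ H : ℂ → Mat n, HolP univ H → (∀ z, H z ∈ S) → ∀ z, H z = H 0) {R₀ : ℝ}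
    (hR₀ : 0 < R₀) {Ψ : ℂ → Mat n} (hΨ : HolP {z | R₀ < ‖z‖} Ψ)
    (hΨS : ∀ z, R₀ < ‖z‖ → Ψ z ∈ S) :
    ∃ (R₁ : ℝ) (i : Fin (n + 1)) (g : ℂ → Fin (n + 1) → ℂ), R₀ < R₁ ∧
      DifferentiableOn ℂ g {z | R₁ < ‖z‖} ∧
      ∀ z, R₁ < ‖z‖ → g z i = 1 ∧ (∀ j, ‖g z j‖ ≤ n + 2) ∧ g z ≠ 0 ∧ Ψ z = Phi (g z) := by
  have hn1 : (0 : ℝ) < n + 1 := by positivity
  have hn2 : (0 : ℝ) < n + 2 := by positivity
  set δ : ℝ := 1 / ((n + 1) * (n + 2) ^ 2) with hδ
  have hδpos : 0 < δ := by positivity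
  obtain ⟨R₁, hR₁, hsmall⟩ := small_circles hS hPM hconst hR₀ hΨ hΨS (ε := δ ^ 2 / 16)
    (by positivity)
  have hR₁pos : 0 < R₁ := hR₀.trans hR₁
  have hn₁ : ‖(R₁ : ℂ)‖ = R₁ := by rw [Complex.norm_real, Real.norm_of_nonneg hR₁pos.le]
  have hPMz : ∀ z, R₀ < ‖z‖ → Ψ z ∈ PM n := fun z hz => hPM (hΨS z hz)
  obtain ⟨i, hi⟩ := exists_big_diag (hPMz (R₁ : ℂ) (by rw [hn₁]; exact hR₁))
  set A₀ := Ψ (R₁ : ℂ) with hA₀
  have hA₀PM : A₀ ∈ PM n := hPMz _ (by rw [hn₁]; exact hR₁)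
  have hA₀i : A₀ i i ≠ 0 := by
    intro h
    rw [h, norm_zero] at hi
    have : (0 : ℝ) < 1 / (n + 1) := by positivity
    linarith
  set h0 : Fin (n + 1) → ℂ := chart i A₀ with hh0
  have hh0n : ∀ j, ‖h0 j‖ ≤ n + 1 := by
    intro j
    have h1 := chart_bound hA₀PM (δ := 1 / (n + 1)) (by positivity) hi j
    rw [one_div_one_div] at h1
    by_contra hcon
    push Not at hcon
    have h2 : (n + 1 : ℝ) ^ 2 < ‖h0 j‖ ^ 2 := pow_lt_pow_left₀ hcon (by positivity) (by norm_num)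
    have h3 : (n + 1 : ℝ) ≤ (n + 1) ^ 2 := by nlinarith
    linarith
  have hcont : ∀ z, R₀ < ‖z‖ → ContinuousAt Ψ z := fun z hz => hΨ.continuousAt hz
  -- the open set of good points
  set O : Set ℂ := {z | R₀ < ‖z‖ ∧ Ψ z i i ≠ 0 ∧ ∀ j, ‖chart i (Ψ z) j - h0 j‖ < 1} with hO
  have hOopen : IsOpen O := by
    rw [isOpen_iff_mem_nhds]
    rintro z ⟨hz1, hz2, hz3⟩
    have e1 : ∀ᶠ w in 𝓝 z, R₀ < ‖w‖ := (isOpen_lt continuous_const continuous_norm).mem_nhds hz1
    have hci : ContinuousAt (fun w => Ψ w i i) z :=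
      ((continuous_apply_apply i i).continuousAt).comp (hcont z hz1)
    have e2 : ∀ᶠ w in 𝓝 z, Ψ w i i ≠ 0 := hci.eventually_ne hz2
    have e3 : ∀ j, ∀ᶠ w in 𝓝 z, ‖chart i (Ψ w) j - h0 j‖ < 1 := by
      intro j
      have hcj : ContinuousAt (fun w => ‖chart i (Ψ w) j - h0 j‖) z := by
        have h1 : ContinuousAt (fun w => chart i (Ψ w)) z :=
          ContinuousAt.comp (g := chart i) (continuousAt_chart hz2) (hcont z hz1)
        exact ((continuousAt_pi.1 h1 j).sub continuousAt_const).norm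
      exact hcj.eventually_lt_const (hz3 j)
    filter_upwards [e1, e2, eventually_all.2 e3] with w h1 h2 h3
    exact ⟨h1, h2, h3⟩
  have hOn : ∀ z ∈ O, ∀ j, ‖chart i (Ψ z) j‖ ≤ n + 2 := by
    rintro z ⟨-, -, hz3⟩ j
    have h1 : chart i (Ψ z) j = (chart i (Ψ z) j - h0 j) + h0 j := by ring
    rw [h1]
    refine (norm_add_le _ _).trans ?_
    have := (hz3 j).le
    have := hh0n j
    linarith
  have hOδ : ∀ z ∈ O, δ ≤ ‖Ψ z i i‖ := fun z hz =>
    diag_ge (hPMz z hz.1) hz.2.1 (hOn z hz)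
  -- the key estimate
  have key : ∀ s : ℝ, R₁ ≤ s → (∀ z : ℂ, R₁ ≤ ‖z‖ → ‖z‖ ≤ s → z ∈ O) →
      ∀ z : ℂ, R₁ ≤ ‖z‖ → ‖z‖ ≤ s → ∀ j, ‖chart i (Ψ z) j - h0 j‖ ≤ 1 / 2 := by
    intro s hs hann z hz1 hz2 j
    have hzpos : 0 < ‖z‖ := lt_of_lt_of_le hR₁pos hz1
    set f : ℂ → ℂ := fun w => chart i (Ψ w) j with hf
    have hfd : ∀ w ∈ O, DifferentiableAt ℂ f w := fun w hw =>
      differentiableAt_pi.1 (hΨ.diff_chart hw.1 hw.2.1) j
    have hcirc : ∀ w w' : ℂ, R₁ ≤ ‖w‖ → ‖w‖ ≤ s → ‖w‖ = ‖w'‖ → ‖f w - f w'‖ ≤ 1 / 8 := by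
      intro w w' h1 h2 h3
      have hw : w ∈ O := hann w h1 h2
      have hw' : w' ∈ O := hann w' (h3 ▸ h1) (h3 ▸ h2)
      have h4 := chart_lip (hPMz w hw.1) hδpos (hOδ w hw) (hOδ w' hw') j
      refine h4.trans ?_
      calc 2 / δ ^ 2 * ‖Ψ w - Ψ w'‖ ≤ 2 / δ ^ 2 * (δ ^ 2 / 16) :=
            mul_le_mul_of_nonneg_left (hsmall w w' h1 h3) (by positivity)
        _ = 1 / 8 := by field_simp; norm_num
    have hann' : ∀ w ∈ closedBall (0 : ℂ) ‖z‖ \ ball 0 R₁, w ∈ O := by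
      rintro w ⟨h1, h2⟩
      rw [mem_closedBall_zero_iff] at h1
      rw [mem_ball_zero_iff, not_lt] at h2
      exact hann w h2 (h1.trans hz2)
    have hfc : ContinuousOn f (closedBall (0 : ℂ) ‖z‖ \ ball 0 R₁) := fun w hw =>
      (hfd w (hann' w hw)).continuousAt.continuousWithinAt
    have hint := Complex.circleIntegral_sub_center_inv_smul_eq_of_differentiable_on_annulus_off_countable
      hR₁pos hz1 (s := ∅) (countable_empty) hfc (by
        rintro w ⟨⟨h1, h2⟩, -⟩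
        refine hfd w (hann' w ⟨ball_subset_closedBall h1, fun h3 => h2 (ball_subset_closedBall h3)⟩))
    have m1 := mean_circle hzpos (f := f) (a := f z) (ε := 1 / 8) (hfc.mono (by
      intro w hw
      rw [mem_sphere_zero_iff_norm] at hw
      exact ⟨mem_closedBall_zero_iff.2 hw.le, fun h => by
        rw [mem_ball_zero_iff] at h
        linarith⟩)) (fun w hw => by
        rw [mem_sphere_zero_iff_norm] at hw
        exact hcirc w z (by rw [hw]; exact hz1) (by rw [hw]; exact hz2) hw)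
    have m2 := mean_circle hR₁pos (f := f) (a := f (R₁ : ℂ)) (ε := 1 / 8) (hfc.mono (by
      intro w hw
      rw [mem_sphere_zero_iff_norm] at hw
      exact ⟨mem_closedBall_zero_iff.2 (by rw [hw]; exact hz1), fun h => by
        rw [mem_ball_zero_iff] at h
        linarith⟩)) (fun w hw => by
        rw [mem_sphere_zero_iff_norm] at hw
        exact hcirc w R₁ (by rw [hw]) (by rw [hw]; exact hs) (by rw [hw, hn₁]))
    rw [hint] at m1
    have h5 : ‖(2 * Real.pi * Complex.I) * (f z - h0 j)‖ ≤ 2 * Real.pi * (1 / 4) := by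
      have h6 : (2 * Real.pi * Complex.I) * (f z - h0 j) =
          ((∮ w in C(0, R₁), (w - 0)⁻¹ • f w) - (2 * Real.pi * Complex.I) * f (R₁ : ℂ)) -
          ((∮ w in C(0, R₁), (w - 0)⁻¹ • f w) - (2 * Real.pi * Complex.I) * f z) := by
        have : h0 j = f (R₁ : ℂ) := rfl
        rw [this]
        ring
      rw [h6]
      refine (norm_sub_le _ _).trans ?_
      linarith
    have h7 : ‖(2 * Real.pi * Complex.I : ℂ)‖ = 2 * Real.pi := by
      simp [abs_of_pos Real.pi_pos]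
    rw [norm_mul, h7] at h5
    have h8 := le_of_mul_le_mul_left h5 (by positivity)
    linarith
  -- the base circle
  have hbase : ∀ z : ℂ, R₁ ≤ ‖z‖ → ‖z‖ ≤ R₁ → z ∈ O := by
    intro z hz1 hz2
    have hz : ‖z‖ = R₁ := le_antisymm hz2 hz1
    have hzR₀ : R₀ < ‖z‖ := by rw [hz]; exact hR₁
    have h1 : ‖Ψ z - A₀‖ ≤ δ ^ 2 / 16 := hsmall z R₁ hz1 (by rw [hz, hn₁])
    have h2 : ‖Ψ z i i - A₀ i i‖ ≤ ‖Ψ z - A₀‖ :=
      (norm_le_pi_norm ((Ψ z - A₀) i) i).trans (norm_le_pi_norm (Ψ z - A₀) i)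
    have hδ1 : δ ≤ 1 / (n + 1) := by
      rw [hδ]
      apply one_div_le_one_div_of_le hn1
      have : (1 : ℝ) ≤ (n + 2) ^ 2 := by nlinarith
      nlinarith
    have hδ4 : δ ≤ 1 / (n + 1) / 4 := by
      rw [hδ, div_div]
      apply one_div_le_one_div_of_le (by positivity)
      have : (4 : ℝ) ≤ (n + 2) ^ 2 := by
        have : (0 : ℝ) ≤ n := by positivity
        nlinarith
      nlinarith
    have hδle1 : δ ≤ 1 := by
      refine hδ1.trans ?_
      rw [div_le_one hn1]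
      have : (0 : ℝ) ≤ n := by positivity
      linarith
    have hδ2 : δ ^ 2 / 16 ≤ δ := by nlinarith
    have h3 : ‖A₀ i i‖ ≤ ‖Ψ z i i‖ + ‖Ψ z i i - A₀ i i‖ := by
      have : A₀ i i = Ψ z i i - (Ψ z i i - A₀ i i) := by ring
      conv_lhs => rw [this]
      exact norm_sub_le _ _
    have h4 : δ ≤ ‖Ψ z i i‖ := by linarith
    have h5 : Ψ z i i ≠ 0 := by
      intro h
      rw [h, norm_zero] at h4
      linarith
    refine ⟨hzR₀, h5, fun j => ?_⟩
    have h6 := chart_lip (hPMz z hzR₀) hδpos h4 (hδ1.trans hi) j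
    have h7 : 2 / δ ^ 2 * ‖Ψ z - A₀‖ ≤ 1 / 8 := by
      calc 2 / δ ^ 2 * ‖Ψ z - A₀‖ ≤ 2 / δ ^ 2 * (δ ^ 2 / 16) :=
            mul_le_mul_of_nonneg_left h1 (by positivity)
        _ = 1 / 8 := by field_simp; norm_num
    have h8 : ‖chart i (Ψ z) j - h0 j‖ ≤ 2 / δ ^ 2 * ‖Ψ z - A₀‖ := h6
    linarith
  -- all points are good
  have hall : ∀ s : ℝ, R₁ ≤ s → ∀ z : ℂ, R₁ ≤ ‖z‖ → ‖z‖ ≤ s → z ∈ O := by
    intro b hb
    set T : Set ℝ := {s | ∀ z : ℂ, R₁ ≤ ‖z‖ → ‖z‖ ≤ s → z ∈ O} with hT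
    have hsub : Icc R₁ b ⊆ T := by
      apply IsClosed.Icc_subset_of_forall_exists_gt
      · -- closed
        rw [← isOpen_compl_iff, isOpen_iff_mem_nhds]
        intro s hs
        by_cases hsI : s ∈ Icc R₁ b
        · have hsT : s ∉ T := fun h => hs ⟨h, hsI⟩
          simp only [hT, mem_ofPred_eq] at hsT
          push Not at hsT
          obtain ⟨z, hz1, hz2, hz3⟩ := hsT
          -- if all the smaller circles are good, then so is the limit
          have hz1' : R₁ < ‖z‖ := by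
            rcases eq_or_lt_of_le hz1 with h | h
            · exact absurd (hbase z hz1 h.symm.le) hz3
            · exact h
          by_contra hnb
          apply hz3
          have hsmaller : ∀ w : ℂ, R₁ ≤ ‖w‖ → ‖w‖ < ‖z‖ → w ∈ O := by
            intro w hw1 hw2
            by_contra hwO
            apply hnb
            have : Ioi ‖w‖ ∈ 𝓝 s := Ioi_mem_nhds (lt_of_lt_of_le hw2 hz2)
            filter_upwards [this] with s' hs' hs''
            exact hwO (hs''.1 w hw1 (le_of_lt hs'))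
          have hzR₀ : R₀ < ‖z‖ := hR₁.trans hz1'
          have hzpos : 0 < ‖z‖ := hR₀.trans hzR₀
          -- approximate by `t z`, `t → 1` from below
          have htend : Tendsto (fun t : ℝ => (t : ℂ) * z) (𝓝[<] (1 : ℝ)) (𝓝 z) := by
            have : Tendsto (fun t : ℝ => (t : ℂ) * z) (𝓝 (1 : ℝ)) (𝓝 (((1 : ℝ) : ℂ) * z)) :=
              (Complex.continuous_ofReal.mul continuous_const).tendsto 1
            rw [Complex.ofReal_one, one_mul] at this
            exact this.mono_left nhdsWithin_le_nhds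
          have hev : ∀ᶠ t : ℝ in 𝓝[<] (1 : ℝ), R₁ ≤ ‖(t : ℂ) * z‖ ∧ ‖(t : ℂ) * z‖ < ‖z‖ := by
            have e1 : ∀ᶠ t : ℝ in 𝓝[<] (1 : ℝ), t < 1 := eventually_mem_nhdsWithin
            have e2 : ∀ᶠ t : ℝ in 𝓝[<] (1 : ℝ), R₁ / ‖z‖ < t :=
              nhdsWithin_le_nhds (Ioi_mem_nhds (by rw [div_lt_one hzpos]; exact hz1'))
            filter_upwards [e1, e2] with t ht1 ht2
            have ht0 : 0 < t := lt_trans (by positivity) ht2
            rw [norm_mul, Complex.norm_real, Real.norm_of_nonneg ht0.le]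
            rw [div_lt_iff₀ hzpos] at ht2
            exact ⟨ht2.le, mul_lt_of_lt_one_left hzpos ht1⟩
          have hgood : ∀ᶠ t : ℝ in 𝓝[<] (1 : ℝ), (t : ℂ) * z ∈ O ∧
              ∀ j, ‖chart i (Ψ ((t : ℂ) * z)) j - h0 j‖ ≤ 1 / 2 := by
            filter_upwards [hev] with t ht
            refine ⟨hsmaller _ ht.1 ht.2, key ‖(t : ℂ) * z‖ ht.1 (fun w hw1 hw2 =>
              hsmaller w hw1 (lt_of_le_of_lt hw2 ht.2)) _ ht.1 le_rfl⟩
          have hc1 : Tendsto (fun t : ℝ => Ψ ((t : ℂ) * z)) (𝓝[<] (1 : ℝ)) (𝓝 (Ψ z)) :=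
            (hcont z hzR₀).tendsto.comp htend
          have hc2 : Tendsto (fun t : ℝ => ‖Ψ ((t : ℂ) * z) i i‖) (𝓝[<] (1 : ℝ))
              (𝓝 ‖Ψ z i i‖) :=
            (((continuous_apply_apply i i).tendsto (Ψ z)).comp hc1).norm
          have hδz : δ ≤ ‖Ψ z i i‖ :=
            ge_of_tendsto hc2 (hgood.mono fun t ht => hOδ _ ht.1)
          have hzi : Ψ z i i ≠ 0 := by
            intro h
            rw [h, norm_zero] at hδz
            linarith
          refine ⟨hzR₀, hzi, fun j => ?_⟩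
          have hc3 : Tendsto (fun t : ℝ => ‖chart i (Ψ ((t : ℂ) * z)) j - h0 j‖)
              (𝓝[<] (1 : ℝ)) (𝓝 ‖chart i (Ψ z) j - h0 j‖) := by
            have h1 : Tendsto (fun t : ℝ => chart i (Ψ ((t : ℂ) * z))) (𝓝[<] (1 : ℝ))
                (𝓝 (chart i (Ψ z))) := (continuousAt_chart hzi).tendsto.comp hc1
            exact ((tendsto_pi_nhds.1 h1 j).sub tendsto_const_nhds).norm
          have := le_of_tendsto hc3 (hgood.mono fun t ht => ht.2 j)
          linarith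
        · have : (Icc R₁ b)ᶜ ∈ 𝓝 s := isClosed_Icc.isOpen_compl.mem_nhds hsI
          filter_upwards [this] with s' hs' hs''
          exact hs' hs''.2
      · exact hbase
      · rintro x ⟨hxT, hx1, hx2⟩ y hy
        have hK : IsCompact (closedBall (0 : ℂ) x ∩ {z | R₁ ≤ ‖z‖}) :=
          (isCompact_closedBall _ _).inter_right (isClosed_le continuous_const continuous_norm)
        have hKO : closedBall (0 : ℂ) x ∩ {z | R₁ ≤ ‖z‖} ⊆ O := fun z hz =>
          hxT z hz.2 (mem_closedBall_zero_iff.1 hz.1)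
        obtain ⟨η, hη, hηO⟩ := hK.exists_thickening_subset_open hOopen hKO
        set x' : ℝ := min y (x + η / 2) with hx'
        have hxx' : x < x' := lt_min hy (by linarith)
        refine ⟨x', fun z hz1 hz2 => ?_, hxx', min_le_left _ _⟩
        rcases le_or_gt ‖z‖ x with h | h
        · exact hxT z hz1 h
        · apply hηO
          rw [mem_thickening_iff]
          have hzpos : 0 < ‖z‖ := lt_of_lt_of_le hR₁pos hz1
          have hxpos : 0 < x := lt_of_lt_of_le hR₁pos hx1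
          refine ⟨((x / ‖z‖ : ℝ) : ℂ) * z, ⟨?_, ?_⟩, ?_⟩
          · rw [mem_closedBall_zero_iff, norm_mul, Complex.norm_real,
              Real.norm_of_nonneg (by positivity), div_mul_cancel₀ _ hzpos.ne']
          · rw [mem_ofPred_eq, norm_mul, Complex.norm_real,
              Real.norm_of_nonneg (by positivity), div_mul_cancel₀ _ hzpos.ne']
            exact hx1
          · have h1 : z - ((x / ‖z‖ : ℝ) : ℂ) * z = ((1 - x / ‖z‖ : ℝ) : ℂ) * z := by
              push_cast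
              ring
            rw [dist_eq_norm, h1, norm_mul, Complex.norm_real, Real.norm_of_nonneg (by
              rw [sub_nonneg, div_le_one hzpos]
              exact h.le)]
            have h2 : (1 - x / ‖z‖) * ‖z‖ = ‖z‖ - x := by
              field_simp
            rw [h2]
            have := hz2.trans (min_le_right _ _)
            linarith
    exact hsub ⟨hb, le_rfl⟩
  have hO' : ∀ z : ℂ, R₁ < ‖z‖ → z ∈ O := fun z hz => hall ‖z‖ hz.le z hz.le le_rfl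
  refine ⟨R₁, i, fun z => chart i (Ψ z), hR₁, fun z hz =>
    (hΨ.diff_chart (hO' z hz).1 (hO' z hz).2.1).differentiableWithinAt, fun z hz => ?_⟩
  have hz' := hO' z hz
  exact ⟨PM.chart_self hz'.2.1, hOn z hz', PM.chart_ne hz'.2.1,
    (PM.Phi_chart (hPMz z hz'.1) hz'.2.1).symm⟩

end Pool.Agent.KS6_12
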