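import Pool.Agent.KS6_12.Hyp.Core

/-! Rational points on a grid in a disc in a hyperbolic variety: the main argument. -/

set_option autoImplicit false

open NumberField Height Metric Set
open Pool.Agent.NH29.GK (Phi Mat PM HolP Phi_inj Phi_diag_ne)

namespace Pool.Agent.KS6_12

variable {K : Type} [Field K] [NumberField K]

/-- Algebraic part: linear relations for each coordinate with the coordinate `i₀` force the
relations to be constant, if the variety is hyperbolic. -/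
theorem alg_part {n : ℕ} {ι : Type} (σ : K →+* ℂ) {F : ι → MvPolynomial (Fin (n + 1)) K}
    {e : ι → ℕ} (hF : ∀ i, (F i).IsHomogeneous (e i)) (hyp : BrodyHyp fun i => (F i).map σ)
    {S : Finset K} {m : ℕ} (hm : 0 < m) (hcard : 3 * m ≤ S.card)
    (hcardF : ∀ i, e i * ((n + 1) * (2 * m)) < S.card) {i₀ : Fin (n + 1)}
    {A B : Fin (n + 1) → Polynomial K} (hA : ∀ j, (A j).degree < ((2 * m : ℕ) : WithBot ℕ))
    (hB : ∀ j, (B j).degree < ((2 * m : ℕ) : WithBot ℕ)) (hAB : ∀ j, A j ≠ 0 ∨ B j ≠ 0)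
    {y : K → Fin (n + 1) → K} (hy0 : ∀ u ∈ S, y u i₀ ≠ 0)
    (hyF : ∀ u ∈ S, ∀ i, MvPolynomial.eval (y u) (F i) = 0)
    (hrel : ∀ u ∈ S, ∀ j, (A j).eval u * y u i₀ + (B j).eval u * y u j = 0) :
    ∀ j, B j ≠ 0 ∧ ∃ γ : ℂ, (A j).map σ = - (Polynomial.C γ * (B j).map σ) := by
  classical
  have hB0 : ∀ j, B j ≠ 0 := by
    intro j h0
    have h1 : A j = 0 := by
      refine poly_eq_zero (hA j) (S := S) (by omega) fun u hu => ?_
      have := hrel u hu j
      rw [h0, Polynomial.eval_zero, zero_mul, add_zero] at this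
      exact (mul_eq_zero.1 this).resolve_right (hy0 u hu)
    rcases hAB j with h | h
    · exact h h1
    · exact h h0
  set φ : Fin (n + 1) → Polynomial K := fun j => -(A j) * ∏ k ∈ Finset.univ.erase j, B k with hφ
  have hprod : ∀ j, B j * ∏ k ∈ Finset.univ.erase j, B k = ∏ k, B k := fun j =>
    Finset.mul_prod_erase _ _ (Finset.mem_univ j)
  have hprod0 : ∀ j, ∏ k ∈ Finset.univ.erase j, B k ≠ 0 := fun j =>
    Finset.prod_ne_zero_iff.2 fun k _ => hB0 k
  have hi₀ : A i₀ + B i₀ = 0 := by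
    refine poly_eq_zero (d := 2 * m) ?_ (S := S) (by omega) fun u hu => ?_
    · exact (Polynomial.degree_add_le _ _).trans_lt (max_lt (hA i₀) (hB i₀))
    · have := hrel u hu i₀
      rw [← add_mul] at this
      rw [Polynomial.eval_add]
      exact (mul_eq_zero.1 this).resolve_right (hy0 u hu)
  have hφi₀ : φ i₀ = ∏ k, B k := by
    rw [hφ]
    simp only
    rw [← hprod i₀]
    have : -(A i₀) = B i₀ := by linear_combination -hi₀
    rw [this]
  have hφne : φ ≠ 0 := by
    intro h0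
    have := congrFun h0 i₀
    rw [hφi₀] at this
    exact (Finset.prod_ne_zero_iff.2 fun k _ => hB0 k) this
  have hdeg : ∀ j, (φ j).natDegree ≤ (n + 1) * (2 * m) := by
    intro j
    have h1 : ∀ P : Polynomial K, P.degree < ((2 * m : ℕ) : WithBot ℕ) → P.natDegree ≤ 2 * m := by
      intro P hP
      exact Polynomial.natDegree_le_of_degree_le hP.le
    rw [hφ]
    simp only
    refine (Polynomial.natDegree_mul_le).trans ?_
    rw [Polynomial.natDegree_neg]
    have h2 : (∏ k ∈ Finset.univ.erase j, B k).natDegree ≤ n * (2 * m) := by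
      refine (Polynomial.natDegree_prod_le _ _).trans ?_
      refine (Finset.sum_le_card_nsmul _ _ (2 * m) fun k _ => h1 _ (hB k)).trans ?_
      rw [Finset.card_erase_of_mem (Finset.mem_univ j), Finset.card_univ, Fintype.card_fin,
        Nat.add_sub_cancel, smul_eq_mul]
    have h3 := h1 _ (hA j)
    calc (A j).natDegree + (∏ k ∈ Finset.univ.erase j, B k).natDegree ≤ 2 * m + n * (2 * m) :=
          add_le_add h3 h2
      _ = (n + 1) * (2 * m) := by ring
  have hzero : ∀ i, MvPolynomial.aeval φ (F i) = 0 := by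
    intro i
    refine Polynomial.eq_zero_of_natDegree_lt_card_of_eval_eq_zero' _ S (fun u hu => ?_)
      ((natDegree_aeval_le (hF i) hdeg).trans_lt (hcardF i))
    rw [eval_aeval_poly]
    have h1 : (fun j => y u i₀ * (φ j).eval u) = fun j => (∏ k, B k).eval u * y u j := by
      funext j
      have h2 := hrel u hu j
      rw [hφ]
      simp only [Polynomial.eval_mul, Polynomial.eval_neg]
      rw [← hprod j, Polynomial.eval_mul]
      linear_combination (-(∏ k ∈ Finset.univ.erase j, B k).eval u) * h2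
    have h2 := eval_smul_form' (hF i) (y u i₀) (fun j => (φ j).eval u)
    rw [h1, eval_smul_form' (hF i), hyF u hu i, mul_zero] at h2
    exact (mul_eq_zero.1 h2.symm).resolve_left (pow_ne_zero _ (hy0 u hu))
  have hσinj : Function.Injective σ := σ.injective
  have hmapne : ∀ P : Polynomial K, P ≠ 0 → P.map σ ≠ 0 := fun P hP h0 =>
    hP ((Polynomial.map_eq_zero σ).1 h0)
  obtain ⟨c, hc, hcφ⟩ := poly_curve_const (F := fun i => (F i).map σ) (e := e)
    (fun i => (hF i).map σ) hyp (φ := fun j => (φ j).map σ) (by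
      intro h0
      have := congrFun h0 i₀
      refine hmapne (φ i₀) ?_ this
      rw [hφi₀]
      exact Finset.prod_ne_zero_iff.2 fun k _ => hB0 k) (fun i => by
      rw [map_aeval_poly, hzero i, Polynomial.map_zero])
  have hci₀ : c i₀ ≠ 0 := by
    intro h0
    obtain ⟨k, hk⟩ := Function.ne_iff.1 hc
    have h1 := hcφ i₀ k
    rw [h0, Polynomial.C_0, zero_mul, mul_eq_zero] at h1
    rcases h1 with h1 | h1
    · exact hk (Polynomial.C_eq_zero.1 h1)
    · refine hmapne (φ i₀) ?_ h1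
      rw [hφi₀]
      exact Finset.prod_ne_zero_iff.2 fun k _ => hB0 k
  intro j
  refine ⟨hB0 j, c j / c i₀, ?_⟩
  have h1 := hcφ j i₀
  have h2 : (φ i₀).map σ = (B j).map σ * (∏ k ∈ Finset.univ.erase j, B k).map σ := by
    rw [hφi₀, ← hprod j, Polynomial.map_mul]
  have h3 : (φ j).map σ = -(A j).map σ * (∏ k ∈ Finset.univ.erase j, B k).map σ := by
    rw [hφ]
    simp only [Polynomial.map_mul, Polynomial.map_neg]
  have h4 : (∏ k ∈ Finset.univ.erase j, B k).map σ ≠ 0 := hmapne _ (hprod0 j)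
  have h5 : Polynomial.C (c i₀) * Polynomial.C (c j / c i₀) = Polynomial.C (c j) := by
    rw [← Polynomial.C_mul, mul_div_cancel₀ _ hci₀]
  have h6 : Polynomial.C (c i₀) ≠ 0 := fun h => hci₀ (Polynomial.C_eq_zero.1 h)
  apply mul_left_cancel₀ h6
  apply mul_right_cancel₀ h4
  rw [h2, h3, ← h5] at h1
  linear_combination -h1

/-- The core of the repulsion theorem. -/
theorem core {n : ℕ} {ι : Type} (σ : K →+* ℂ) {F : ι → MvPolynomial (Fin (n + 1)) K}
    {e : ι → ℕ} (hF : ∀ i, (F i).IsHomogeneous (e i)) (hyp : BrodyHyp fun i => (F i).map σ) :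
    ∃ C₃ ρ : ℝ, 1 ≤ C₃ ∧ 0 < ρ ∧ ρ ≤ 1 / 4 ∧ ∀ f : ℂ → PP ℂ n, IsHol (ball 0 1) f →
      (∀ z ∈ ball (0 : ℂ) 1, f z ∈ Zer fun i => (F i).map σ) → ∀ z₀ ∈ ball (0 : ℂ) (1 / 2),
      ∀ b : ℂ, b ≠ 0 → ‖b‖ ≤ 1 → ∀ W Y : ℝ, 1 ≤ W → 1 ≤ Y → ‖b‖ * W ≤ ρ / 8 →
      ∀ m : ℕ, 0 < m → (C₃ * (m * Y) ^ 4) ^ Module.finrank ℚ K *
        (W ^ (8 * Module.finrank ℚ K + 3) * (16 / ρ) ^ 3 * ‖b‖) ^ m < 1 →
      ∀ S : Finset K, (∀ u ∈ S, mulHeight₁ u ^ 2 ≤ W ∧ ∃ x : PP K n,
        x.mulHeight ^ (n + 2) ≤ Y ∧ f (z₀ + b * σ u) = toC σ x) →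
      3 * m ≤ S.card → (∀ i, e i * ((n + 1) * (2 * m)) < S.card) →
      ∀ u ∈ S, ∀ v ∈ S, f (z₀ + b * σ u) = f (z₀ + b * σ v) := by
  classical
  obtain ⟨ρ, hρ, hρ4, hchart⟩ := exists_chart (SS_compact (fun i => (hF i).map σ)) (SS_sub _)
    (hyp_const (fun i => (hF i).map σ) hyp)
  set M₀ : ℝ := 2 * (n + 1) with hM₀
  have hM₀1 : 1 ≤ M₀ := by
    rw [hM₀]
    have : (0 : ℝ) ≤ n := by positivity
    linarith
  obtain ⟨C₂, hC₂, hpade⟩ := pade σ M₀ (by linarith)
  refine ⟨max C₂ (2 * (1 + M₀)), ρ, le_max_of_le_left hC₂, hρ, hρ4, ?_⟩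
  intro f hf hfX z₀ hz₀ b hb hb1 W Y hW hY hbW m hm hsmall S hS hcard hcardF
  obtain ⟨i₀, g, hg, hgz⟩ := hchart (toMat f) (toMat_holP hf)
    (fun z hz => toMat_mem (hfX z hz)) z₀ hz₀
  have hbpos : 0 < ‖b‖ := norm_pos_iff.2 hb
  choose! hSW x hxY hfx using hS
  have hmem : ∀ u ∈ S, z₀ + b * σ u ∈ ball z₀ ρ := by
    intro u hu
    rw [mem_ball_iff_norm, add_sub_cancel_left, norm_mul]
    have h1 : ‖σ u‖ ≤ W := by
      refine (norm_embedding_le_house u σ).trans ((house_le_mulHeight₁ u).trans ?_)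
      refine le_trans ?_ (hSW u hu)
      exact le_self_pow₀ (one_le_mulHeight₁ u) (by norm_num)
    have h2 : ‖b‖ * ‖σ u‖ ≤ ‖b‖ * W := mul_le_mul_of_nonneg_left h1 (norm_nonneg _)
    linarith
  have hcoord : ∀ u ∈ S, (x u).rep i₀ ≠ 0 ∧
      ∀ j, σ ((x u).rep j) = g (z₀ + b * σ u) j * σ ((x u).rep i₀) := by
    intro u hu
    obtain ⟨h1, h2, h3, h4⟩ := hgz _ (hmem u hu)
    refine coords h3 h1 ?_
    rw [← h4]
    unfold toMat
    rw [hfx u hu]
  have hrep : ∀ u ∈ S, ∃ y : Fin (n + 1) → 𝓞 K, y i₀ ≠ 0 ∧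
      (∀ j, (y j : K) * (x u).rep i₀ = (y i₀ : K) * (x u).rep j) ∧
      ∀ j, house (y j : K) ≤ Y := by
    intro u hu
    obtain ⟨y, hy1, hy2, hy3⟩ := exists_rep (hcoord u hu).1
    refine ⟨y, hy1, hy2, fun j => (hy3 j).trans ?_⟩
    have h1 : Height.mulHeight (x u).rep = (x u).mulHeight := by
      conv_rhs => rw [← (x u).mk_rep, Projectivization.mulHeight_mk]
    rw [h1]
    exact hxY u hu
  choose! y hy0 hyx hyY using hrep
  have hden : ∀ u : K, ∃ (c : ℕ) (a : 𝓞 K), c ≠ 0 ∧ (c : ℝ) ≤ mulHeight₁ u ∧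
    (a : K) = c * u ∧ house (a : K) ≤ mulHeight₁ u ^ 2 := fun u => exists_den u
  choose c a hc0 hcle hac haW using hden
  have hDat : ∀ j, ∀ u ∈ S, Dat σ z₀ b (fun z => g z j) W Y u (c u) (a u) (y u i₀) (y u j) := by
    intro j u hu
    have h1 : mulHeight₁ u ≤ mulHeight₁ u ^ 2 :=
      le_self_pow₀ (one_le_mulHeight₁ u) (by norm_num)
    refine ⟨hc0 u, (hcle u).trans (h1.trans (hSW u hu)), hac u, (haW u).trans (hSW u hu),
      (house_le_mulHeight₁ u).trans (h1.trans (hSW u hu)), hy0 u hu, hyY u hu i₀, hyY u hu j, ?_⟩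
    have h2 := congrArg σ (hyx u hu j)
    rw [map_mul, map_mul, (hcoord u hu).2 j] at h2
    have h3 : σ ((x u).rep i₀) ≠ 0 := by
      rw [Ne, map_eq_zero]
      exact (hcoord u hu).1
    apply mul_right_cancel₀ h3
    rw [h2]
    ring
  have hgM : ∀ j, ∀ z ∈ ball z₀ ρ, ‖g z j‖ ≤ M₀ := by
    intro j z hz
    have h1 := (hgz z hz).2.1 j
    by_contra hcon
    push Not at hcon
    have h2 : M₀ * 1 ≤ ‖g z j‖ * ‖g z j‖ :=
      mul_le_mul hcon.le (by linarith) zero_le_one (norm_nonneg _)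
    have h3 : M₀ * 1 < ‖g z j‖ * ‖g z j‖ := by nlinarith
    rw [hM₀] at h3
    nlinarith
  have hgd : ∀ j, DifferentiableOn ℂ (fun z => g z j) (ball z₀ ρ) := fun j =>
    differentiableOn_pi.1 hg j
  have hδ : 0 < Module.finrank ℚ K := Module.finrank_pos
  have hW' : 1 ≤ W ^ (8 * Module.finrank ℚ K + 3) := one_le_pow₀ hW
  have hmY : 1 ≤ (m : ℝ) * Y := by
    have : (1 : ℝ) ≤ m := by exact_mod_cast hm
    nlinarith
  have hsmall2 : (C₂ * (m * Y) ^ 4) ^ Module.finrank ℚ K *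
      (W ^ (8 * Module.finrank ℚ K + 3) * (16 / ρ) ^ 3 * ‖b‖) ^ m < 1 := by
    refine lt_of_le_of_lt (mul_le_mul_of_nonneg_right ?_ (by positivity)) hsmall
    refine pow_le_pow_left₀ (by positivity) ?_ _
    exact mul_le_mul_of_nonneg_right (le_max_left _ _) (by positivity)
  have hsmall3 : (2 * (1 + M₀) * Y ^ 2) ^ Module.finrank ℚ K *
      (16 / ρ * (‖b‖ * W)) ^ m < 1 := by
    refine lt_of_le_of_lt (mul_le_mul ?_ ?_ (by positivity) (by positivity)) hsmall
    · refine pow_le_pow_left₀ (by positivity) ?_ _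
      refine mul_le_mul (le_max_right _ _) ?_ (by positivity) (by positivity)
      have h1 : (m * Y) ^ 4 = (m : ℝ) ^ 4 * Y ^ 4 := by ring
      rw [h1]
      have h2 : (1 : ℝ) ≤ (m : ℝ) ^ 4 := one_le_pow₀ (by exact_mod_cast hm)
      have h3 : Y ^ 2 ≤ Y ^ 4 := pow_le_pow_right₀ hY (by norm_num)
      nlinarith [pow_nonneg (zero_le_one.trans hY) 4]
    · refine pow_le_pow_left₀ (by positivity) ?_ _
      have h1 : (1 : ℝ) ≤ 16 / ρ := by
        rw [le_div_iff₀ hρ]
        linarith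
      have h2 : 16 / ρ ≤ (16 / ρ) ^ 3 := le_self_pow₀ h1 (by norm_num)
      have h3 : W ≤ W ^ (8 * Module.finrank ℚ K + 3) := le_self_pow₀ hW (by omega)
      calc 16 / ρ * (‖b‖ * W) ≤ (16 / ρ) ^ 3 * (‖b‖ * W ^ (8 * Module.finrank ℚ K + 3)) :=
            mul_le_mul h2 (mul_le_mul_of_nonneg_left h3 (norm_nonneg _)) (by positivity)
              (by positivity)
        _ = _ := by ring
  have hξ : ∀ j, ∃ ξ : Bool × Fin (2 * m) → 𝓞 K, ξ ≠ 0 ∧ ∀ u ∈ S,
      (mkPoly fun l => (ξ (false, l) : K)).eval u * y u i₀ +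
        (mkPoly fun l => (ξ (true, l) : K)).eval u * y u j = 0 := fun j =>
    hpade ρ hρ (by linarith) z₀ b hb hb1 (fun z => g z j) (hgd j) (hgM j) W Y hW hY hbW m hm
      hsmall2 S c a (fun u => y u i₀) (fun u => y u j) (hDat j) hcard
  choose ξ hξ0 hξr using hξ
  have hyF : ∀ u ∈ S, ∀ i, MvPolynomial.eval (fun j => (y u j : K)) (F i) = 0 := by
    intro u hu i
    have hzb : z₀ + b * σ u ∈ ball (0 : ℂ) 1 := by
      have h1 := hmem u hu
      rw [mem_ball_iff_norm] at h1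
      rw [mem_ball_zero_iff] at hz₀ ⊢
      have h2 : z₀ + b * σ u = (z₀ + b * σ u - z₀) + z₀ := by ring
      rw [h2]
      refine (norm_add_le _ _).trans_lt ?_
      linarith
    have h1 : toC σ (x u) ∈ Zer fun i => (F i).map σ := by
      rw [← hfx u hu]
      exact hfX _ hzb
    have h2 := toC_mem hF h1 i
    have h3 : (fun j => (x u).rep i₀ * (y u j : K)) = fun j => (y u i₀ : K) * (x u).rep j := by
      funext j
      rw [← hyx u hu j]
      ring
    have h4 := eval_smul_form' (hF i) ((x u).rep i₀) (fun j => (y u j : K))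
    rw [h3, eval_smul_form' (hF i), h2, mul_zero] at h4
    exact (mul_eq_zero.1 h4.symm).resolve_left (pow_ne_zero _ (hcoord u hu).1)
  have halg := alg_part σ hF hyp hm hcard hcardF (i₀ := i₀)
    (A := fun j => mkPoly fun l => (ξ j (false, l) : K))
    (B := fun j => mkPoly fun l => (ξ j (true, l) : K))
    (fun j => mkPoly_degree_lt _) (fun j => mkPoly_degree_lt _) (fun j => by
      obtain ⟨l, hl⟩ := Function.ne_iff.1 (hξ0 j)
      rcases l with ⟨s, l⟩
      have hl' : (ξ j (s, l) : K) ≠ 0 := fun h => hl (RingOfIntegers.coe_eq_zero_iff.1 h)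
      cases s
      · left
        exact mkPoly_ne fun h => hl' (congrFun h l)
      · right
        exact mkPoly_ne fun h => hl' (congrFun h l))
    (y := fun u j => (y u j : K))
    (fun u hu h => hy0 u hu (RingOfIntegers.coe_eq_zero_iff.1 h)) hyF
    (fun u hu j => hξr j u hu)
  have hconst : ∀ j, ∃ γ : ℂ, ∀ u ∈ S, g (z₀ + b * σ u) j = γ := by
    intro j
    obtain ⟨hB0, γ, hγ⟩ := halg j
    set B : Polynomial K := mkPoly fun l => (ξ j (true, l) : K) with hB
    set T : Finset K := S.filter fun u => B.eval u ≠ 0 with hT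
    have hTc : m ≤ T.card := by
      have h1 : (S.filter fun u => B.eval u = 0).card ≤ 2 * m := by
        by_contra hcon
        push Not at hcon
        apply hB0
        refine poly_eq_zero (mkPoly_degree_lt _) (S := S.filter fun u => B.eval u = 0) hcon.le ?_
        intro u hu
        exact (Finset.mem_filter.1 hu).2
      have h2 : (S.filter fun u => B.eval u = 0).card + T.card = S.card := by
        rw [hT]
        exact Finset.card_filter_add_card_filter_not _
      omega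
    refine ⟨γ, const_coord σ (by linarith) hρ hb (hgd j) (hgM j) hW hY hbW hm hsmall3 (hDat j)
      (T := T) (Finset.filter_subset _ _) hTc ?_⟩
    intro u hu
    obtain ⟨huS, huB⟩ := Finset.mem_filter.1 hu
    have h1 := congrArg σ (hξr j u huS)
    rw [map_add, map_mul, map_mul, map_zero, (hDat j u huS).xy] at h1
    have h2 : σ ((mkPoly fun l => (ξ j (false, l) : K)).eval u) = -(γ * σ (B.eval u)) := by
      have h3 := congrArg (Polynomial.eval (σ u)) hγ
      rw [Polynomial.eval_neg, Polynomial.eval_mul, Polynomial.eval_C, Polynomial.eval_map_apply,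
        Polynomial.eval_map_apply] at h3
      exact h3
    rw [h2] at h1
    have h3 : σ (B.eval u) ≠ 0 := by
      rw [Ne, map_eq_zero]
      exact huB
    have h4 : σ (y u i₀ : K) ≠ 0 := by
      rw [Ne, map_eq_zero]
      exact fun h => hy0 u huS (RingOfIntegers.coe_eq_zero_iff.1 h)
    have h5 : σ (B.eval u) * σ (y u i₀ : K) * (g (z₀ + b * σ u) j - γ) = 0 := by
      linear_combination h1
    exact sub_eq_zero.1 ((mul_eq_zero.1 h5).resolve_left (mul_ne_zero h3 h4))
  choose γ hγ using hconst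
  have hPhi : ∀ u ∈ S, Phi (f (z₀ + b * σ u)).rep = Phi γ := by
    intro u hu
    have h1 := (hgz _ (hmem u hu)).2.2.2
    unfold toMat at h1
    rw [h1]
    congr 1
    funext j
    exact hγ j u hu
  intro u hu v hv
  rw [← (f (z₀ + b * σ u)).mk_rep, ← (f (z₀ + b * σ v)).mk_rep]
  apply mk_eq_of_Phi
  rw [hPhi u hu, hPhi v hv]

end Pool.Agent.KS6_12
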