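import Pool.Agent.KS6_12.Hyp.Main

/-! The main argument for integral representatives of the points and of the parameters. -/

set_option autoImplicit false

open NumberField Height Metric Set
open Pool.Agent.NH29.GK (Phi Mat PM HolP Phi_inj Phi_diag_ne)

namespace Pool.Agent.KS6_12

variable {K : Type} [Field K] [NumberField K]

/-- the coordinates of an integral representative on a chart of a disc -/
lemma coords_int {n : ℕ} {σ : K →+* ℂ} {y : Fin (n + 1) → 𝓞 K} (hy : y ≠ 0)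
    {v : Fin (n + 1) → ℂ} {i : Fin (n + 1)}
    (hv : v ≠ 0) (hvi : v i = 1) (h : Phi (fun j => σ (y j : K)) = Phi v) :
    y i ≠ 0 ∧ ∀ j, σ (y j : K) = v j * σ (y i : K) := by
  have hne : (fun j => σ (y j : K)) ≠ 0 := by
    intro h0
    apply hy
    funext j
    have := congrFun h0 j
    simpa using this
  obtain ⟨c, hc, h1⟩ := Phi_inj hv hne h.symm
  have h2 : σ (y i : K) = c := by
    have := congrFun h1 i
    rw [Pi.smul_apply, hvi, smul_eq_mul, mul_one] at this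
    exact this
  refine ⟨?_, fun j => ?_⟩
  · intro h0
    rw [h0] at h2
    simp only [map_zero] at h2
    exact hc h2.symm
  · have := congrFun h1 j
    rw [Pi.smul_apply, smul_eq_mul] at this
    rw [h2, mul_comm]
    exact this

/-- The core of the repulsion theorem. -/
theorem core2 {n : ℕ} {ι : Type} (σ : K →+* ℂ) {F : ι → MvPolynomial (Fin (n + 1)) K}
    {e : ι → ℕ} (hF : ∀ i, (F i).IsHomogeneous (e i)) (hyp : BrodyHyp fun i => (F i).map σ) :
    ∃ C₃ ρ : ℝ, 1 ≤ C₃ ∧ 0 < ρ ∧ ρ ≤ 1 / 4 ∧ ∀ f : ℂ → PP ℂ n, IsHol (ball 0 1) f →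
      (∀ z ∈ ball (0 : ℂ) 1, f z ∈ Zer fun i => (F i).map σ) → ∀ z₀ ∈ ball (0 : ℂ) (1 / 2),
      ∀ b : ℂ, b ≠ 0 → ‖b‖ ≤ 1 → ∀ W Y : ℝ, 1 ≤ W → 1 ≤ Y → ‖b‖ * W ≤ ρ / 8 →
      ∀ m : ℕ, 0 < m → (C₃ * (m * Y) ^ 4) ^ Module.finrank ℚ K *
        (W ^ (8 * Module.finrank ℚ K + 3) * (16 / ρ) ^ 3 * ‖b‖) ^ m < 1 →
      ∀ S : Finset K, (∀ u ∈ S, (∃ (c : ℕ) (a : 𝓞 K), c ≠ 0 ∧ (c : ℝ) ≤ W ∧ (a : K) = c * u ∧
        house (a : K) ≤ W ∧ house u ≤ W) ∧ ∃ y : Fin (n + 1) → 𝓞 K, y ≠ 0 ∧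
        (∀ j, house (y j : K) ≤ Y) ∧ toMat f (z₀ + b * σ u) = Phi (fun j => σ (y j : K))) →
      3 * m ≤ S.card → (∀ i, e i * ((n + 1) * (2 * m)) < S.card) →
      ∀ u ∈ S, ∀ v ∈ S, f (z₀ + b * σ u) = f (z₀ + b * σ v) := by
  classical
  obtain ⟨ρ, hρ, hρ4, hchart⟩ := exists_chart (SS_compact (fun i => (hF i).map σ)) (SS_sub _)
    (hyp_const (fun i => (hF i).map σ) hyp)
  set M₀ : ℝ := 2 * (n + 1) with hM₀
  have hM₀1 : 1 ≤ M₀ := by
    rw [hM₀]
    have : (0 : ℝ) ≤ n := by positivity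
    linarith
  obtain ⟨C₂, hC₂, hpade⟩ := pade σ M₀ (by linarith)
  refine ⟨max C₂ (2 * (1 + M₀)), ρ, le_max_of_le_left hC₂, hρ, hρ4, ?_⟩
  intro f hf hfX z₀ hz₀ b hb hb1 W Y hW hY hbW m hm hsmall S hS hcard hcardF
  obtain ⟨i₀, g, hg, hgz⟩ := hchart (toMat f) (toMat_holP hf)
    (fun z hz => toMat_mem (hfX z hz)) z₀ hz₀
  have hbpos : 0 < ‖b‖ := norm_pos_iff.2 hb
  choose! hSW y hyne hyY hfy using hS
  choose! c a hc0 hcle hac haW huW using hSW
  have hmem : ∀ u ∈ S, z₀ + b * σ u ∈ ball z₀ ρ := by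
    intro u hu
    rw [mem_ball_iff_norm, add_sub_cancel_left, norm_mul]
    have h1 : ‖σ u‖ ≤ W := (norm_embedding_le_house u σ).trans (huW u hu)
    have h2 : ‖b‖ * ‖σ u‖ ≤ ‖b‖ * W := mul_le_mul_of_nonneg_left h1 (norm_nonneg _)
    linarith
  have hcoord : ∀ u ∈ S, y u i₀ ≠ 0 ∧
      ∀ j, σ (y u j : K) = g (z₀ + b * σ u) j * σ (y u i₀ : K) := by
    intro u hu
    obtain ⟨h1, h2, h3, h4⟩ := hgz _ (hmem u hu)
    refine coords_int (hyne u hu) h3 h1 ?_
    rw [← h4, hfy u hu]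
  have hy0 : ∀ u ∈ S, y u i₀ ≠ 0 := fun u hu => (hcoord u hu).1
  have hDat : ∀ j, ∀ u ∈ S, Dat σ z₀ b (fun z => g z j) W Y u (c u) (a u) (y u i₀) (y u j) := by
    intro j u hu
    exact ⟨hc0 u hu, hcle u hu, hac u hu, haW u hu, huW u hu, hy0 u hu, hyY u hu i₀,
      hyY u hu j, (hcoord u hu).2 j⟩
  have hgM : ∀ j, ∀ z ∈ ball z₀ ρ, ‖g z j‖ ≤ M₀ := by
    intro j z hz
    have h1 := (hgz z hz).2.1 j
    by_contra hcon
    push Not at hcon
    have h2 : M₀ * 1 ≤ ‖g z j‖ * ‖g z j‖ :=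
      mul_le_mul hcon.le (by linarith) zero_le_one (norm_nonneg _)
    have h3 : M₀ * 1 < ‖g z j‖ * ‖g z j‖ := by nlinarith
    rw [hM₀] at h3
    nlinarith
  have hgd : ∀ j, DifferentiableOn ℂ (fun z => g z j) (ball z₀ ρ) := fun j =>
    differentiableOn_pi.1 hg j
  have hδ : 0 < Module.finrank ℚ K := Module.finrank_pos
  have hW' : 1 ≤ W ^ (8 * Module.finrank ℚ K + 3) := one_le_pow₀ hW
  have hmY : 1 ≤ (m : ℝ) * Y := by
    have : (1 : ℝ) ≤ m := by exact_mod_cast hm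
    nlinarith
  have hsmall2 : (C₂ * (m * Y) ^ 4) ^ Module.finrank ℚ K *
      (W ^ (8 * Module.finrank ℚ K + 3) * (16 / ρ) ^ 3 * ‖b‖) ^ m < 1 := by
    refine lt_of_le_of_lt (mul_le_mul_of_nonneg_right ?_ (by positivity)) hsmall
    refine pow_le_pow_left₀ (by positivity) ?_ _
    exact mul_le_mul_of_nonneg_right (le_max_left _ _) (by positivity)
  have hsmall3 : (2 * (1 + M₀) * Y ^ 2) ^ Module.finrank ℚ K *
      (16 / ρ * (‖b‖ * W)) ^ m < 1 := by
    refine lt_of_le_of_lt (mul_le_mul ?_ ?_ (by positivity) (by positivity)) hsmall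
    · refine pow_le_pow_left₀ (by positivity) ?_ _
      refine mul_le_mul (le_max_right _ _) ?_ (by positivity) (by positivity)
      have h1 : (m * Y) ^ 4 = (m : ℝ) ^ 4 * Y ^ 4 := by ring
      rw [h1]
      have h2 : (1 : ℝ) ≤ (m : ℝ) ^ 4 := one_le_pow₀ (by exact_mod_cast hm)
      have h3 : Y ^ 2 ≤ Y ^ 4 := pow_le_pow_right₀ hY (by norm_num)
      nlinarith [pow_nonneg (zero_le_one.trans hY) 4]
    · refine pow_le_pow_left₀ (by positivity) ?_ _
      have h1 : (1 : ℝ) ≤ 16 / ρ := by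
        rw [le_div_iff₀ hρ]
        linarith
      have h2 : 16 / ρ ≤ (16 / ρ) ^ 3 := le_self_pow₀ h1 (by norm_num)
      have h3 : W ≤ W ^ (8 * Module.finrank ℚ K + 3) := le_self_pow₀ hW (by omega)
      calc 16 / ρ * (‖b‖ * W) ≤ (16 / ρ) ^ 3 * (‖b‖ * W ^ (8 * Module.finrank ℚ K + 3)) :=
            mul_le_mul h2 (mul_le_mul_of_nonneg_left h3 (norm_nonneg _)) (by positivity)
              (by positivity)
        _ = _ := by ring
  have hξ : ∀ j, ∃ ξ : Bool × Fin (2 * m) → 𝓞 K, ξ ≠ 0 ∧ ∀ u ∈ S,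
      (mkPoly fun l => (ξ (false, l) : K)).eval u * y u i₀ +
        (mkPoly fun l => (ξ (true, l) : K)).eval u * y u j = 0 := fun j =>
    hpade ρ hρ (by linarith) z₀ b hb hb1 (fun z => g z j) (hgd j) (hgM j) W Y hW hY hbW m hm
      hsmall2 S c a (fun u => y u i₀) (fun u => y u j) (hDat j) hcard
  choose ξ hξ0 hξr using hξ
  have hyF : ∀ u ∈ S, ∀ i, MvPolynomial.eval (fun j => (y u j : K)) (F i) = 0 := by
    intro u hu i
    have hzb : z₀ + b * σ u ∈ ball (0 : ℂ) 1 := by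
      have h1 := hmem u hu
      rw [mem_ball_iff_norm] at h1
      rw [mem_ball_zero_iff] at hz₀ ⊢
      have h2 : z₀ + b * σ u = (z₀ + b * σ u - z₀) + z₀ := by ring
      rw [h2]
      refine (norm_add_le _ _).trans_lt ?_
      linarith
    have h1 := hfX _ hzb i
    have h2 : f (z₀ + b * σ u) = Projectivization.mk ℂ (fun j => σ (y u j : K)) (by
        intro h0
        apply hyne u hu
        funext j
        have := congrFun h0 j
        simpa using this) := by
      rw [← (f (z₀ + b * σ u)).mk_rep]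
      exact mk_eq_of_Phi _ _ (hfy u hu)
    rw [h2, eval_rep ((hF i).map σ)] at h1
    have h3 : MvPolynomial.eval (fun j => σ (y u j : K)) ((F i).map σ) =
        σ (MvPolynomial.eval (fun j => (y u j : K)) (F i)) := by
      rw [MvPolynomial.eval_map, MvPolynomial.eval₂_comp]
      rfl
    rw [h3, map_eq_zero] at h1
    exact h1
  have halg := alg_part σ hF hyp hm hcard hcardF (i₀ := i₀)
    (A := fun j => mkPoly fun l => (ξ j (false, l) : K))
    (B := fun j => mkPoly fun l => (ξ j (true, l) : K))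
    (fun j => mkPoly_degree_lt _) (fun j => mkPoly_degree_lt _) (fun j => by
      obtain ⟨l, hl⟩ := Function.ne_iff.1 (hξ0 j)
      rcases l with ⟨s, l⟩
      have hl' : (ξ j (s, l) : K) ≠ 0 := fun h => hl (RingOfIntegers.coe_eq_zero_iff.1 h)
      cases s
      · left
        exact mkPoly_ne fun h => hl' (congrFun h l)
      · right
        exact mkPoly_ne fun h => hl' (congrFun h l))
    (y := fun u j => (y u j : K))
    (fun u hu h => hy0 u hu (RingOfIntegers.coe_eq_zero_iff.1 h)) hyF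
    (fun u hu j => hξr j u hu)
  have hconst : ∀ j, ∃ γ : ℂ, ∀ u ∈ S, g (z₀ + b * σ u) j = γ := by
    intro j
    obtain ⟨hB0, γ, hγ⟩ := halg j
    set B : Polynomial K := mkPoly fun l => (ξ j (true, l) : K) with hB
    set T : Finset K := S.filter fun u => B.eval u ≠ 0 with hT
    have hTc : m ≤ T.card := by
      have h1 : (S.filter fun u => B.eval u = 0).card ≤ 2 * m := by
        by_contra hcon
        push Not at hcon
        apply hB0
        refine poly_eq_zero (mkPoly_degree_lt _) (S := S.filter fun u => B.eval u = 0) hcon.le ?_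
        intro u hu
        exact (Finset.mem_filter.1 hu).2
      have h2 : (S.filter fun u => B.eval u = 0).card + T.card = S.card := by
        rw [hT]
        exact Finset.card_filter_add_card_filter_not _
      omega
    refine ⟨γ, const_coord σ (by linarith) hρ hb (hgd j) (hgM j) hW hY hbW hm hsmall3 (hDat j)
      (T := T) (Finset.filter_subset _ _) hTc ?_⟩
    intro u hu
    obtain ⟨huS, huB⟩ := Finset.mem_filter.1 hu
    have h1 := congrArg σ (hξr j u huS)
    rw [map_add, map_mul, map_mul, map_zero, (hDat j u huS).xy] at h1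
    have h2 : σ ((mkPoly fun l => (ξ j (false, l) : K)).eval u) = -(γ * σ (B.eval u)) := by
      have h3 := congrArg (Polynomial.eval (σ u)) hγ
      rw [Polynomial.eval_neg, Polynomial.eval_mul, Polynomial.eval_C, Polynomial.eval_map_apply,
        Polynomial.eval_map_apply] at h3
      exact h3
    rw [h2] at h1
    have h3 : σ (B.eval u) ≠ 0 := by
      rw [Ne, map_eq_zero]
      exact huB
    have h4 : σ (y u i₀ : K) ≠ 0 := by
      rw [Ne, map_eq_zero]
      exact fun h => hy0 u huS (RingOfIntegers.coe_eq_zero_iff.1 h)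
    have h5 : σ (B.eval u) * σ (y u i₀ : K) * (g (z₀ + b * σ u) j - γ) = 0 := by
      linear_combination h1
    exact sub_eq_zero.1 ((mul_eq_zero.1 h5).resolve_left (mul_ne_zero h3 h4))
  choose γ hγ using hconst
  have hPhi : ∀ u ∈ S, Phi (f (z₀ + b * σ u)).rep = Phi γ := by
    intro u hu
    have h1 := (hgz _ (hmem u hu)).2.2.2
    unfold toMat at h1
    rw [h1]
    congr 1
    funext j
    exact hγ j u hu
  intro u hu v hv
  rw [← (f (z₀ + b * σ u)).mk_rep, ← (f (z₀ + b * σ v)).mk_rep]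
  apply mk_eq_of_Phi
  rw [hPhi u hu, hPhi v hv]

end Pool.Agent.KS6_12
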