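import Pool.Agent.KS6_12.Hyp.Schwarz
import Pool.Agent.KS6_12.Hyp.Arith

/-! Algebraic relations between the coordinates of the rational points on a disc in a sector, at
the positive integers. -/

set_option autoImplicit false

open NumberField Height Metric Set

namespace Pool.Agent.KS6_12

/-! ### binomial polynomials -/

/-- the binomial polynomial `z - N` over `l` -/
noncomputable def bin (N l : ℕ) (z : ℂ) : ℂ :=
  (∏ j ∈ Finset.range l, (z - N - j)) / (l.factorial : ℂ)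

lemma bin_nat {N n : ℕ} (h : N ≤ n) (l : ℕ) : bin N l n = ((n - N).choose l : ℂ) := by
  unfold bin
  have h1 : (l.factorial : ℂ) ≠ 0 := by exact_mod_cast l.factorial_ne_zero
  rw [div_eq_iff h1]
  have h2 : ((n : ℂ) - N) = ((n - N : ℕ) : ℂ) := by
    push_cast [Nat.cast_sub h]
    ring
  rw [h2]
  have h3 : ∀ k : ℕ, (∏ j ∈ Finset.range l, ((k : ℂ) - j)) = (k.descFactorial l : ℂ) := by
    intro k
    induction l with
    | zero => simp
    | succ l ih =>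
      rw [Finset.prod_range_succ, ih (by exact_mod_cast l.factorial_ne_zero),
        Nat.descFactorial_succ]
      rcases le_or_gt l k with hk | hk
      · push_cast [Nat.cast_sub hk]
        ring
      · rw [Nat.descFactorial_of_lt hk]
        simp
  rw [h3, Nat.descFactorial_eq_factorial_mul_choose]
  push_cast
  ring

lemma bin_bound {τ : ℝ} (hτ : 0 < τ) {N l : ℕ} {z : ℂ} {A : ℝ} (h : ‖z - N‖ + l ≤ A) :
    ‖bin N l z‖ ≤ Real.exp (τ * A) * (1 / τ) ^ l := by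
  unfold bin
  have hA : 0 ≤ A := le_trans (by positivity) h
  rw [norm_div, Complex.norm_natCast, norm_prod]
  have h1 : ∏ j ∈ Finset.range l, ‖z - N - j‖ ≤ A ^ l := by
    calc ∏ j ∈ Finset.range l, ‖z - N - j‖ ≤ ∏ _j ∈ Finset.range l, A := by
          refine Finset.prod_le_prod (fun _ _ => norm_nonneg _) fun j hj => ?_
          refine (norm_sub_le _ _).trans (le_trans ?_ h)
          rw [Complex.norm_natCast]
          have : (j : ℝ) ≤ l := by exact_mod_cast (Finset.mem_range.1 hj).le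
          linarith
      _ = A ^ l := by simp
  have h2 : (τ * A) ^ l / (l.factorial : ℝ) ≤ Real.exp (τ * A) :=
    Real.pow_div_factorial_le_exp (τ * A) (by positivity) l
  have hf : (0 : ℝ) < l.factorial := by exact_mod_cast l.factorial_pos
  calc (∏ j ∈ Finset.range l, ‖z - N - j‖) / (l.factorial : ℝ) ≤ A ^ l / l.factorial :=
        div_le_div_of_nonneg_right h1 hf.le
    _ = (τ * A) ^ l / l.factorial * (1 / τ) ^ l := by
        rw [mul_pow, div_pow, one_pow]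
        field_simp
    _ ≤ Real.exp (τ * A) * (1 / τ) ^ l := mul_le_mul_of_nonneg_right h2 (by positivity)

lemma bin_diff (N l : ℕ) : Differentiable ℂ (bin N l) := by
  unfold bin
  refine Differentiable.div_const ?_ _
  refine Differentiable.fun_finsetProd fun j _ => ?_
  fun_prop

/-- Siegel's lemma with exponent 1 -/
theorem siegel_one (K : Type) [Field K] [NumberField K] : ∃ C : ℝ, 1 ≤ C ∧
    ∀ (α β : Type) [Fintype α] [Fintype β] [DecidableEq β] (p : ℕ) (a : Matrix α β (𝓞 K)),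
      0 < p → Fintype.card α = p → Fintype.card β = 2 * p →
      ∀ A : ℝ, 1 ≤ A → (∀ k l, house (a k l : K) ≤ A) →
      ∃ ξ : β → 𝓞 K, ξ ≠ 0 ∧ (∀ k, ∑ l, a k l * ξ l = 0) ∧
        ∀ l, house (ξ l : K) ≤ C * (2 * p * A) := by
  classical
  obtain ⟨c, hc⟩ := siegel_aux K
  refine ⟨max 1 (|c| * |c|), le_max_left _ _, ?_⟩
  intro α β _ _ _ p a hp hα hβ A hA habs
  have hp1 : (1 : ℝ) ≤ p := by exact_mod_cast hp
  by_cases ha : a = 0
  · have hne : Nonempty β := by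
      rw [← Fintype.card_pos_iff, hβ]
      omega
    refine ⟨fun _ => 1, ?_, fun k => ?_, fun l => ?_⟩
    · intro h
      exact one_ne_zero (congrFun h hne.some)
    · rw [ha]
      simp
    · have h1 : house (((1 : 𝓞 K)) : K) = 1 := by
        have := house_intCast (K := K) 1
        simpa using this
      rw [h1]
      have h2 : (1 : ℝ) ≤ 2 * p * A := by nlinarith
      nlinarith [le_max_left (1 : ℝ) (|c| * |c|)]
  obtain ⟨ξ, hξ, h0, hξb⟩ := hc α β p (2 * p) a ha hp (by omega) hα hβ A habs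
  refine ⟨ξ, hξ, fun k => congrFun h0 k, fun l => (hξb l).trans ?_⟩
  have h1 : (p : ℝ) / ((2 * p : ℕ) - (p : ℕ) : ℝ) = 1 := by
    have : (p : ℝ) ≠ 0 := by positivity
    push_cast
    field_simp
    ring
  rw [h1, Real.rpow_one]
  push_cast
  calc c * (c * (2 * p) * A) = c * c * (2 * p * A) := by ring
    _ ≤ max 1 (|c| * |c|) * (2 * p * A) := by
        refine mul_le_mul_of_nonneg_right ?_ (by positivity)
        rw [abs_mul_abs_self]
        exact le_max_right _ _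

variable {K : Type} [Field K] [NumberField K]

/-- the value of the relation at `m` -/
noncomputable def RR {d D : ℕ} (N : ℕ) (ξ : Fin (d + 1) × Fin D → 𝓞 K) (x y : 𝓞 K) (m : ℕ) :
    𝓞 K :=
  ∑ l : Fin (d + 1) × Fin D, ((((m - N).choose (l.2 : ℕ) : ℕ) : 𝓞 K) *
    (x ^ (d - (l.1 : ℕ)) * y ^ (l.1 : ℕ))) * ξ l

/-- the auxiliary function -/
noncomputable def GG {d D : ℕ} (σ : K →+* ℂ) (N : ℕ) (ξ : Fin (d + 1) × Fin D → 𝓞 K)
    (g h : ℂ → ℂ) (z : ℂ) : ℂ :=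
  ∑ l : Fin (d + 1) × Fin D, (bin N (l.2 : ℕ) z * (g z ^ (d - (l.1 : ℕ)) * h z ^ (l.1 : ℕ))) *
    σ (ξ l : K)

lemma GG_diff {d D : ℕ} {σ : K →+* ℂ} {N : ℕ} (ξ : Fin (d + 1) × Fin D → 𝓞 K) {g h : ℂ → ℂ}
    {U : Set ℂ} (hg : DifferentiableOn ℂ g U) (hh : DifferentiableOn ℂ h U) :
    DifferentiableOn ℂ (GG σ N ξ g h) U := by
  unfold GG
  refine DifferentiableOn.fun_sum fun l _ => ?_
  exact (((bin_diff N _).differentiableOn).mul ((hg.pow _).mul (hh.pow _))).mul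
    (differentiableOn_const _)

lemma RR_eq {d D : ℕ} {σ : K →+* ℂ} {N : ℕ} (ξ : Fin (d + 1) × Fin D → 𝓞 K) {g h : ℂ → ℂ}
    {x y : 𝓞 K} {m : ℕ} (hm : N ≤ m) {s : ℂ} (hx : σ (x : K) = g m * s)
    (hy : σ (y : K) = h m * s) :
    σ (RR N ξ x y m : K) = s ^ d * GG σ N ξ g h m := by
  unfold RR GG
  simp only [RingOfIntegers.coe_eq_algebraMap] at hx hy ⊢
  simp only [map_sum, map_mul, map_pow, map_natCast]
  rw [Finset.mul_sum]
  refine Finset.sum_congr rfl fun l _ => ?_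
  rw [hx, hy, bin_nat hm]
  have h1 : s ^ d = s ^ (d - (l.1 : ℕ)) * s ^ (l.1 : ℕ) := by
    rw [← pow_add]
    congr 1
    have := l.1.2
    omega
  rw [h1, mul_pow, mul_pow]
  ring

lemma pow_mul_pow_le {x y M : ℝ} (hx0 : 0 ≤ x) (hy0 : 0 ≤ y) (hx : x ≤ M) (hy : y ≤ M) {d : ℕ}
    (l : Fin (d + 1)) : x ^ (d - (l : ℕ)) * y ^ (l : ℕ) ≤ M ^ d := by
  have hM : 0 ≤ M := hx0.trans hx
  have h1 : M ^ d = M ^ (d - (l : ℕ)) * M ^ (l : ℕ) := by
    rw [← pow_add]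
    congr 1
    have := l.2
    omega
  rw [h1]
  exact mul_le_mul (pow_le_pow_left₀ hx0 hx _) (pow_le_pow_left₀ hy0 hy _) (by positivity)
    (by positivity)

lemma GG_bound {d D : ℕ} {σ : K →+* ℂ} {N : ℕ} {ξ : Fin (d + 1) × Fin D → 𝓞 K} {g h : ℂ → ℂ}
    {z : ℂ} {M X τ A : ℝ} (hτ : 0 < τ) (hτ1 : τ ≤ 1) (hξ : ∀ l, house (ξ l : K) ≤ X)
    (hg : ‖g z‖ ≤ M) (hh : ‖h z‖ ≤ M) (hz : ‖z - N‖ + D ≤ A) :
    ‖GG σ N ξ g h z‖ ≤ ((d + 1) * D : ℕ) * (Real.exp (τ * A) * (1 / τ) ^ D * M ^ d * X) := by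
  unfold GG
  refine (norm_sum_le _ _).trans ?_
  have hM : 0 ≤ M := (norm_nonneg _).trans hg
  have h1 : ∀ l ∈ (Finset.univ : Finset (Fin (d + 1) × Fin D)),
      ‖(bin N (l.2 : ℕ) z * (g z ^ (d - (l.1 : ℕ)) * h z ^ (l.1 : ℕ))) * σ (ξ l : K)‖ ≤
      Real.exp (τ * A) * (1 / τ) ^ D * M ^ d * X := by
    intro l _
    rw [norm_mul, norm_mul, norm_mul, norm_pow, norm_pow]
    have hl : ((l.2 : ℕ) : ℝ) ≤ D := by exact_mod_cast l.2.2.le
    have h2 : ‖bin N (l.2 : ℕ) z‖ ≤ Real.exp (τ * A) * (1 / τ) ^ D := by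
      refine (bin_bound hτ (A := A) (by linarith)).trans ?_
      refine mul_le_mul_of_nonneg_left ?_ (Real.exp_pos _).le
      refine pow_le_pow_right₀ ?_ l.2.2.le
      rw [le_div_iff₀ hτ]
      linarith
    have h3 := pow_mul_pow_le (norm_nonneg _) (norm_nonneg _) hg hh l.1
    have h4 : ‖σ (ξ l : K)‖ ≤ X := (norm_embedding_le_house _ σ).trans (hξ l)
    exact mul_le_mul (mul_le_mul h2 h3 (by positivity) (by positivity)) h4 (norm_nonneg _)
      (by positivity)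
  refine (Finset.sum_le_card_nsmul _ _ _ h1).trans ?_
  rw [nsmul_eq_mul, Finset.card_univ, Fintype.card_prod, Fintype.card_fin, Fintype.card_fin]

lemma choose_bound {τ : ℝ} (hτ : 0 < τ) (hτ1 : τ ≤ 1) {k l D : ℕ} (hl : l ≤ D) {A : ℝ}
    (hz : (k : ℝ) + D ≤ A) : ((k.choose l : ℕ) : ℝ) ≤ Real.exp (τ * A) * (1 / τ) ^ D := by
  have h1 := bin_nat (N := 0) (n := k) (Nat.zero_le k) l
  rw [Nat.sub_zero] at h1
  have hl' : (l : ℝ) ≤ D := by exact_mod_cast hl
  have h2 := bin_bound hτ (N := 0) (l := l) (z := k) (A := A) (by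
    rw [Nat.cast_zero, sub_zero, Complex.norm_natCast]
    linarith)
  rw [h1, Complex.norm_natCast] at h2
  refine h2.trans ?_
  refine mul_le_mul_of_nonneg_left ?_ (Real.exp_pos _).le
  refine pow_le_pow_right₀ ?_ hl
  rw [le_div_iff₀ hτ]
  linarith

lemma house_term {d D : ℕ} {x y : 𝓞 K} {Y τ A : ℝ} (hτ : 0 < τ) (hτ1 : τ ≤ 1) {k : ℕ}
    (hx : house (x : K) ≤ Y) (hy : house (y : K) ≤ Y) (hz : (k : ℝ) + D ≤ A)
    (l : Fin (d + 1) × Fin D) :
    house ((((k.choose (l.2 : ℕ) : ℕ) : 𝓞 K) * (x ^ (d - (l.1 : ℕ)) * y ^ (l.1 : ℕ)) : 𝓞 K) : K) ≤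
      Real.exp (τ * A) * (1 / τ) ^ D * Y ^ d := by
  have h1 : ((((k.choose (l.2 : ℕ) : ℕ) : 𝓞 K) *
      (x ^ (d - (l.1 : ℕ)) * y ^ (l.1 : ℕ)) : 𝓞 K) : K) =
      ((k.choose (l.2 : ℕ) : ℕ) : K) * ((x : K) ^ (d - (l.1 : ℕ)) * (y : K) ^ (l.1 : ℕ)) := by
    simp only [RingOfIntegers.coe_eq_algebraMap, map_mul, map_pow, map_natCast]
  rw [h1, house_nat_mul]
  have h2 : house ((x : K) ^ (d - (l.1 : ℕ)) * (y : K) ^ (l.1 : ℕ)) ≤ Y ^ d := by
    refine (house_mul_le _ _).trans ?_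
    refine le_trans (mul_le_mul (house_pow_le _ _) (house_pow_le _ _) (house_nonneg _)
      (pow_nonneg (house_nonneg _) _)) ?_
    exact pow_mul_pow_le (house_nonneg _) (house_nonneg _) hx hy l.1
  exact mul_le_mul (choose_bound hτ hτ1 l.2.2.le hz) h2 (house_nonneg _) (by positivity)

lemma RR_house {d D : ℕ} {N : ℕ} {ξ : Fin (d + 1) × Fin D → 𝓞 K} {x y : 𝓞 K} {m : ℕ}
    {X Y τ A : ℝ} (hτ : 0 < τ) (hτ1 : τ ≤ 1) (hξ : ∀ l, house (ξ l : K) ≤ X)
    (hx : house (x : K) ≤ Y) (hy : house (y : K) ≤ Y) (hz : ((m - N : ℕ) : ℝ) + D ≤ A) :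
    house (RR N ξ x y m : K) ≤
      ((d + 1) * D : ℕ) * (Real.exp (τ * A) * (1 / τ) ^ D * Y ^ d * X) := by
  have hY : 0 ≤ Y := (house_nonneg _).trans hx
  unfold RR
  change house (algebraMap (𝓞 K) K _) ≤ _
  rw [map_sum]
  refine (house_sum_le_sum_house _ _).trans ?_
  refine (Finset.sum_le_card_nsmul _ _ (Real.exp (τ * A) * (1 / τ) ^ D * Y ^ d * X)
    fun l _ => ?_).trans ?_
  · rw [map_mul]
    refine (house_mul_le _ _).trans ?_
    exact mul_le_mul (house_term hτ hτ1 hx hy hz l) (hξ l) (house_nonneg _) (by positivity)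
  · rw [nsmul_eq_mul, Finset.card_univ, Fintype.card_prod, Fintype.card_fin, Fintype.card_fin]

end Pool.Agent.KS6_12
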