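import Pool.Agent.KS6_12.Hyp.Phase1

/-! Algebraic relations between the coordinates of the rational points on a disc in a sector: the
extrapolation. -/

set_option autoImplicit false

open NumberField Height Metric Set

namespace Pool.Agent.KS6_12

variable {K : Type} [Field K] [NumberField K]

/-- The coordinates of the points at the integers, and the discs around them. -/
def DiscData {n : ℕ} (σ : K →+* ℂ) (y : ℕ → Fin (n + 1) → 𝓞 K) (M₀ ρ c : ℝ) (m₀ : ℕ) : Prop :=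
  (∀ m : ℕ, m₀ ≤ m → ∀ j, house (y m j : K) ≤ Real.exp (c * m)) ∧
  ∀ m : ℕ, m₀ ≤ m → ∃ g : ℂ → Fin (n + 1) → ℂ, DifferentiableOn ℂ g (ball (m : ℂ) (ρ * m)) ∧
    (∀ z ∈ ball (m : ℂ) (ρ * m), ∀ j, ‖g z j‖ ≤ M₀) ∧
    ∀ k : ℕ, m₀ ≤ k → (k : ℂ) ∈ ball (m : ℂ) (ρ * m) →
      ∃ s : ℂ, s ≠ 0 ∧ ‖s‖ ≤ Real.exp (c * k) ∧ ∀ j, σ (y k j : K) = g k j * s

lemma exists_large {a b κ : ℝ} (hb : 0 ≤ b) (hκ : 0 < κ) :
    ∃ N₁ : ℕ, ∀ m : ℕ, N₁ ≤ m → a + b * Real.log (2 * m) ≤ κ * m := by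
  have h1 : ∀ᶠ x : ℝ in Filter.atTop, ‖Real.log x‖ ≤ κ / (4 * (b + 1)) * ‖(x : ℝ)‖ :=
    Real.isLittleO_log_id_atTop.bound (by positivity)
  obtain ⟨x₀, hx₀⟩ := Filter.eventually_atTop.1 h1
  refine ⟨max ⌈x₀⌉₊ (⌈2 * |a| / κ⌉₊ + 1), fun m hm => ?_⟩
  have hm1 : x₀ ≤ m := (Nat.le_ceil x₀).trans (by exact_mod_cast (le_max_left _ _).trans hm)
  have hm2 : 2 * |a| / κ ≤ m := by
    refine (Nat.le_ceil _).trans ?_
    have : ⌈2 * |a| / κ⌉₊ ≤ m := (Nat.le_succ _).trans ((le_max_right _ _).trans hm)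
    exact_mod_cast this
  have hm3 : (1 : ℝ) ≤ m := by
    have : 1 ≤ m := le_trans (by omega) ((le_max_right _ _).trans hm)
    exact_mod_cast this
  have h2 := hx₀ (2 * m) (by linarith)
  rw [Real.norm_eq_abs, Real.norm_of_nonneg (by positivity)] at h2
  have h3 : Real.log (2 * m) ≤ κ / (4 * (b + 1)) * (2 * m) := (le_abs_self _).trans h2
  have h4 : b * Real.log (2 * m) ≤ κ * m / 2 := by
    calc b * Real.log (2 * m) ≤ b * (κ / (4 * (b + 1)) * (2 * m)) :=
          mul_le_mul_of_nonneg_left h3 hb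
      _ = (b / (b + 1)) * (κ * m / 2) := by
          field_simp
          ring
      _ ≤ 1 * (κ * m / 2) := by
          refine mul_le_mul_of_nonneg_right ?_ (by positivity)
          rw [div_le_one (by positivity)]
          linarith
      _ = κ * m / 2 := one_mul _
  have h5 : a ≤ κ * m / 2 := by
    have h6 : 2 * |a| ≤ κ * m := by
      rw [div_le_iff₀ hκ] at hm2
      linarith
    have := le_abs_self a
    linarith
  linarith

theorem phase1 (K : Type) [Field K] [NumberField K] {M₀ ρ : ℝ} (hM₀ : 1 ≤ M₀) (hρ : 0 < ρ)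
    (hρ1 : ρ ≤ 1) :
    ∃ c : ℝ, 0 < c ∧ ∀ (σ : K →+* ℂ) (n : ℕ) (y : ℕ → Fin (n + 1) → 𝓞 K) (m₀ : ℕ),
      DiscData σ y M₀ ρ c m₀ → ∀ i j : Fin (n + 1),
      ∃ (N d D : ℕ) (ξ : Fin (d + 1) × Fin D → 𝓞 K), ξ ≠ 0 ∧
        ∀ m, N ≤ m → RR N ξ (y m i) (y m j) m = 0 := by
  classical
  obtain ⟨C₁, hC₁, hsieg⟩ := siegel_one K
  set δ : ℕ := Module.finrank ℚ K with hδ
  have hδpos : 0 < δ := Module.finrank_pos
  have hδ1 : (1 : ℝ) ≤ δ := by exact_mod_cast hδpos
  set τ : ℝ := ρ / (3072 * δ) with hτ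
  have hτpos : 0 < τ := by positivity
  have hτδ : δ * (6 * τ) = ρ / 512 := by
    rw [hτ]
    field_simp
    norm_num
  have hτ1 : τ ≤ 1 := by
    rw [hτ, div_le_one (by positivity)]
    linarith
  set Lg : ℝ := Real.log (1 / τ) with hLg
  have hLg0 : 0 ≤ Lg := Real.log_nonneg (by rw [le_div_iff₀ hτpos]; linarith)
  have hexpLg : 1 / τ = Real.exp Lg := by rw [hLg, Real.exp_log (by positivity)]
  set d : ℕ := ⌈128 * δ * Lg⌉₊ with hd
  have hdLg : 128 * δ * Lg ≤ d + 1 := (Nat.le_ceil _).trans (by linarith)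
  set K₀ : ℕ := ⌈8 * (d + 1) / ρ⌉₊ with hK₀
  have hK₀1 : 8 * (d + 1) / ρ ≤ K₀ := Nat.le_ceil _
  have hd1 : (1 : ℝ) ≤ d + 1 := by
    have : (0 : ℝ) ≤ d := by positivity
    linarith
  have h8 : 8 * (d + 1 : ℝ) ≤ 8 * (d + 1) / ρ := by
    rw [le_div_iff₀ hρ]
    exact mul_le_of_le_one_right (by positivity) hρ1
  have hK₀8 : 8 * (d + 1 : ℝ) ≤ K₀ := h8.trans hK₀1
  have hK₀2 : (K₀ : ℝ) ≤ 16 * (d + 1) / ρ := by
    have h1 : (K₀ : ℝ) < 8 * (d + 1) / ρ + 1 := Nat.ceil_lt_add_one (by positivity)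
    have h2 : 16 * (d + 1 : ℝ) / ρ = 8 * (d + 1) / ρ + 8 * (d + 1) / ρ := by ring
    linarith
  have hK₀pos : (0 : ℝ) < K₀ := by linarith
  set κ : ℝ := (d + 1) / K₀ with hκ
  have hκpos : 0 < κ := by positivity
  have hκle : κ ≤ ρ / 8 := by
    rw [hκ, div_le_iff₀ hK₀pos]
    rw [div_le_iff₀ hρ] at hK₀1
    linarith
  have hκge : ρ / 16 ≤ κ := by
    rw [hκ, le_div_iff₀ hK₀pos]
    rw [le_div_iff₀ hρ] at hK₀2
    linarith
  set c : ℝ := ρ / (1536 * δ * (d + 1)) with hc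
  have hcpos : 0 < c := by positivity
  have hcδ : δ * (3 * c * (d + 1)) = ρ / 512 := by
    rw [hc]
    field_simp
    norm_num
  refine ⟨c, hcpos, ?_⟩
  intro σ n y m₀ hdata i j
  obtain ⟨hyY, hdisc⟩ := hdata
  obtain ⟨N₁, hN₁⟩ := exists_large (a := δ * Real.log (C₁ * M₀ ^ d) + 1) (b := δ * 2) (κ := κ / 32)
    (by positivity) (by positivity)
  set t : ℕ := max 1 (max m₀ N₁) with ht
  have ht1 : 1 ≤ t := le_max_left _ _
  set N : ℕ := K₀ * t with hN
  set P : ℕ := (d + 1) * t with hP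
  have hPpos : 0 < P := by positivity
  have hK₀1' : 8 * (d + 1) ≤ K₀ := by exact_mod_cast hK₀8
  have htN : t ≤ N := Nat.le_mul_of_pos_left t (by omega)
  have hNm₀ : m₀ ≤ N := le_trans ((le_max_left _ _).trans (le_max_right _ _)) htN
  have hNN₁ : N₁ ≤ N := le_trans ((le_max_right _ _).trans (le_max_right _ _)) htN
  have hPN : 8 * P ≤ N := by
    rw [hP, hN, ← mul_assoc]
    exact Nat.mul_le_mul_right _ hK₀1'
  have h2tN : 8 * t ≤ N := by
    rw [hN]
    exact Nat.mul_le_mul_right _ (by omega)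
  have hPκ : (P : ℝ) = κ * N := by
    rw [hP, hN, hκ]
    push_cast
    field_simp
  have htK : (t : ℝ) = N / K₀ := by
    rw [hN]
    push_cast
    field_simp
  set A₀ : ℝ := Real.exp (τ * (3 * N)) * (1 / τ) ^ (2 * t) * Real.exp (c * (2 * N)) ^ d with hA₀
  have hτinv : 1 ≤ 1 / τ := by
    rw [le_div_iff₀ hτpos]
    linarith
  have hA₀1 : 1 ≤ A₀ := by
    rw [hA₀]
    refine one_le_mul_of_one_le_of_one_le (one_le_mul_of_one_le_of_one_le
      (Real.one_le_exp (by positivity)) (one_le_pow₀ hτinv)) (one_le_pow₀ ?_)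
    exact Real.one_le_exp (by positivity)
  obtain ⟨ξ, hξ, hξ0, hξb⟩ := hsieg (Fin P) (Fin (d + 1) × Fin (2 * t)) P
    (fun k l => (((k : ℕ).choose (l.2 : ℕ) : ℕ) : 𝓞 K) *
      (y (N + k) i ^ (d - (l.1 : ℕ)) * y (N + k) j ^ (l.1 : ℕ))) hPpos (by simp)
    (by rw [Fintype.card_prod, Fintype.card_fin, Fintype.card_fin, hP]; ring) A₀ hA₀1 (by
      intro k l
      have hk := k.2
      have h1 : Real.exp (c * ((N + k : ℕ) : ℝ)) ≤ Real.exp (c * (2 * N)) := by
        apply Real.exp_le_exp.2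
        refine mul_le_mul_of_nonneg_left ?_ hcpos.le
        have : N + (k : ℕ) ≤ 2 * N := by omega
        exact_mod_cast this
      refine house_term hτpos hτ1 ((hyY _ (by omega) i).trans h1) ((hyY _ (by omega) j).trans h1)
        ?_ l
      have : (k : ℕ) + 2 * t ≤ 3 * N := by omega
      exact_mod_cast this)
  set X : ℝ := C₁ * (2 * P * A₀) with hX
  have hX0 : 0 ≤ X := by positivity
  refine ⟨N, d, 2 * t, ξ, hξ, ?_⟩
  intro m
  induction m using Nat.strong_induction_on with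
  | _ m ih =>
  intro hNm
  rcases lt_or_ge m (N + P) with hmP | hmP
  · have h1 := hξ0 ⟨m - N, by omega⟩
    have h2 : N + (m - N) = m := by omega
    simp only [h2] at h1
    exact h1
  -- extrapolation
  have hmpos : (0 : ℝ) < m := by
    have : 0 < m := by omega
    exact_mod_cast this
  have hNmR : (N : ℝ) ≤ m := by exact_mod_cast hNm
  have hmPR : (N : ℝ) + P ≤ m := by exact_mod_cast hmP
  have hρm : 0 < ρ * m := by positivity
  set Z : ℕ := ⌊κ / 4 * m⌋₊ with hZ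
  have hZle : (Z : ℝ) ≤ κ / 4 * m := Nat.floor_le (by positivity)
  have hZge : κ / 4 * m - 1 < Z := Nat.sub_one_lt_floor _
  have hκ8 : κ ≤ 1 / 8 := by linarith
  have hZN : N + Z ≤ m := by
    have h1 : (N : ℝ) + Z ≤ m := by
      -- `m ≥ (1 + κ) N`
      have h2 : (1 + κ) * N ≤ m := by
        rw [hPκ] at hmPR
        linarith
      have h3 : κ / 4 * m ≤ m - N := by
        have h4 : (1 + κ) * (m - N) = (1 + κ) * m - (1 + κ) * N := by ring
        have h5 : (1 + κ) * ((m : ℝ) - N) ≤ 2 * (m - N) :=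
          mul_le_mul_of_nonneg_right (by linarith) (by linarith)
        linarith
      linarith
    exact_mod_cast h1
  obtain ⟨g, hg, hgM, hgk⟩ := hdisc m (hNm₀.trans hNm)
  have hmball : (m : ℂ) ∈ ball (m : ℂ) (ρ * m) := mem_ball_self (by positivity)
  obtain ⟨s, hs, hsY, hsg⟩ := hgk m (hNm₀.trans hNm) hmball
  have hkball : ∀ k ∈ Finset.Ico (m - Z) m, (k : ℂ) ∈ closedBall (m : ℂ) (ρ / 32 * m) := by
    intro k hk
    obtain ⟨hk1, hk2⟩ := Finset.mem_Ico.1 hk
    rw [mem_closedBall_iff_norm]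
    have h1 : (k : ℂ) - m = -(((m - k : ℕ) : ℂ)) := by
      push_cast [Nat.cast_sub hk2.le]
      ring
    rw [h1, norm_neg, Complex.norm_natCast]
    have h2 : ((m - k : ℕ) : ℝ) ≤ Z := by
      have : m - k ≤ Z := by omega
      exact_mod_cast this
    have h3 : κ / 4 * m ≤ ρ / 32 * m := mul_le_mul_of_nonneg_right (by linarith) hmpos.le
    linarith
  have hzeros : ∀ w ∈ (Finset.Ico (m - Z) m).image (fun k : ℕ => (k : ℂ)),
      w ∈ closedBall (m : ℂ) (ρ / 32 * m) ∧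
        GG σ N ξ (fun z => g z i) (fun z => g z j) w = 0 := by
    intro w hw
    obtain ⟨k, hk, rfl⟩ := Finset.mem_image.1 hw
    refine ⟨hkball k hk, ?_⟩
    obtain ⟨hk1, hk2⟩ := Finset.mem_Ico.1 hk
    have hkN : N ≤ k := by omega
    obtain ⟨s', hs', -, hsg'⟩ := hgk k (hNm₀.trans hkN)
      (closedBall_subset_ball (by linarith) (hkball k hk))
    have h1 := RR_eq ξ (g := fun z => g z i) (h := fun z => g z j) hkN (hsg' i) (hsg' j)
    rw [ih k hk2 hkN] at h1
    simp only [map_zero] at h1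
    exact (mul_eq_zero.1 h1.symm).resolve_left (pow_ne_zero _ hs')
  have hcard : ((Finset.Ico (m - Z) m).image (fun k : ℕ => (k : ℂ))).card = Z := by
    rw [Finset.card_image_of_injective _ Nat.cast_injective, Nat.card_Ico]
    omega
  have h2tR : (8 : ℝ) * t ≤ N := by exact_mod_cast h2tN
  have hsup : ∀ z ∈ closedBall (m : ℂ) (ρ / 2 * m),
      ‖GG σ N ξ (fun z => g z i) (fun z => g z j) z‖ ≤
      ((d + 1) * (2 * t) : ℕ) * (Real.exp (τ * (3 * m)) * (1 / τ) ^ (2 * t) * M₀ ^ d * X) := by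
    intro z hz
    have hzb : z ∈ ball (m : ℂ) (ρ * m) := closedBall_subset_ball (by linarith) hz
    refine GG_bound hτpos hτ1 hξb (hgM z hzb i) (hgM z hzb j) ?_
    rw [mem_closedBall_iff_norm] at hz
    have h1 : ‖z - N‖ ≤ ‖z - m‖ + (m - N) := by
      have h2 : z - N = (z - m) + ((m - N : ℕ) : ℂ) := by
        push_cast [Nat.cast_sub hNm]
        ring
      rw [h2]
      refine (norm_add_le _ _).trans ?_
      rw [Complex.norm_natCast]
      push_cast [Nat.cast_sub hNm]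
      exact le_rfl
    have h3 : ρ / 2 * m ≤ 1 / 2 * m := mul_le_mul_of_nonneg_right (by linarith) hmpos.le
    push_cast
    linarith
  by_contra hne
  have hL := liouville σ hne
  set Q : ℝ := ((d + 1) * (2 * t) : ℕ) * (Real.exp (τ * (3 * m)) * (1 / τ) ^ (2 * t) *
    M₀ ^ d * Real.exp (c * m) ^ d * X) with hQ
  have hQ0 : 0 ≤ Q := by positivity
  have hcm : 1 ≤ Real.exp (c * m) := Real.one_le_exp (by positivity)
  have hexp1 : (2 : ℝ) / 15 ≤ Real.exp (-1) := by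
    rw [Real.exp_neg, div_le_iff₀ (by norm_num), ← div_eq_inv_mul, le_div_iff₀ (Real.exp_pos 1)]
    have := Real.exp_one_lt_d9
    linarith
  have hGm : ‖GG σ N ξ (fun z => g z i) (fun z => g z j) m‖ ≤
      ((d + 1) * (2 * t) : ℕ) * (Real.exp (τ * (3 * m)) * (1 / τ) ^ (2 * t) * M₀ ^ d * X) *
        Real.exp (-Z) := by
    have h1 := schwarz_many (c := (m : ℂ)) (r := ρ / 32 * m) (R' := ρ / 2 * m) (R := ρ * m)
      (by linarith) (by linarith) (by positivity)
      (GG_diff (σ := σ) (N := N) ξ (differentiableOn_pi.1 hg i) (differentiableOn_pi.1 hg j))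
      hsup _ hzeros (z := (m : ℂ)) (mem_closedBall_self (by positivity))
    rw [hcard] at h1
    refine h1.trans (mul_le_mul_of_nonneg_left ?_ (by positivity))
    have h2 : 2 * (ρ / 32 * m) / (ρ / 2 * m - ρ / 32 * m) = 2 / 15 := by
      have : (m : ℝ) ≠ 0 := hmpos.ne'
      field_simp
      norm_num
    rw [h2]
    calc ((2 : ℝ) / 15) ^ Z ≤ Real.exp (-1) ^ Z := pow_le_pow_left₀ (by norm_num) hexp1 _
      _ = Real.exp (-Z) := by
          rw [← Real.exp_nat_mul]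
          congr 1
          ring
  have h1 : ‖σ (RR N ξ (y m i) (y m j) m : K)‖ ≤ Q * Real.exp (-Z) := by
    rw [RR_eq ξ (g := fun z => g z i) (h := fun z => g z j) hNm (hsg i) (hsg j), norm_mul,
      norm_pow]
    calc ‖s‖ ^ d * ‖GG σ N ξ (fun z => g z i) (fun z => g z j) m‖ ≤ Real.exp (c * m) ^ d *
        (((d + 1) * (2 * t) : ℕ) * (Real.exp (τ * (3 * m)) * (1 / τ) ^ (2 * t) * M₀ ^ d * X) *
        Real.exp (-Z)) :=
          mul_le_mul (pow_le_pow_left₀ (norm_nonneg _) hsY _) hGm (norm_nonneg _) (by positivity)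
      _ = Q * Real.exp (-Z) := by rw [hQ]; ring
  have h2 : house (RR N ξ (y m i) (y m j) m : K) ≤ Q := by
    refine (RR_house hτpos hτ1 hξb (hyY m (hNm₀.trans hNm) i) (hyY m (hNm₀.trans hNm) j)
      (A := 3 * m) ?_).trans ?_
    · have h3 : ((m - N : ℕ) : ℝ) ≤ m := by
        have : m - N ≤ m := Nat.sub_le _ _
        exact_mod_cast this
      push_cast
      linarith
    · rw [hQ]
      refine mul_le_mul_of_nonneg_left ?_ (by positivity)
      refine mul_le_mul_of_nonneg_right ?_ hX0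
      refine mul_le_mul_of_nonneg_right ?_ (by positivity)
      exact le_mul_of_one_le_right (by positivity) (one_le_pow₀ hM₀)
  -- the bound for `Q`
  have hQexp : Q ≤ Real.exp (Real.log (C₁ * M₀ ^ d) + 2 * Real.log (2 * m) + 6 * τ * m +
      4 * (m / K₀) * Lg + 3 * c * (d + 1) * m) := by
    have e1 : Q = (C₁ * M₀ ^ d) * (2 * P) ^ 2 * (Real.exp (τ * (3 * m)) *
        Real.exp (τ * (3 * N))) * ((1 / τ) ^ (2 * t) * (1 / τ) ^ (2 * t)) *
        (Real.exp (c * m) ^ d * Real.exp (c * (2 * N)) ^ d) := by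
      rw [hQ, hX, hA₀, hP]
      push_cast
      ring
    have e2 : Real.exp (Real.log (C₁ * M₀ ^ d) + 2 * Real.log (2 * m) + 6 * τ * m +
        4 * (m / K₀) * Lg + 3 * c * (d + 1) * m) = (C₁ * M₀ ^ d) * (2 * m) ^ 2 *
        Real.exp (6 * τ * m) * Real.exp (4 * (m / K₀) * Lg) *
        Real.exp (3 * c * (d + 1) * m) := by
      rw [Real.exp_add, Real.exp_add, Real.exp_add, Real.exp_add, Real.exp_log (by positivity)]
      have : Real.exp (2 * Real.log (2 * m)) = (2 * (m : ℝ)) ^ 2 := by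
        rw [show (2 : ℝ) * Real.log (2 * m) = ((2 : ℕ) : ℝ) * Real.log (2 * m) by norm_num,
          Real.exp_nat_mul, Real.exp_log (by positivity)]
      rw [this]
    rw [e1, e2]
    have f1 : (2 * (P : ℝ)) ^ 2 ≤ (2 * m) ^ 2 := by
      have : (P : ℝ) ≤ m := by
        have : P ≤ m := by omega
        exact_mod_cast this
      exact pow_le_pow_left₀ (by positivity) (by linarith) _
    have f2 : Real.exp (τ * (3 * m)) * Real.exp (τ * (3 * N)) ≤ Real.exp (6 * τ * m) := by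
      rw [← Real.exp_add]
      apply Real.exp_le_exp.2
      have := mul_le_mul_of_nonneg_left hNmR hτpos.le
      linarith
    have f3 : (1 / τ) ^ (2 * t) * (1 / τ) ^ (2 * t) ≤ Real.exp (4 * (m / K₀) * Lg) := by
      rw [hexpLg, ← Real.exp_nat_mul, ← Real.exp_add]
      apply Real.exp_le_exp.2
      push_cast
      have f4 : (t : ℝ) ≤ m / K₀ := by
        rw [htK]
        exact div_le_div_of_nonneg_right hNmR hK₀pos.le
      have := mul_le_mul_of_nonneg_right f4 hLg0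
      linarith
    have f5 : Real.exp (c * m) ^ d * Real.exp (c * (2 * N)) ^ d ≤
        Real.exp (3 * c * (d + 1) * m) := by
      rw [← Real.exp_nat_mul, ← Real.exp_nat_mul, ← Real.exp_add]
      apply Real.exp_le_exp.2
      have f6 : c * (2 * N) ≤ c * (2 * m) := mul_le_mul_of_nonneg_left (by linarith) hcpos.le
      have f7 : (d : ℝ) * (c * (2 * N)) ≤ d * (c * (2 * m)) :=
        mul_le_mul_of_nonneg_left f6 (by positivity)
      have f8 : 0 ≤ 3 * c * m := by positivity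
      calc (d : ℝ) * (c * m) + d * (c * (2 * N)) ≤ d * (c * m) + d * (c * (2 * m)) := by
            linarith
        _ ≤ 3 * c * (d + 1) * m := by linarith
    have g1 : (C₁ * M₀ ^ d) * (2 * (P : ℝ)) ^ 2 ≤ (C₁ * M₀ ^ d) * (2 * m) ^ 2 :=
      mul_le_mul_of_nonneg_left f1 (by positivity)
    exact mul_le_mul (mul_le_mul (mul_le_mul g1 f2 (by positivity) (by positivity)) f3
      (by positivity) (by positivity)) f5 (by positivity) (by positivity)
  obtain ⟨δ', hδ'⟩ : ∃ δ', δ = δ' + 1 := ⟨δ - 1, by omega⟩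
  rw [← hδ, hδ', Nat.add_sub_cancel] at hL
  have h3 : ‖σ (RR N ξ (y m i) (y m j) m : K)‖ *
      house (RR N ξ (y m i) (y m j) m : K) ^ δ' ≤ Q * Real.exp (-Z) * Q ^ δ' :=
    mul_le_mul h1 (pow_le_pow_left₀ (house_nonneg _) h2 _) (pow_nonneg (house_nonneg _) _)
      (by positivity)
  have h4 : Q * Real.exp (-Z) * Q ^ δ' = Q ^ δ * Real.exp (-Z) := by
    rw [hδ', pow_succ]
    ring
  rw [h4] at h3
  have h5 : Q ^ δ * Real.exp (-Z) ≤ Real.exp (δ * (Real.log (C₁ * M₀ ^ d) +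
      2 * Real.log (2 * m) + 6 * τ * m + 4 * (m / K₀) * Lg + 3 * c * (d + 1) * m) - Z) := by
    rw [Real.exp_sub, div_eq_mul_inv, ← Real.exp_neg]
    refine mul_le_mul_of_nonneg_right ?_ (Real.exp_pos _).le
    rw [Real.exp_nat_mul]
    exact pow_le_pow_left₀ hQ0 hQexp _
  have h6 : (δ : ℝ) * (Real.log (C₁ * M₀ ^ d) + 2 * Real.log (2 * m) + 6 * τ * m +
      4 * (m / K₀) * Lg + 3 * c * (d + 1) * m) - Z < 0 := by
    have k1 := hN₁ m (hNN₁.trans hNm)
    have k2 : (δ : ℝ) * (6 * τ * m) = ρ / 512 * m := by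
      rw [← hτδ]
      ring
    have k3 : (δ : ℝ) * (3 * c * (d + 1) * m) = ρ / 512 * m := by
      rw [← hcδ]
      ring
    have k4 : (δ : ℝ) * (4 * (m / K₀) * Lg) ≤ κ / 32 * m := by
      have : (δ : ℝ) * (4 * (m / K₀) * Lg) = (128 * δ * Lg) * (m / K₀ / 32) := by ring
      rw [this]
      calc (128 * δ * Lg) * (m / K₀ / 32) ≤ (d + 1) * (m / K₀ / 32) :=
            mul_le_mul_of_nonneg_right hdLg (by positivity)
        _ = κ / 32 * m := by
            rw [hκ]
            field_simp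
    have k5 : ρ / 512 * m ≤ κ / 32 * m := mul_le_mul_of_nonneg_right (by linarith) hmpos.le
    have k6 : 0 < κ * m := by positivity
    have k7 : (δ : ℝ) * (Real.log (C₁ * M₀ ^ d) + 2 * Real.log (2 * m) + 6 * τ * m +
      4 * (m / K₀) * Lg + 3 * c * (d + 1) * m) = δ * Real.log (C₁ * M₀ ^ d) +
      δ * 2 * Real.log (2 * m) + δ * (6 * τ * m) + δ * (4 * (m / K₀) * Lg) +
      δ * (3 * c * (d + 1) * m) := by ring
    rw [k7, k2, k3]
    linarith
  have h7 : Real.exp (δ * (Real.log (C₁ * M₀ ^ d) +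
      2 * Real.log (2 * m) + 6 * τ * m + 4 * (m / K₀) * Lg + 3 * c * (d + 1) * m) - Z) < 1 := by
    have h8 := Real.exp_lt_exp.2 h6
    rwa [Real.exp_zero] at h8
  linarith

end Pool.Agent.KS6_12
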