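import Pool.Agent.KS6_12.Hyp.Phase1b

/-! From algebraic relations to points of polynomially bounded height. -/

set_option autoImplicit false

open NumberField Height Metric Set

namespace Pool.Agent.KS6_12

variable {K : Type} [Field K] [NumberField K]

/-- the coefficients of the relation -/
noncomputable def pp {d D : ℕ} (N : ℕ) (ξ : Fin (d + 1) × Fin D → 𝓞 K) (k : Fin (d + 1))
    (m : ℕ) : 𝓞 K :=
  ∑ l : Fin D, (((m - N).choose (l : ℕ) : ℕ) : 𝓞 K) * ξ (k, l)

omit [NumberField K] in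
lemma RR_eq_pp {d D : ℕ} (N : ℕ) (ξ : Fin (d + 1) × Fin D → 𝓞 K) (x y : 𝓞 K) (m : ℕ) :
    RR N ξ x y m = ∑ k : Fin (d + 1), pp N ξ k m * (x ^ (d - (k : ℕ)) * y ^ (k : ℕ)) := by
  unfold RR pp
  rw [Fintype.sum_prod_type]
  refine Finset.sum_congr rfl fun k _ => ?_
  rw [Finset.sum_mul]
  refine Finset.sum_congr rfl fun l _ => ?_
  ring

lemma pp_ne {d D : ℕ} {N : ℕ} {ξ : Fin (d + 1) × Fin D → 𝓞 K} (hξ : ξ ≠ 0) :
    ∃ N' : ℕ, ∀ m, N' ≤ m → ∃ k, pp N ξ k m ≠ 0 := by
  classical
  obtain ⟨⟨k, l₀⟩, hl₀⟩ := Function.ne_iff.1 hξ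
  set q : Polynomial K := ∑ l : Fin D, Polynomial.C ((ξ (k, l) : K) / ((l : ℕ).factorial : K)) *
    descPochhammer K l with hq
  have hqe : ∀ r : ℕ, q.eval (r : K) = ∑ l : Fin D, ((r.choose (l : ℕ) : ℕ) : K) * (ξ (k, l) : K) := by
    intro r
    rw [hq, Polynomial.eval_finsetSum]
    refine Finset.sum_congr rfl fun l _ => ?_
    rw [Polynomial.eval_mul, Polynomial.eval_C, descPochhammer_eval_eq_descFactorial,
      Nat.descFactorial_eq_factorial_mul_choose]
    have : ((l : ℕ).factorial : K) ≠ 0 := by exact_mod_cast (l : ℕ).factorial_ne_zero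
    push_cast
    field_simp
  have hq0 : q ≠ 0 := by
    intro h0
    have h1 : ∀ l : ℕ, ∀ hl : l < D, ξ (k, ⟨l, hl⟩) = 0 := by
      intro l
      induction l using Nat.strong_induction_on with
      | _ l ih =>
      intro hl
      have h2 := hqe l
      rw [h0, Polynomial.eval_zero, Finset.sum_eq_single ⟨l, hl⟩] at h2
      · simp only [Nat.choose_self, Nat.cast_one, one_mul] at h2
        exact RingOfIntegers.coe_eq_zero_iff.1 h2.symm
      · intro l' _ hne
        rcases lt_trichotomy (l' : ℕ) l with h3 | h3 | h3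
        · rw [ih l' h3 l'.2]
          simp
        · exact absurd (Fin.ext h3) hne
        · rw [Nat.choose_eq_zero_of_lt h3]
          simp
      · simp
    exact hl₀ (h1 l₀ l₀.2)
  have hfin : (q.rootSet K).Finite := Polynomial.rootSet_finite q K
  have hfin2 : {r : ℕ | q.eval (r : K) = 0}.Finite := by
    refine Set.Finite.preimage (f := fun r : ℕ => (r : K)) ?_ (s := {x | q.eval x = 0}) ?_
    · exact Nat.cast_injective.injOn
    · refine hfin.subset fun x hx => ?_
      rw [Polynomial.mem_rootSet_of_ne hq0]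
      simpa [Polynomial.aeval_def, Polynomial.eval₂_eq_eval_map] using hx
  obtain ⟨B, hB⟩ := hfin2.bddAbove
  refine ⟨N + B + 1, fun m hm => ⟨k, fun h0 => ?_⟩⟩
  have h1 : m - N ≤ B := by
    apply hB
    change q.eval ((m - N : ℕ) : K) = 0
    rw [hqe]
    have h2 := congrArg (algebraMap (𝓞 K) K) h0
    unfold pp at h2
    rw [map_sum, map_zero] at h2
    rw [← h2]
    refine Finset.sum_congr rfl fun l _ => ?_
    rw [map_mul, map_natCast]
  omega

lemma pp_house {d D : ℕ} (N : ℕ) (ξ : Fin (d + 1) × Fin D → 𝓞 K) :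
    ∃ C : ℝ, 1 ≤ C ∧ ∀ k m, house (pp N ξ k m : K) ≤ C * (m + 1) ^ D := by
  refine ⟨1 + ∑ q, house (ξ q : K), ?_, fun k m => ?_⟩
  · have : 0 ≤ ∑ q, house (ξ q : K) := Finset.sum_nonneg fun _ _ => house_nonneg _
    linarith
  unfold pp
  change house (algebraMap (𝓞 K) K _) ≤ _
  rw [map_sum]
  refine (house_sum_le_sum_house _ _).trans ?_
  have h1 : ∀ l ∈ (Finset.univ : Finset (Fin D)), house ((algebraMap (𝓞 K) K)
      ((((m - N).choose (l : ℕ) : ℕ) : 𝓞 K) * ξ (k, l))) ≤ (m + 1 : ℝ) ^ D * house (ξ (k, l) : K) := by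
    intro l _
    rw [map_mul, map_natCast, house_nat_mul]
    refine mul_le_mul_of_nonneg_right ?_ (house_nonneg _)
    have h2 : (m - N).choose (l : ℕ) ≤ (m + 1) ^ D :=
      calc (m - N).choose (l : ℕ) ≤ (m - N) ^ (l : ℕ) := Nat.choose_le_pow _ _
        _ ≤ (m + 1) ^ (l : ℕ) := Nat.pow_le_pow_left (by omega) _
        _ ≤ (m + 1) ^ D := Nat.pow_le_pow_right (by omega) l.2.le
    exact_mod_cast h2
  refine (Finset.sum_le_sum h1).trans ?_
  rw [← Finset.mul_sum, mul_comm]
  refine mul_le_mul_of_nonneg_right ?_ (by positivity)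
  have h3 : ∑ l : Fin D, house (ξ (k, l) : K) ≤ ∑ q, house (ξ q : K) := by
    rw [Fintype.sum_prod_type]
    exact Finset.single_le_sum (f := fun k => ∑ l : Fin D, house (ξ (k, l) : K))
      (fun k _ => Finset.sum_nonneg fun _ _ => house_nonneg _) (Finset.mem_univ k)
  linarith

/-- a root of a polynomial with integral coefficients -/
lemma root_rep {d : ℕ} {x y : 𝓞 K} {p : Fin (d + 1) → 𝓞 K} (hp : ∃ k, p k ≠ 0) (hx : x ≠ 0)
    (h : ∑ k : Fin (d + 1), p k * (x ^ (d - (k : ℕ)) * y ^ (k : ℕ)) = 0) {B : ℝ}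
    (hB : ∀ k, house (p k : K) ≤ B) :
    ∃ s t : 𝓞 K, t ≠ 0 ∧ s * x = t * y ∧ house (s : K) ≤ 2 * B ∧ house (t : K) ≤ 2 * B := by
  classical
  set P : Polynomial (𝓞 K) := ∑ k : Fin (d + 1), Polynomial.C (p k) * Polynomial.X ^ (k : ℕ) with hP
  have hcoeff : ∀ k : Fin (d + 1), P.coeff k = p k := by
    intro k
    rw [hP]
    simp only [Polynomial.finsetSum_coeff, Polynomial.coeff_C_mul, Polynomial.coeff_X_pow]
    rw [Finset.sum_eq_single k]
    · simp
    · intro j _ hj
      rw [if_neg, mul_zero]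
      intro h
      exact hj (Fin.ext h.symm)
    · simp
  have hcoeff' : ∀ l : ℕ, d + 1 ≤ l → P.coeff l = 0 := by
    intro l hl
    rw [hP]
    simp only [Polynomial.finsetSum_coeff, Polynomial.coeff_C_mul, Polynomial.coeff_X_pow]
    refine Finset.sum_eq_zero fun j _ => ?_
    rw [if_neg, mul_zero]
    have := j.2
    omega
  have hPB : ∀ l : ℕ, house (P.coeff l : K) ≤ B := by
    intro l
    rcases lt_or_ge l (d + 1) with hl | hl
    · rw [show P.coeff l = p ⟨l, hl⟩ from hcoeff ⟨l, hl⟩]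
      exact hB _
    · rw [hcoeff' l hl]
      have : house (((0 : 𝓞 K)) : K) = 0 := by
        have := house_intCast (K := K) 0
        simpa using this
      rw [this]
      exact (house_nonneg _).trans (hB 0)
  have hP0 : P ≠ 0 := by
    obtain ⟨k, hk⟩ := hp
    intro h0
    apply hk
    rw [← hcoeff k, h0, Polynomial.coeff_zero]
  have hxK : (x : K) ≠ 0 := fun h => hx (RingOfIntegers.coe_eq_zero_iff.1 h)
  set r : K := (y : K) / x with hr
  have hroot : Polynomial.aeval r P = 0 := by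
    rw [hP, map_sum]
    have h1 : (x : K) ^ d * ∑ k : Fin (d + 1), Polynomial.aeval r
        (Polynomial.C (p k) * Polynomial.X ^ (k : ℕ)) = 0 := by
      rw [Finset.mul_sum]
      have h2 := congrArg (algebraMap (𝓞 K) K) h
      rw [map_sum, map_zero] at h2
      rw [← h2]
      refine Finset.sum_congr rfl fun k _ => ?_
      simp only [map_mul, map_pow, Polynomial.aeval_C, Polynomial.aeval_X]
      have h3 : (x : K) ^ d = (x : K) ^ (d - (k : ℕ)) * (x : K) ^ (k : ℕ) := by
        rw [← pow_add]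
        congr 1
        have := k.2
        omega
      rw [h3, hr, div_pow]
      have h4 : (x : K) ^ (k : ℕ) ≠ 0 := pow_ne_zero _ hxK
      simp only [RingOfIntegers.coe_eq_algebraMap] at h4 ⊢
      field_simp
    exact (mul_eq_zero.1 h1).resolve_left (pow_ne_zero _ hxK)
  have hint : IsIntegral (𝓞 K) (P.leadingCoeff • r) := isIntegral_leadingCoeff_smul P r hroot
  obtain ⟨s, hs⟩ := IsIntegrallyClosed.isIntegral_iff.1 hint
  have hs' : (s : K) = (P.leadingCoeff : K) * r := by
    rw [RingOfIntegers.coe_eq_algebraMap, hs, Algebra.smul_def]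
  have hlc : P.leadingCoeff ≠ 0 := Polynomial.leadingCoeff_ne_zero.2 hP0
  have hBpos : 0 ≤ B := (house_nonneg _).trans (hB 0)
  refine ⟨s, P.leadingCoeff, hlc, ?_, ?_, ?_⟩
  · apply RingOfIntegers.coe_injective
    have h1 : ((s * x : 𝓞 K) : K) = (s : K) * x := by
      simp only [RingOfIntegers.coe_eq_algebraMap, map_mul]
    have h2 : ((P.leadingCoeff * y : 𝓞 K) : K) = (P.leadingCoeff : K) * y := by
      simp only [RingOfIntegers.coe_eq_algebraMap, map_mul]
    change ((s * x : 𝓞 K) : K) = ((P.leadingCoeff * y : 𝓞 K) : K)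
    rw [h1, h2, hs', hr]
    field_simp
  · -- the bound at each embedding
    have hemb : ∀ τ : K →+* ℂ, ‖τ (s : K)‖ ≤ 2 * B := by
      intro τ
      set Q : Polynomial ℂ := P.map (τ.comp (algebraMap (𝓞 K) K)) with hQ
      have hinj : Function.Injective (τ.comp (algebraMap (𝓞 K) K)) :=
        τ.injective.comp RingOfIntegers.coe_injective
      have hQ0 : Q ≠ 0 := (Polynomial.map_ne_zero_iff hinj).2 hP0
      have hQr : Q.IsRoot (τ r) := by
        rw [Polynomial.IsRoot.def, hQ, Polynomial.eval_map, ← Polynomial.hom_eval₂]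
        rw [Polynomial.aeval_def] at hroot
        rw [hroot, map_zero]
      have h1 := hQr.norm_lt_cauchyBound hQ0
      have hQlc : Q.leadingCoeff = τ (P.leadingCoeff : K) := by
        rw [hQ, Polynomial.leadingCoeff_map_of_injective hinj]
        rfl
      have hlcpos : 0 < ‖Q.leadingCoeff‖ := norm_pos_iff.2 (Polynomial.leadingCoeff_ne_zero.2 hQ0)
      have h2 : ‖τ (s : K)‖ = ‖Q.leadingCoeff‖ * ‖τ r‖ := by
        rw [hs', map_mul, norm_mul, hQlc]
      have h3 : ‖Q.leadingCoeff‖ ≤ B := by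
        rw [hQlc]
        exact (norm_embedding_le_house _ τ).trans (hPB _)
      have h4 : ‖Q.leadingCoeff‖ * (Polynomial.cauchyBound Q : ℝ) ≤ 2 * B := by
        unfold Polynomial.cauchyBound
        rw [NNReal.coe_add, NNReal.coe_div, coe_nnnorm, NNReal.coe_one, mul_add,
          mul_div_cancel₀ _ hlcpos.ne', mul_one]
        have h5 : ((Finset.sup (Finset.range Q.natDegree) fun i => ‖Q.coeff i‖₊ : NNReal) : ℝ) ≤
            B := by
          have h6 : (Finset.sup (Finset.range Q.natDegree) fun i => ‖Q.coeff i‖₊) ≤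
              B.toNNReal := by
            refine Finset.sup_le fun i _ => ?_
            rw [← NNReal.coe_le_coe, coe_nnnorm, Real.coe_toNNReal _ hBpos, hQ,
              Polynomial.coeff_map]
            exact (norm_embedding_le_house _ τ).trans (hPB i)
          have h7 := NNReal.coe_le_coe.2 h6
          rwa [Real.coe_toNNReal _ hBpos] at h7
        linarith
      rw [h2]
      have h1' : ‖τ r‖ ≤ (Polynomial.cauchyBound Q : ℝ) := by
        have := NNReal.coe_le_coe.2 h1.le
        rwa [coe_nnnorm] at this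
      exact (mul_le_mul_of_nonneg_left h1' (norm_nonneg _)).trans h4
    rw [house_eq_sup']
    have h5 : ∀ τ ∈ (Finset.univ : Finset (K →+* ℂ)), ‖τ (s : K)‖₊ ≤ (2 * B).toNNReal := by
      intro τ _
      rw [← NNReal.coe_le_coe, coe_nnnorm, Real.coe_toNNReal _ (by positivity)]
      exact hemb τ
    have h6 := Finset.sup'_le (H := Finset.univ_nonempty)
      (f := fun φ : K →+* ℂ => ‖φ (s : K)‖₊) h5
    have h7 := NNReal.coe_le_coe.2 h6
    rwa [Real.coe_toNNReal _ (by positivity)] at h7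
  · have := hPB P.natDegree
    change house (P.coeff P.natDegree : K) ≤ _
    linarith

end Pool.Agent.KS6_12
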