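import Pool.Agent.KS6_12.Hyp.Phase1c
import Pool.Agent.KS6_12.Hyp.Main2

/-! Points of polynomially bounded height on a disc in a sector. -/

set_option autoImplicit false

open NumberField Height Metric Set
open Pool.Agent.NH29.GK (Phi Mat PM HolP Phi_inj Phi_diag_ne Phi_smul)

namespace Pool.Agent.KS6_12

variable {K : Type} [Field K] [NumberField K]

/-- integral representatives with polynomially bounded coordinates -/
theorem poly_rep {n : ℕ} {y : ℕ → Fin (n + 1) → 𝓞 K}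
    (hrel : ∀ i j : Fin (n + 1), ∃ (N d D : ℕ) (ξ : Fin (d + 1) × Fin D → 𝓞 K), ξ ≠ 0 ∧
      ∀ m, N ≤ m → RR N ξ (y m i) (y m j) m = 0) :
    ∃ (B : ℝ) (E N : ℕ), 1 ≤ B ∧ ∀ m, N ≤ m → y m ≠ 0 → ∃ w : Fin (n + 1) → 𝓞 K, w ≠ 0 ∧
      (∃ a b : 𝓞 K, a ≠ 0 ∧ b ≠ 0 ∧ ∀ j, w j * a = b * y m j) ∧
      ∀ j, house (w j : K) ≤ B * (m + 1) ^ E := by
  classical
  choose N d D ξ hξ hRR using hrel
  choose N' hN' using fun i j => pp_ne (N := N i j) (hξ i j)
  choose C hC1 hC using fun i j => pp_house (N i j) (ξ i j)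
  set Cm : ℝ := ∑ i, ∑ j, C i j with hCm
  set Dm : ℕ := ∑ i, ∑ j, D i j with hDm
  have hC0 : ∀ i j, 0 ≤ C i j := fun i j => zero_le_one.trans (hC1 i j)
  have hCle : ∀ i j, C i j ≤ Cm := fun i j =>
    (Finset.single_le_sum (f := fun j => C i j) (fun j _ => hC0 i j) (Finset.mem_univ j)).trans
      (Finset.single_le_sum (f := fun i => ∑ j, C i j)
        (fun i _ => Finset.sum_nonneg fun j _ => hC0 i j) (Finset.mem_univ i))
  have hDle : ∀ i j, D i j ≤ Dm := fun i j =>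
    (Finset.single_le_sum (f := fun j => D i j) (fun j _ => Nat.zero_le _)
      (Finset.mem_univ j)).trans
      (Finset.single_le_sum (f := fun i => ∑ j, D i j)
        (fun i _ => Nat.zero_le _) (Finset.mem_univ i))
  have hCm1 : 1 ≤ Cm := (hC1 0 0).trans (hCle 0 0)
  refine ⟨(2 * Cm) ^ (n + 1), Dm * (n + 1), ∑ i, ∑ j, (N i j + N' i j), one_le_pow₀ (by linarith),
    fun m hm hy => ?_⟩
  have hNle : ∀ i j, N i j + N' i j ≤ m := fun i j =>
    ((Finset.single_le_sum (f := fun j => N i j + N' i j) (fun j _ => Nat.zero_le _)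
      (Finset.mem_univ j)).trans
      (Finset.single_le_sum (f := fun i => ∑ j, (N i j + N' i j))
        (fun i _ => Nat.zero_le _) (Finset.mem_univ i))).trans hm
  obtain ⟨i, hi⟩ := Function.ne_iff.1 hy
  have hi' : y m i ≠ 0 := hi
  set β : ℝ := 2 * (Cm * (m + 1) ^ Dm) with hβ
  have hm1 : (1 : ℝ) ≤ m + 1 := by
    have : (0 : ℝ) ≤ m := by positivity
    linarith
  have hst : ∀ j, ∃ s t : 𝓞 K, t ≠ 0 ∧ s * y m i = t * y m j ∧ house (s : K) ≤ β ∧
      house (t : K) ≤ β := by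
    intro j
    obtain ⟨s, t, h1, h2, h3, h4⟩ := root_rep (x := y m i) (y := y m j)
      (p := fun k => pp (N i j) (ξ i j) k m) (hN' i j m (by have := hNle i j; omega)) hi' (by
        rw [← RR_eq_pp]
        exact hRR i j m (by have := hNle i j; omega)) (fun k => hC i j k m)
    have h5 : 2 * (C i j * (m + 1 : ℝ) ^ D i j) ≤ β := by
      rw [hβ]
      refine mul_le_mul_of_nonneg_left ?_ (by norm_num)
      exact mul_le_mul (hCle i j) (pow_le_pow_right₀ hm1 (hDle i j)) (by positivity)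
        (by positivity)
    exact ⟨s, t, h1, h2, h3.trans h5, h4.trans h5⟩
  choose s t ht hst hs htB using hst
  refine ⟨fun j => s j * ∏ k ∈ Finset.univ.erase j, t k, ?_,
    ⟨y m i, ∏ k, t k, hi', Finset.prod_ne_zero_iff.2 fun k _ => ht k, fun j => ?_⟩, fun j => ?_⟩
  · intro h0
    have h1 := congrFun h0 i
    simp only [Pi.zero_apply] at h1
    have h2 : s i ≠ 0 := by
      intro h3
      have h4 := hst i
      rw [h3, zero_mul] at h4
      exact mul_ne_zero (ht i) hi' h4.symm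
    exact mul_ne_zero h2 (Finset.prod_ne_zero_iff.2 fun k _ => ht k) h1
  · have h1 : ∏ k, t k = t j * ∏ k ∈ Finset.univ.erase j, t k :=
      (Finset.mul_prod_erase _ _ (Finset.mem_univ j)).symm
    rw [h1]
    linear_combination (∏ k ∈ Finset.univ.erase j, t k) * hst j
  · have h1 : (((s j * ∏ k ∈ Finset.univ.erase j, t k : 𝓞 K)) : K) =
        (s j : K) * ∏ k ∈ Finset.univ.erase j, (t k : K) := by
      simp only [RingOfIntegers.coe_eq_algebraMap, map_mul, map_prod]
    rw [h1]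
    have h2 : house (∏ k ∈ Finset.univ.erase j, (t k : K)) ≤ β ^ n := by
      have h3 : ∀ T : Finset (Fin (n + 1)), house (∏ k ∈ T, (t k : K)) ≤ β ^ T.card := by
        intro T
        induction T using Finset.induction_on with
        | empty =>
          have := house_intCast (K := K) 1
          simp only [Finset.prod_empty, Finset.card_empty, pow_zero]
          simpa using this.le
        | insert a T ha ih =>
          rw [Finset.prod_insert ha, Finset.card_insert_of_notMem ha, pow_succ, mul_comm (β ^ _)]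
          exact (house_mul_le _ _).trans (mul_le_mul (htB a) ih (house_nonneg _)
            ((house_nonneg _).trans (htB a)))
      have h4 := h3 (Finset.univ.erase j)
      rwa [Finset.card_erase_of_mem (Finset.mem_univ j), Finset.card_univ, Fintype.card_fin,
        Nat.add_sub_cancel] at h4
    refine (house_mul_le _ _).trans ((mul_le_mul (hs j) h2 (house_nonneg _)
      ((house_nonneg _).trans (hs j))).trans (le_of_eq ?_))
    rw [hβ, ← pow_succ', ← mul_assoc, mul_pow, ← pow_mul]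

lemma IsHol.comp_affine {n : ℕ} {U : Set ℂ} {f : ℂ → PP ℂ n} (hf : IsHol U f) (a b : ℂ) :
    IsHol ((fun z => a + b * z) ⁻¹' U) (fun z => f (a + b * z)) := by
  intro z hz
  obtain ⟨V, g, hV, hzV, hg, hfg⟩ := hf _ hz
  have hd : Differentiable ℂ fun z : ℂ => a + b * z := by fun_prop
  exact ⟨(fun z => a + b * z) ⁻¹' V, fun w => g (a + b * w), hV.preimage hd.continuous, hzV,
    hg.comp hd.differentiableOn (fun w hw => hw), fun w hw => hfg _ hw⟩

lemma IsHol.mono {n : ℕ} {U V : Set ℂ} {f : ℂ → PP ℂ n} (hf : IsHol U f) (h : V ⊆ U) :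
    IsHol V f := fun z hz => hf z (h hz)

lemma ball_sub {m κ : ℝ} (hm : 0 < m) (hκ : 0 < κ) :
    ball (0 : ℂ) 1 ⊆ (fun z => (m : ℂ) + ((κ * m : ℝ) : ℂ) * z) ⁻¹' ball (m : ℂ) (κ * m) := by
  intro z hz
  rw [mem_ball_zero_iff] at hz
  rw [mem_preimage, mem_ball_iff_norm, add_sub_cancel_left, norm_mul, Complex.norm_real,
    Real.norm_of_nonneg (by positivity)]
  exact mul_lt_of_lt_one_right (by positivity) hz

/-- Points of polynomially bounded height at the positive integers are eventually equal. -/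
theorem windows {n : ℕ} {ι : Type} [Fintype ι] (σ : K →+* ℂ)
    {F : ι → MvPolynomial (Fin (n + 1)) K} {e : ι → ℕ} (hF : ∀ i, (F i).IsHomogeneous (e i))
    (hyp : BrodyHyp fun i => (F i).map σ) {κ : ℝ} (hκ : 0 < κ) {U : Set ℂ}
    {f : ℂ → PP ℂ n} (hf : IsHol U f) (hfX : ∀ z ∈ U, f z ∈ Zer fun i => (F i).map σ)
    {m₀ : ℕ} (hball : ∀ m : ℕ, m₀ ≤ m → ball (m : ℂ) (κ * m) ⊆ U) {B : ℝ} (hB : 1 ≤ B) {E N : ℕ}
    (hw : ∀ m : ℕ, N ≤ m → ∃ w : Fin (n + 1) → 𝓞 K, w ≠ 0 ∧
      (∀ j, house (w j : K) ≤ B * (m + 1) ^ E) ∧ toMat f m = Phi (fun j => σ (w j : K))) :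
    ∃ N' : ℕ, ∀ m : ℕ, N' ≤ m → f m = f ((m + 1 : ℕ) : ℂ) := by
  classical
  obtain ⟨C₃, ρ, hC₃, hρ, hρ4, hcore⟩ := core2 σ hF hyp
  set δ : ℕ := Module.finrank ℚ K with hδ
  set m' : ℕ := 4 * E * δ + 1 with hm'
  have hm'pos : 0 < m' := by omega
  set L : ℕ := (3 + 2 * (n + 1) * ∑ i, e i) * m' + 1 with hL
  have hL3 : 3 * m' + 1 ≤ L := by
    rw [hL]
    have : 3 * m' ≤ (3 + 2 * (n + 1) * ∑ i, e i) * m' := Nat.mul_le_mul_right _ (by omega)
    omega
  have hL1 : (1 : ℝ) ≤ L := by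
    have : 1 ≤ L := by omega
    exact_mod_cast this
  set c₁ : ℝ := (L : ℝ) ^ (8 * δ + 3) * (16 / ρ) ^ 3 / κ with hc₁
  set c₂ : ℝ := (C₃ * (m' * (B * 2 ^ E)) ^ 4) ^ δ * c₁ ^ m' with hc₂
  refine ⟨max (max m₀ N) (max (L + 1) (max (⌈8 * L / (κ * ρ)⌉₊ + 1) (⌈c₂⌉₊ + 1))), fun m hm => ?_⟩
  have hmm₀ : m₀ ≤ m := (le_max_left _ _).trans ((le_max_left _ _).trans hm)
  have hmN : N ≤ m := (le_max_right _ _).trans ((le_max_left _ _).trans hm)
  have hmL : L + 1 ≤ m := (le_max_left _ _).trans ((le_max_right _ _).trans hm)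
  have hm3 : ⌈8 * L / (κ * ρ)⌉₊ + 1 ≤ m :=
    (le_max_left _ _).trans ((le_max_right _ _).trans ((le_max_right _ _).trans hm))
  have hm4 : ⌈c₂⌉₊ + 1 ≤ m :=
    (le_max_right _ _).trans ((le_max_right _ _).trans ((le_max_right _ _).trans hm))
  have hmpos : (0 : ℝ) < m := by
    have : 0 < m := by omega
    exact_mod_cast this
  have hm3' : 8 * L / (κ * ρ) ≤ m :=
    (Nat.le_ceil _).trans (by exact_mod_cast (Nat.le_succ _).trans hm3)
  have hm4' : c₂ < m := by
    have h1 : c₂ ≤ ⌈c₂⌉₊ := Nat.le_ceil _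
    have h2 : ((⌈c₂⌉₊ : ℝ)) + 1 ≤ m := by exact_mod_cast hm4
    linarith
  set φ : ℂ → PP ℂ n := fun z => f ((m : ℂ) + ((κ * m : ℝ) : ℂ) * z) with hφ
  have hsub : ball (0 : ℂ) 1 ⊆ (fun z => (m : ℂ) + ((κ * m : ℝ) : ℂ) * z) ⁻¹' U := by
    have h1 := ball_sub hmpos hκ
    rw [Complex.ofReal_natCast] at h1
    exact h1.trans (preimage_mono (hball m hmm₀))
  have hφhol : IsHol (ball 0 1) φ := (hf.comp_affine (m : ℂ) ((κ * m : ℝ) : ℂ)).mono hsub
  have hφX : ∀ z ∈ ball (0 : ℂ) 1, φ z ∈ Zer fun i => (F i).map σ := fun z hz =>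
    hfX _ (hsub hz)
  set b : ℂ := ((1 / (κ * m) : ℝ) : ℂ) with hb
  have hbn : ‖b‖ = 1 / (κ * m) := by
    rw [hb, Complex.norm_real, Real.norm_of_nonneg (by positivity)]
  have hb0 : b ≠ 0 := by
    rw [← norm_pos_iff, hbn]
    positivity
  have hφk : ∀ k : ℕ, φ (0 + b * σ (k : K)) = f ((m + k : ℕ) : ℂ) := by
    intro k
    rw [hφ]
    simp only
    congr 1
    rw [map_natCast, hb, zero_add]
    have h1 : (κ : ℂ) ≠ 0 := by exact_mod_cast hκ.ne'
    have h2 : (m : ℂ) ≠ 0 := by exact_mod_cast hmpos.ne'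
    push_cast
    field_simp
  have hφmat : ∀ k : ℕ, toMat φ (0 + b * σ (k : K)) = toMat f ((m + k : ℕ) : ℂ) := by
    intro k
    unfold toMat
    rw [hφk k]
  set Y : ℝ := B * (2 * m) ^ E with hY
  have hm1 : (1 : ℝ) ≤ m := by
    have : 1 ≤ m := by omega
    exact_mod_cast this
  have hY1 : 1 ≤ Y := one_le_mul_of_one_le_of_one_le hB (one_le_pow₀ (by linarith))
  set S : Finset K := (Finset.range L).image (fun k : ℕ => (k : K)) with hS
  have hScard : S.card = L := by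
    rw [hS, Finset.card_image_of_injective _ Nat.cast_injective, Finset.card_range]
  have hbL : ‖b‖ * L ≤ ρ / 8 := by
    rw [hbn, one_div, inv_mul_le_iff₀ (by positivity)]
    rw [div_le_iff₀ (by positivity)] at hm3'
    linarith
  have hκm : 1 ≤ κ * m := by
    have h1 : 8 * (L : ℝ) ≤ m * (κ * ρ) := by
      rwa [div_le_iff₀ (by positivity)] at hm3'
    have h2 : m * (κ * ρ) ≤ κ * m * (1 / 4) := by
      have : κ * m * ρ ≤ κ * m * (1 / 4) := mul_le_mul_of_nonneg_left hρ4 (by positivity)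
      linarith
    linarith
  have key := hcore φ hφhol hφX 0 (mem_ball_self (by norm_num)) b hb0 (by
      rw [hbn, div_le_one (by positivity)]
      exact hκm) (L : ℝ) Y hL1 hY1 hbL m' hm'pos (by
      rw [hbn]
      have e1 : (L : ℝ) ^ (8 * δ + 3) * (16 / ρ) ^ 3 * (1 / (κ * m)) = c₁ / m := by
        rw [hc₁]
        field_simp
      have e2 : (C₃ * (m' * Y) ^ 4) ^ δ = (C₃ * (m' * (B * 2 ^ E)) ^ 4) ^ δ *
          (m : ℝ) ^ (4 * E * δ) := by
        rw [hY, mul_pow 2, show C₃ * ((m' : ℝ) * (B * (2 ^ E * (m : ℝ) ^ E))) ^ 4 =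
          (C₃ * (m' * (B * 2 ^ E)) ^ 4) * ((m : ℝ) ^ E) ^ 4 by ring, mul_pow, ← pow_mul, ← pow_mul]
        congr 2
        ring
      rw [e1, e2, div_pow]
      have e3 : (C₃ * (m' * (B * 2 ^ E)) ^ 4) ^ δ * (m : ℝ) ^ (4 * E * δ) *
          (c₁ ^ m' / (m : ℝ) ^ m') = c₂ / m := by
        rw [hc₂, hm', pow_succ (m : ℝ)]
        have : (m : ℝ) ^ (4 * E * δ) ≠ 0 := by positivity
        field_simp
      rw [e3, div_lt_one hmpos]
      exact hm4') S (by
      intro u hu
      rw [hS] at hu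
      obtain ⟨k, hk, rfl⟩ := Finset.mem_image.1 hu
      have hkL : k < L := Finset.mem_range.1 hk
      have hkL' : (k : ℝ) ≤ L := by exact_mod_cast hkL.le
      have hhk : house (k : K) = k := by
        have := house_intCast (K := K) (k : ℤ)
        simpa using this
      refine ⟨⟨1, (k : 𝓞 K), one_ne_zero, by exact_mod_cast hL1, by simp, ?_, ?_⟩, ?_⟩
      · have : (((k : ℕ) : 𝓞 K) : K) = (k : K) := by simp
        rw [this, hhk]
        exact hkL'
      · rw [hhk]
        exact hkL'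
      · obtain ⟨w, hw0, hwB, hwf⟩ := hw (m + k) (by omega)
        refine ⟨w, hw0, fun j => (hwB j).trans ?_, ?_⟩
        · rw [hY]
          refine mul_le_mul_of_nonneg_left ?_ (by linarith)
          refine pow_le_pow_left₀ (by positivity) ?_ _
          have : m + k + 1 ≤ 2 * m := by omega
          exact_mod_cast this
        · rw [hφmat k]
          exact hwf) (by rw [hScard]; omega) (by
      intro i
      rw [hScard]
      have h1 : e i ≤ ∑ i, e i := Finset.single_le_sum (f := e) (fun _ _ => Nat.zero_le _)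
        (Finset.mem_univ i)
      calc e i * ((n + 1) * (2 * m')) ≤ (∑ i, e i) * ((n + 1) * (2 * m')) :=
            Nat.mul_le_mul_right _ h1
        _ = (2 * (n + 1) * ∑ i, e i) * m' := by ring
        _ ≤ (3 + 2 * (n + 1) * ∑ i, e i) * m' := Nat.mul_le_mul_right _ (by omega)
        _ < L := by omega)
  have h0 := key ((0 : ℕ) : K) (Finset.mem_image.2 ⟨0, Finset.mem_range.2 (by omega), rfl⟩)
    ((1 : ℕ) : K) (Finset.mem_image.2 ⟨1, Finset.mem_range.2 (by omega), rfl⟩)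
  rw [hφk 0, hφk 1] at h0
  simpa using h0

end Pool.Agent.KS6_12
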