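import Pool.Agent.KS6_12.Hyp.Phase1

/-! Algebraic relations between the coordinates of the rational points on a disc around infinity,
at the positive integers. -/

set_option autoImplicit false

open NumberField Height Metric Set

namespace Pool.Agent.KS6_12

/-- `w ^ D` times the binomial polynomial at `1 / w` -/
noncomputable def bw (N D l : ℕ) (w : ℂ) : ℂ :=
  w ^ (D - l) * ((∏ j ∈ Finset.range l, (1 - (N + j) * w)) / (l.factorial : ℂ))

lemma bw_eq {N D l : ℕ} (hl : l ≤ D) {w : ℂ} (hw : w ≠ 0) :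
    bw N D l w = w ^ D * bin N l (1 / w) := by
  unfold bw bin
  have h1 : ∏ j ∈ Finset.range l, (1 / w - N - j) =
      (∏ j ∈ Finset.range l, (1 - (N + j) * w)) / w ^ l := by
    rw [eq_div_iff (pow_ne_zero _ hw)]
    have h2 : w ^ l = ∏ _j ∈ Finset.range l, w := by simp
    rw [h2, ← Finset.prod_mul_distrib]
    refine Finset.prod_congr rfl fun j _ => ?_
    field_simp
    ring
  have h3 : w ^ D = w ^ (D - l) * w ^ l := by
    rw [← pow_add]
    congr 1
    omega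
  rw [h1, h3]
  have h4 : w ^ l ≠ 0 := pow_ne_zero _ hw
  generalize ∏ j ∈ Finset.range l, (1 - ((N : ℂ) + j) * w) = p
  field_simp

lemma bw_bound {N D l : ℕ} (hl : l ≤ D) {w : ℂ} (hw : ‖w‖ ≤ 1) :
    ‖bw N D l w‖ ≤ Real.exp (1 + N + D) := by
  unfold bw
  rw [norm_mul, norm_pow, norm_div, Complex.norm_natCast, norm_prod]
  have hlD : (l : ℝ) ≤ D := by exact_mod_cast hl
  have h1 : ∏ j ∈ Finset.range l, ‖1 - ((N : ℂ) + j) * w‖ ≤ (1 + N + D : ℝ) ^ l := by
    calc ∏ j ∈ Finset.range l, ‖1 - ((N : ℂ) + j) * w‖ ≤ ∏ _j ∈ Finset.range l, (1 + N + D : ℝ) := by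
          refine Finset.prod_le_prod (fun _ _ => norm_nonneg _) fun j hj => ?_
          refine (norm_sub_le _ _).trans ?_
          rw [norm_one, norm_mul]
          have h2 : ‖(N : ℂ) + j‖ ≤ N + D := by
            have : (N : ℂ) + j = ((N + j : ℕ) : ℂ) := by push_cast; ring
            rw [this, Complex.norm_natCast]
            have : (j : ℝ) ≤ l := by exact_mod_cast (Finset.mem_range.1 hj).le
            push_cast
            linarith
          have h3 : ‖(N : ℂ) + j‖ * ‖w‖ ≤ (N + D) * 1 :=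
            mul_le_mul h2 hw (norm_nonneg _) (by positivity)
          linarith
      _ = (1 + N + D : ℝ) ^ l := by simp
  have h4 : (1 + N + D : ℝ) ^ l / (l.factorial : ℝ) ≤ Real.exp (1 + N + D) :=
    Real.pow_div_factorial_le_exp _ (by positivity) l
  have h5 : ‖w‖ ^ (D - l) ≤ 1 := pow_le_one₀ (norm_nonneg _) hw
  calc ‖w‖ ^ (D - l) * ((∏ j ∈ Finset.range l, ‖1 - ((N : ℂ) + j) * w‖) / (l.factorial : ℝ))
      ≤ 1 * ((1 + N + D : ℝ) ^ l / (l.factorial : ℝ)) :=
        mul_le_mul h5 (div_le_div_of_nonneg_right h1 (by positivity)) (by positivity) zero_le_one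
    _ ≤ Real.exp (1 + N + D) := by rw [one_mul]; exact h4

lemma bw_diff (N D l : ℕ) : Differentiable ℂ (bw N D l) := by
  unfold bw
  refine Differentiable.mul (by fun_prop) (Differentiable.div_const ?_ _)
  refine Differentiable.fun_finsetProd fun j _ => ?_
  fun_prop

variable {K : Type} [Field K] [NumberField K]

/-- the auxiliary function -/
noncomputable def GI {d D : ℕ} (σ : K →+* ℂ) (N : ℕ) (ξ : Fin (d + 1) × Fin D → 𝓞 K)
    (g h : ℂ → ℂ) (w : ℂ) : ℂ :=
  ∑ l : Fin (d + 1) × Fin D, (bw N D (l.2 : ℕ) w * (g w ^ (d - (l.1 : ℕ)) * h w ^ (l.1 : ℕ))) *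
    σ (ξ l : K)

omit [NumberField K] in
lemma GI_diff {d D : ℕ} {σ : K →+* ℂ} {N : ℕ} (ξ : Fin (d + 1) × Fin D → 𝓞 K) {g h : ℂ → ℂ}
    {U : Set ℂ} (hg : DifferentiableOn ℂ g U) (hh : DifferentiableOn ℂ h U) :
    DifferentiableOn ℂ (GI σ N ξ g h) U := by
  unfold GI
  refine DifferentiableOn.fun_sum fun l _ => ?_
  exact (((bw_diff N D _).differentiableOn).mul ((hg.pow _).mul (hh.pow _))).mul
    (differentiableOn_const _)

lemma RR_eq_inf {d D : ℕ} {σ : K →+* ℂ} {N : ℕ} (ξ : Fin (d + 1) × Fin D → 𝓞 K) {g h : ℂ → ℂ}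
    {x y : 𝓞 K} {m : ℕ} (hm : N ≤ m) (hm0 : 0 < m) {s : ℂ} (hx : σ (x : K) = g (1 / m) * s)
    (hy : σ (y : K) = h (1 / m) * s) :
    σ (RR N ξ x y m : K) = s ^ d * ((m : ℂ) ^ D * GI σ N ξ g h (1 / m)) := by
  rw [RR_eq ξ (g := fun _ => g (1 / m)) (h := fun _ => h (1 / m)) hm hx hy]
  congr 1
  unfold GG GI
  rw [Finset.mul_sum]
  refine Finset.sum_congr rfl fun l _ => ?_
  have hmc : (m : ℂ) ≠ 0 := by exact_mod_cast hm0.ne'
  rw [bw_eq l.2.2.le (one_div_ne_zero hmc), one_div_one_div]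
  have h1 : (m : ℂ) ^ D * (1 / (m : ℂ)) ^ D = 1 := by
    rw [← mul_pow, mul_one_div_cancel hmc, one_pow]
  calc bin N (l.2 : ℕ) m * (g (1 / m) ^ (d - (l.1 : ℕ)) * h (1 / m) ^ (l.1 : ℕ)) * σ (ξ l : K) =
      ((m : ℂ) ^ D * (1 / (m : ℂ)) ^ D) * (bin N (l.2 : ℕ) m *
        (g (1 / m) ^ (d - (l.1 : ℕ)) * h (1 / m) ^ (l.1 : ℕ)) * σ (ξ l : K)) := by rw [h1, one_mul]
    _ = _ := by ring

lemma GI_bound {d D : ℕ} {σ : K →+* ℂ} {N : ℕ} {ξ : Fin (d + 1) × Fin D → 𝓞 K} {g h : ℂ → ℂ}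
    {w : ℂ} {M X : ℝ} (hξ : ∀ l, house (ξ l : K) ≤ X) (hg : ‖g w‖ ≤ M) (hh : ‖h w‖ ≤ M)
    (hw : ‖w‖ ≤ 1) :
    ‖GI σ N ξ g h w‖ ≤ ((d + 1) * D : ℕ) * (Real.exp (1 + N + D) * M ^ d * X) := by
  unfold GI
  refine (norm_sum_le _ _).trans ?_
  have hM : 0 ≤ M := (norm_nonneg _).trans hg
  have h1 : ∀ l ∈ (Finset.univ : Finset (Fin (d + 1) × Fin D)),
      ‖(bw N D (l.2 : ℕ) w * (g w ^ (d - (l.1 : ℕ)) * h w ^ (l.1 : ℕ))) * σ (ξ l : K)‖ ≤
      Real.exp (1 + N + D) * M ^ d * X := by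
    intro l _
    rw [norm_mul, norm_mul, norm_mul, norm_pow, norm_pow]
    have h3 := pow_mul_pow_le (norm_nonneg _) (norm_nonneg _) hg hh l.1
    have h4 : ‖σ (ξ l : K)‖ ≤ X := (norm_embedding_le_house _ σ).trans (hξ l)
    exact mul_le_mul (mul_le_mul (bw_bound l.2.2.le hw) h3 (by positivity) (by positivity)) h4
      (norm_nonneg _) (by positivity)
  refine (Finset.sum_le_card_nsmul _ _ _ h1).trans ?_
  rw [nsmul_eq_mul, Finset.card_univ, Fintype.card_prod, Fintype.card_fin, Fintype.card_fin]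

/-- The coordinates of the points at the integers, and the disc around infinity. -/
def InfData {n : ℕ} (σ : K →+* ℂ) (y : ℕ → Fin (n + 1) → 𝓞 K) (M r₀ c : ℝ) (m₀ : ℕ) : Prop :=
  (∀ m : ℕ, m₀ ≤ m → ∀ j, house (y m j : K) ≤ Real.exp (c * (m * Real.log m))) ∧
  ∃ G : ℂ → Fin (n + 1) → ℂ, DifferentiableOn ℂ G (ball 0 r₀) ∧
    (∀ w ∈ ball (0 : ℂ) r₀, ∀ j, ‖G w j‖ ≤ M) ∧
    ∀ k : ℕ, m₀ ≤ k → 0 < k → (1 / k : ℂ) ∈ ball (0 : ℂ) r₀ →
      ∃ s : ℂ, s ≠ 0 ∧ ‖s‖ ≤ Real.exp (c * (k * Real.log k)) ∧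
        ∀ j, σ (y k j : K) = G (1 / k) j * s

/-- the final inequality -/
lemma inf_ineq {δ c L m N D P Z lX lC lM lam : ℝ} (hδ1 : 1 ≤ δ) (hc : c * (112 * δ) = 1)
    (hm : 1 ≤ m) (hNm : 2 * N ≤ m) (hD : 8 * D ≤ m) (_hP : P ≤ m)
    (hlP : Real.log (2 * P) ≤ 2 * m)
    (hZ1 : m / 2 - 1 ≤ Z) (hlam : 0 ≤ lam) (hlM : 0 ≤ lM) (hlC : 0 ≤ lC)
    (hLm : L ≤ m) (_hN : 0 ≤ N)
    (hlX : lX ≤ lC + Real.log (2 * P) + 3 * N + 7 * (c * (m * L)))
    (hL : 4 * (δ * (12 + lC + 7 * lM) + lam + 2) < L) :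
    (7 * (c * (m * L)) + D * L + Real.log (2 * P) + (1 + N + D) + 7 * lM + lX - Z * (L - lam)) +
      (δ - 1) * (Real.log (2 * P) + 2 * m + 7 * (c * (m * L)) + lX) < 0 := by
  have hδ0 : 0 < δ := by linarith
  have hcpos : 0 < c := by
    by_contra hcon
    push Not at hcon
    have : c * (112 * δ) ≤ 0 := mul_nonpos_of_nonpos_of_nonneg hcon (by positivity)
    linarith
  have hL0 : 0 < L := by
    have : 0 ≤ δ * (12 + lC + 7 * lM) := by positivity
    linarith
  -- bound `lX`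
  have h1 : lX ≤ lC + 2 * m + 3 / 2 * m + 7 * (c * (m * L)) := by linarith
  have h2 : Real.log (2 * P) + 2 * m + 7 * (c * (m * L)) + lX ≤
      lC + 15 / 2 * m + 14 * (c * (m * L)) := by linarith
  have h3 : (δ - 1) * (Real.log (2 * P) + 2 * m + 7 * (c * (m * L)) + lX) ≤
      (δ - 1) * (lC + 15 / 2 * m + 14 * (c * (m * L))) :=
    mul_le_mul_of_nonneg_left h2 (by linarith)
  have h4 : D * L ≤ m * L / 8 := by
    have : 8 * D * L ≤ m * L := mul_le_mul_of_nonneg_right hD hL0.le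
    linarith
  have hLlam : 0 ≤ L - lam := by
    have : 0 ≤ δ * (12 + lC + 7 * lM) := by positivity
    linarith
  have h5 : (m / 2 - 1) * (L - lam) ≤ Z * (L - lam) := mul_le_mul_of_nonneg_right hZ1 hLlam
  have h6 : δ * (14 * (c * (m * L))) = m * L / 8 := by
    have : δ * (14 * (c * (m * L))) = (c * (112 * δ)) * (m * L) / 8 := by ring
    rw [this, hc, one_mul]
  have h7 : 1 + N + D ≤ 2 * m := by linarith
  have h8 : 7 * (c * (m * L)) + D * L + Real.log (2 * P) + (1 + N + D) + 7 * lM + lX -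
      Z * (L - lam) ≤ 14 * (c * (m * L)) + m * L / 8 + 2 * m + 2 * m + 7 * lM + lC + 2 * m +
      3 / 2 * m - (m / 2 - 1) * (L - lam) := by linarith
  have h9 : 14 * (c * (m * L)) + (δ - 1) * (14 * (c * (m * L))) = m * L / 8 := by
    rw [← h6]
    ring
  have h10 : (δ - 1) * (lC + 15 / 2 * m + 14 * (c * (m * L))) =
      (δ - 1) * lC + (δ - 1) * (15 / 2 * m) + (δ - 1) * (14 * (c * (m * L))) := by ring
  -- everything is at most a multiple of `m`
  have h11 : (δ - 1) * lC ≤ (δ - 1) * (lC * m) :=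
    mul_le_mul_of_nonneg_left (le_mul_of_one_le_right hlC hm) (by linarith)
  have h12 : lC ≤ lC * m := le_mul_of_one_le_right hlC hm
  have h13 : 7 * lM ≤ 7 * lM * m := le_mul_of_one_le_right (by positivity) hm
  have h14 : 7 * lM * m ≤ δ * (7 * lM * m) := le_mul_of_one_le_left (by positivity) hδ1
  have h15 : lam * (m / 2 - 1) ≤ lam * m := mul_le_mul_of_nonneg_left (by linarith) hlam
  have h16 : m ≤ δ * m := le_mul_of_one_le_left (by linarith) hδ1
  have h17 : (4 * (δ * (12 + lC + 7 * lM) + lam + 2)) * m < L * m :=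
    mul_lt_mul_of_pos_right hL (by linarith)
  have h18 : (m / 2 - 1) * (L - lam) = m * L / 2 - L - lam * (m / 2 - 1) := by ring
  have h19 : 0 ≤ lam * m := by positivity
  have e1 : (4 * (δ * (12 + lC + 7 * lM) + lam + 2)) * m = 48 * (δ * m) + 4 * (δ * (lC * m)) +
      4 * (δ * (7 * lM * m)) + 4 * (lam * m) + 8 * m := by ring
  have e2 : (δ - 1) * (lC * m) = δ * (lC * m) - lC * m := by ring
  have e3 : (δ - 1) * (15 / 2 * m) = 15 / 2 * (δ * m) - 15 / 2 * m := by ring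
  have e4 : L * m = m * L := by ring
  rw [e1, e4] at h17
  rw [e2] at h11
  have h20 : 0 ≤ δ * (lC * m) := by positivity
  have h21 : 0 ≤ δ * (7 * lM * m) := by positivity
  have h22 : 0 ≤ δ * m := by positivity
  linarith

theorem phase_inf (K : Type) [Field K] [NumberField K] {M r₀ c : ℝ} (hM : 1 ≤ M) (hr₀ : 0 < r₀)
    (hr₀1 : r₀ ≤ 1) (hc : c * (112 * (Module.finrank ℚ K : ℝ)) = 1) {n : ℕ} (σ : K →+* ℂ)
    (y : ℕ → Fin (n + 1) → 𝓞 K) (m₀ : ℕ) (hdata : InfData σ y M r₀ c m₀) (i j : Fin (n + 1)) :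
    ∃ (N d D : ℕ) (ξ : Fin (d + 1) × Fin D → 𝓞 K), ξ ≠ 0 ∧
      ∀ m, N ≤ m → RR N ξ (y m i) (y m j) m = 0 := by
  classical
  obtain ⟨C₁, hC₁, hsieg⟩ := siegel_one K
  set δ : ℕ := Module.finrank ℚ K with hδ
  have hδpos : 0 < δ := Module.finrank_pos
  have hδ1 : (1 : ℝ) ≤ δ := by exact_mod_cast hδpos
  have hcpos : 0 < c := by
    by_contra hcon
    push Not at hcon
    have : c * (112 * (δ : ℝ)) ≤ 0 := mul_nonpos_of_nonpos_of_nonneg hcon (by positivity)
    linarith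
  obtain ⟨hyY, G, hG, hGM, hGk⟩ := hdata
  set lC : ℝ := Real.log C₁ with hlC
  set lM : ℝ := Real.log M with hlM
  set lam : ℝ := Real.log (16 / r₀) with hlam
  have hlC0 : 0 ≤ lC := Real.log_nonneg hC₁
  have hlM0 : 0 ≤ lM := Real.log_nonneg hM
  have hlam0 : 0 ≤ lam := Real.log_nonneg (by rw [le_div_iff₀ hr₀]; linarith)
  set L₀ : ℝ := 4 * (δ * (12 + lC + 7 * lM) + lam + 2) with hL₀
  set t : ℕ := max 1 (max m₀ (max (⌈Real.exp L₀⌉₊ + 1) (⌈8 / r₀⌉₊ + 1))) with ht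
  have ht1 : 1 ≤ t := le_max_left _ _
  have htm₀ : m₀ ≤ t := (le_max_left _ _).trans (le_max_right _ _)
  have ht2 : ⌈Real.exp L₀⌉₊ + 1 ≤ t :=
    (le_max_left _ _).trans ((le_max_right _ _).trans (le_max_right _ _))
  have ht3 : ⌈8 / r₀⌉₊ + 1 ≤ t :=
    (le_max_right _ _).trans ((le_max_right _ _).trans (le_max_right _ _))
  set N : ℕ := 8 * t with hN
  have hN8 : 8 ≤ N := by omega
  have hlarge : ∀ m : ℕ, N ≤ m → L₀ < Real.log m ∧ 8 / r₀ < m := by
    intro m hm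
    have h1 : (⌈Real.exp L₀⌉₊ : ℝ) + 1 ≤ m := by
      have : ⌈Real.exp L₀⌉₊ + 1 ≤ m := by omega
      exact_mod_cast this
    have h2 : (⌈8 / r₀⌉₊ : ℝ) + 1 ≤ m := by
      have : ⌈8 / r₀⌉₊ + 1 ≤ m := by omega
      exact_mod_cast this
    have h3 := Nat.le_ceil (Real.exp L₀)
    have h4 := Nat.le_ceil (8 / r₀)
    refine ⟨?_, by linarith⟩
    rw [Real.lt_log_iff_exp_lt (by linarith [Real.exp_pos L₀])]
    linarith
  have hlogmono : ∀ k m : ℕ, 1 ≤ k → k ≤ m → c * (k * Real.log k) ≤ c * (m * Real.log m) := by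
    intro k m hk hkm
    have h1 : (1 : ℝ) ≤ k := by exact_mod_cast hk
    have h2 : (k : ℝ) ≤ m := by exact_mod_cast hkm
    have h3 : Real.log k ≤ Real.log m := Real.log_le_log (by linarith) h2
    have h4 : 0 ≤ Real.log k := Real.log_nonneg h1
    exact mul_le_mul_of_nonneg_left (mul_le_mul h2 h3 h4 (by linarith)) hcpos.le
  set A₀ : ℝ := Real.exp (1 * (3 * N)) * (1 / 1) ^ (2 * t) *
    Real.exp (c * ((2 * N : ℕ) * Real.log (2 * N : ℕ))) ^ 7 with hA₀
  have h2N : 0 ≤ Real.log (2 * N : ℕ) := Real.log_nonneg (by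
    have : 1 ≤ 2 * N := by omega
    exact_mod_cast this)
  have hA₀1 : 1 ≤ A₀ := by
    rw [hA₀]
    refine one_le_mul_of_one_le_of_one_le (one_le_mul_of_one_le_of_one_le
      (Real.one_le_exp (by positivity)) (one_le_pow₀ (by norm_num))) (one_le_pow₀ ?_)
    exact Real.one_le_exp (by positivity)
  obtain ⟨ξ, hξ, hξ0, hξb⟩ := hsieg (Fin N) (Fin (7 + 1) × Fin (2 * t)) N
    (fun k l => (((k : ℕ).choose (l.2 : ℕ) : ℕ) : 𝓞 K) *
      (y (N + k) i ^ (7 - (l.1 : ℕ)) * y (N + k) j ^ (l.1 : ℕ))) (by omega) (by simp)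
    (by rw [Fintype.card_prod, Fintype.card_fin, Fintype.card_fin, hN]; ring) A₀ hA₀1 (by
      intro k l
      have hk := k.2
      have h1 : Real.exp (c * (((N + k : ℕ) : ℝ) * Real.log ((N + k : ℕ) : ℝ))) ≤
          Real.exp (c * ((2 * N : ℕ) * Real.log (2 * N : ℕ))) :=
        Real.exp_le_exp.2 (hlogmono _ _ (by omega) (by omega))
      refine house_term zero_lt_one le_rfl ((hyY _ (by omega) i).trans h1)
        ((hyY _ (by omega) j).trans h1) ?_ l
      have : (k : ℕ) + 2 * t ≤ 3 * N := by omega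
      exact_mod_cast this)
  set X : ℝ := C₁ * (2 * N * A₀) with hX
  have hNR : (8 : ℝ) ≤ N := by exact_mod_cast hN8
  have hX0 : 0 < X := by positivity
  have hlX : Real.log X = lC + Real.log (2 * N) + (3 * N +
      7 * (c * ((2 * N : ℕ) * Real.log (2 * N : ℕ)))) := by
    rw [hX, Real.log_mul (by linarith) (by positivity), Real.log_mul (by positivity)
      (by positivity), hA₀, one_div_one, one_pow, mul_one, one_mul, Real.log_mul
      (Real.exp_pos _).ne' (by positivity), Real.log_exp, Real.log_pow, Real.log_exp]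
    push_cast
    ring
  refine ⟨N, 7, 2 * t, ξ, hξ, ?_⟩
  intro m
  induction m using Nat.strong_induction_on with
  | _ m ih =>
  intro hNm
  rcases lt_or_ge m (N + N) with hmP | hmP
  · have h1 := hξ0 ⟨m - N, by omega⟩
    have h2 : N + (m - N) = m := by omega
    simp only [h2] at h1
    exact h1
  -- extrapolation
  have hm0 : 0 < m := by omega
  have hmpos : (0 : ℝ) < m := by exact_mod_cast hm0
  have hm1 : (1 : ℝ) ≤ m := by exact_mod_cast hm0
  obtain ⟨hL, h8m⟩ := hlarge m hNm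
  set L : ℝ := Real.log m with hLdef
  have hL0 : 0 < L := by
    have : 0 ≤ L₀ := by positivity
    linarith
  set Z : ℕ := m / 2 with hZ
  have hZN : N ≤ m - Z := by omega
  have hinvball : ∀ k : ℕ, m - Z ≤ k → (1 / k : ℂ) ∈ closedBall (0 : ℂ) (2 / m) := by
    intro k hk
    have hk0 : 0 < k := by omega
    have hkR : (0 : ℝ) < k := by exact_mod_cast hk0
    rw [mem_closedBall_zero_iff, norm_div, norm_one, Complex.norm_natCast,
      div_le_div_iff₀ hkR hmpos]
    have : m ≤ 2 * k := by omega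
    have : (m : ℝ) ≤ 2 * k := by exact_mod_cast this
    linarith
  have h2m : (2 : ℝ) / m ≤ r₀ / 4 := by
    rw [div_lt_iff₀ hr₀] at h8m
    rw [div_le_div_iff₀ hmpos (by norm_num)]
    linarith
  have hsub : closedBall (0 : ℂ) (2 / m) ⊆ ball (0 : ℂ) r₀ := closedBall_subset_ball (by linarith)
  obtain ⟨s, hs, hsY, hsg⟩ := hGk m (by omega) hm0 (hsub (hinvball m (by omega)))
  have hzeros : ∀ w ∈ (Finset.Ico (m - Z) m).image (fun k : ℕ => (1 / k : ℂ)),
      w ∈ closedBall (0 : ℂ) (2 / m) ∧ GI σ N ξ (fun z => G z i) (fun z => G z j) w = 0 := by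
    intro w hw
    obtain ⟨k, hk, rfl⟩ := Finset.mem_image.1 hw
    obtain ⟨hk1, hk2⟩ := Finset.mem_Ico.1 hk
    refine ⟨hinvball k hk1, ?_⟩
    have hkN : N ≤ k := by omega
    have hk0 : 0 < k := by omega
    obtain ⟨s', hs', -, hsg'⟩ := hGk k (by omega) hk0 (hsub (hinvball k hk1))
    have h1 := RR_eq_inf ξ (g := fun z => G z i) (h := fun z => G z j) hkN hk0 (hsg' i) (hsg' j)
    rw [ih k hk2 hkN] at h1
    simp only [map_zero] at h1
    have h2 := (mul_eq_zero.1 h1.symm).resolve_left (pow_ne_zero _ hs')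
    exact (mul_eq_zero.1 h2).resolve_left (pow_ne_zero _ (by exact_mod_cast hk0.ne'))
  have hcard : ((Finset.Ico (m - Z) m).image (fun k : ℕ => (1 / k : ℂ))).card = Z := by
    rw [Finset.card_image_of_injOn, Nat.card_Ico]
    · omega
    · intro a ha b hb hab
      simp only [one_div, inv_inj] at hab
      exact_mod_cast hab
  have hsup : ∀ z ∈ closedBall (0 : ℂ) (r₀ / 2),
      ‖GI σ N ξ (fun z => G z i) (fun z => G z j) z‖ ≤
      ((7 + 1) * (2 * t) : ℕ) * (Real.exp (1 + N + (2 * t : ℕ)) * M ^ 7 * X) := by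
    intro z hz
    have hzb : z ∈ ball (0 : ℂ) r₀ := closedBall_subset_ball (by linarith) hz
    rw [mem_closedBall_zero_iff] at hz
    exact GI_bound hξb (hGM z hzb i) (hGM z hzb j) (by linarith)
  by_contra hne
  have hLi := liouville σ hne
  have hq : (((7 + 1) * (2 * t) : ℕ) : ℝ) = 2 * N := by
    rw [hN]
    push_cast
    ring
  have hGm : ‖GI σ N ξ (fun z => G z i) (fun z => G z j) (1 / m)‖ ≤
      2 * N * (Real.exp (1 + N + (2 * t : ℕ)) * M ^ 7 * X) * Real.exp (-(Z * (L - lam))) := by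
    have h1 := schwarz_many (c := (0 : ℂ)) (r := 2 / m) (R' := r₀ / 2) (R := r₀)
      (by linarith) (by linarith) (by positivity)
      (GI_diff (σ := σ) (N := N) ξ (differentiableOn_pi.1 hG i) (differentiableOn_pi.1 hG j))
      hsup _ hzeros (z := (1 / m : ℂ)) (hinvball m (by omega))
    rw [hcard, hq] at h1
    refine h1.trans (mul_le_mul_of_nonneg_left ?_ (by positivity))
    have h2 : 2 * (2 / (m : ℝ)) / (r₀ / 2 - 2 / m) ≤ Real.exp (-(L - lam)) := by
      have h3 : Real.exp (-(L - lam)) = 16 / r₀ / m := by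
        rw [neg_sub, Real.exp_sub, hlam, hLdef, Real.exp_log (by positivity),
          Real.exp_log hmpos]
      rw [h3, div_le_iff₀ (by linarith)]
      calc 2 * (2 / (m : ℝ)) = 16 / r₀ / m * (r₀ / 4) := by field_simp; norm_num
        _ ≤ 16 / r₀ / m * (r₀ / 2 - 2 / m) :=
            mul_le_mul_of_nonneg_left (by linarith) (by positivity)
    calc (2 * (2 / (m : ℝ)) / (r₀ / 2 - 2 / m)) ^ Z ≤ Real.exp (-(L - lam)) ^ Z :=
          pow_le_pow_left₀ (div_nonneg (by positivity) (by linarith)) h2 _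
      _ = Real.exp (-(Z * (L - lam))) := by
          rw [← Real.exp_nat_mul]
          congr 1
          ring
  have hMexp : M ^ 7 = Real.exp (7 * lM) := by
    rw [show (7 : ℝ) * lM = ((7 : ℕ) : ℝ) * lM by norm_num, Real.exp_nat_mul, hlM,
      Real.exp_log (by linarith)]
  have hXexp : X = Real.exp (Real.log X) := (Real.exp_log hX0).symm
  have h2Nexp : (2 * N : ℝ) = Real.exp (Real.log (2 * N)) := (Real.exp_log (by linarith)).symm
  have hmexp : ∀ k : ℕ, (m : ℝ) ^ k = Real.exp (k * L) := by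
    intro k
    rw [Real.exp_nat_mul, hLdef, Real.exp_log hmpos]
  have hcexp : Real.exp (c * (m * L)) ^ 7 = Real.exp (7 * (c * (m * L))) := by
    rw [← Real.exp_nat_mul]
    push_cast
    rfl
  have h1 : ‖σ (RR N ξ (y m i) (y m j) m : K)‖ ≤ Real.exp (7 * (c * (m * L)) +
      (2 * t : ℕ) * L + Real.log (2 * N) + (1 + N + (2 * t : ℕ)) + 7 * lM + Real.log X -
      Z * (L - lam)) := by
    rw [RR_eq_inf ξ (g := fun z => G z i) (h := fun z => G z j) hNm hm0 (hsg i) (hsg j), norm_mul,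
      norm_mul, norm_pow, norm_pow, Complex.norm_natCast]
    calc ‖s‖ ^ 7 * ((m : ℝ) ^ (2 * t) * ‖GI σ N ξ (fun z => G z i) (fun z => G z j) (1 / m)‖)
        ≤ Real.exp (c * (m * L)) ^ 7 * ((m : ℝ) ^ (2 * t) *
          (2 * N * (Real.exp (1 + N + (2 * t : ℕ)) * M ^ 7 * X) * Real.exp (-(Z * (L - lam))))) :=
          mul_le_mul (pow_le_pow_left₀ (norm_nonneg _) hsY _)
            (mul_le_mul_of_nonneg_left hGm (by positivity)) (by positivity) (by positivity)
      _ = _ := by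
          rw [hcexp, hmexp, hMexp]
          conv_lhs => rw [h2Nexp, hXexp]
          simp only [← Real.exp_add]
          congr 1
          ring
  have h2 : house (RR N ξ (y m i) (y m j) m : K) ≤ Real.exp (Real.log (2 * N) + 2 * m +
      7 * (c * (m * L)) + Real.log X) := by
    refine (RR_house zero_lt_one le_rfl hξb (hyY m (by omega) i) (hyY m (by omega) j)
      (A := 2 * m) ?_).trans (le_of_eq ?_)
    · have h3 : m - N + 2 * t ≤ 2 * m := by omega
      exact_mod_cast h3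
    · rw [hq, one_div_one, one_pow, mul_one, one_mul, hcexp]
      conv_lhs => rw [h2Nexp, hXexp]
      rw [Real.exp_add, Real.exp_add, Real.exp_add]
      ring
  have hineq := inf_ineq (δ := δ) (c := c) (L := L) (m := m) (N := N) (D := (2 * t : ℕ)) (P := N)
    (Z := Z) (lX := Real.log X) (lC := lC) (lM := lM) (lam := lam) hδ1 hc hm1
    (by
      have : 2 * N ≤ m := by omega
      exact_mod_cast this)
    (by
      have : 8 * (2 * t) ≤ m := by omega
      exact_mod_cast this)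
    (by exact_mod_cast hNm)
    (by
      have h3 : Real.log (2 * N) ≤ 2 * N := (Real.log_le_sub_one_of_pos (by linarith)).trans
        (by linarith)
      have h4 : (N : ℝ) ≤ m := by exact_mod_cast hNm
      linarith)
    (by
      have : m ≤ 2 * Z + 1 := by omega
      have : (m : ℝ) ≤ 2 * Z + 1 := by exact_mod_cast this
      linarith)
    hlam0 hlM0 hlC0
    (by
      have := Real.log_le_sub_one_of_pos hmpos
      rw [hLdef]
      linarith)
    (by positivity)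
    (by
      rw [hlX]
      have := hlogmono (2 * N) m (by omega) (by omega)
      linarith)
    hL
  obtain ⟨δ', hδ'⟩ : ∃ δ', δ = δ' + 1 := ⟨δ - 1, by omega⟩
  rw [← hδ, hδ', Nat.add_sub_cancel] at hLi
  have h3 := mul_le_mul h1 (pow_le_pow_left₀ (house_nonneg _) h2 δ')
    (pow_nonneg (house_nonneg _) _) (Real.exp_pos _).le
  rw [← Real.exp_nat_mul, ← Real.exp_add] at h3
  have h4 : (δ' : ℝ) = δ - 1 := by
    rw [hδ']
    push_cast
    ring
  rw [h4] at h3
  have h5 := Real.exp_lt_exp.2 hineq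
  rw [Real.exp_zero] at h5
  linarith

end Pool.Agent.KS6_12
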