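import Mathlib

/-! Schwarz' lemma for a holomorphic function with many zeros. -/

set_option autoImplicit false

open Metric Set

namespace Pool.Agent.KS6_12

/-- Division by the zeros: a holomorphic function on the disc `ball c R` with zeros at the points
of `A` in `ball c r`, `r < R' < R`, is `∏ (z - a) * G` with `G` small. -/
theorem exists_quot {c : ℂ} {r R' R : ℝ} (hr : r < R') (hR : R' < R) (hR0 : 0 < R')
    {g : ℂ → ℂ} (hg : DifferentiableOn ℂ g (ball c R)) {B : ℝ}
    (hB : ∀ z ∈ closedBall c R', ‖g z‖ ≤ B) (A : Finset ℂ) :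
    (∀ a ∈ A, a ∈ closedBall c r ∧ g a = 0) →
    ∃ G : ℂ → ℂ, DifferentiableOn ℂ G (ball c R) ∧
      (∀ z ∈ ball c R, g z = (∏ a ∈ A, (z - a)) * G z) ∧
      ∀ z ∈ closedBall c R', ‖G z‖ ≤ B / (R' - r) ^ A.card := by
  classical
  induction A using Finset.induction_on with
  | empty =>
    intro _
    exact ⟨g, hg, fun z _ => by simp, fun z hz => by simpa using hB z hz⟩
  | insert a A ha ih =>
    intro hA
    obtain ⟨G, hG, hgG, hGB⟩ := ih fun b hb => hA b (Finset.mem_insert_of_mem hb)
    obtain ⟨har, hga⟩ := hA a (Finset.mem_insert_self a A)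
    have haR' : a ∈ closedBall c R' := closedBall_subset_closedBall hr.le har
    have haR : a ∈ ball c R := closedBall_subset_ball hR haR'
    have hGa : G a = 0 := by
      have h1 := hgG a haR
      rw [hga] at h1
      rcases mul_eq_zero.1 h1.symm with h2 | h2
      · exfalso
        rw [Finset.prod_eq_zero_iff] at h2
        obtain ⟨b, hb, hb0⟩ := h2
        rw [sub_eq_zero] at hb0
        exact ha (hb0 ▸ hb)
      · exact h2
    have hd : DifferentiableOn ℂ (dslope G a) (ball c R) :=
      (Complex.differentiableOn_dslope (isOpen_ball.mem_nhds haR)).2 hG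
    have heq : ∀ z, G z = (z - a) * dslope G a z := by
      intro z
      have := sub_smul_dslope G a z
      rw [hGa, sub_zero, smul_eq_mul] at this
      exact this.symm
    refine ⟨dslope G a, hd, fun z hz => ?_, ?_⟩
    · rw [Finset.prod_insert ha, hgG z hz, heq z]
      ring
    · rw [Finset.card_insert_of_notMem ha]
      have hpos : 0 < R' - r := sub_pos.2 hr
      have hsph : ∀ z ∈ sphere c R', ‖dslope G a z‖ ≤ B / (R' - r) ^ (A.card + 1) := by
        intro z hz
        have h1 := hGB z (sphere_subset_closedBall hz)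
        rw [heq z, norm_mul] at h1
        have h2 : R' - r ≤ ‖z - a‖ := by
          have h3 : ‖z - c‖ = R' := mem_sphere_iff_norm.1 hz
          have h4 : ‖a - c‖ ≤ r := by
            have := mem_closedBall_iff_norm.1 har
            exact this
          have h5 : ‖z - c‖ ≤ ‖z - a‖ + ‖a - c‖ := by
            have : z - c = (z - a) + (a - c) := by ring
            rw [this]
            exact norm_add_le _ _
          linarith
        have h6 : (R' - r) * ‖dslope G a z‖ ≤ B / (R' - r) ^ A.card :=
          (mul_le_mul_of_nonneg_right h2 (norm_nonneg _)).trans h1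
        rw [pow_succ, ← div_div, le_div_iff₀ hpos]
        linarith
      have hclos : closure (ball c R') = closedBall c R' := closure_ball c hR0.ne'
      have hfr : frontier (ball c R') = sphere c R' := frontier_ball c hR0.ne'
      intro z hz
      have hdc : DiffContOnCl ℂ (dslope G a) (ball c R') := by
        refine DifferentiableOn.diffContOnCl ?_
        rw [hclos]
        exact hd.mono (closedBall_subset_ball hR)
      refine Complex.norm_le_of_forall_mem_frontier_norm_le isBounded_ball hdc ?_ ?_
      · intro w hw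
        rw [hfr] at hw
        exact hsph w hw
      · rw [hclos]; exact hz

/-- Schwarz' lemma with many zeros -/
theorem schwarz_many {c : ℂ} {r R' R : ℝ} (hr : r < R') (hR : R' < R) (hR0 : 0 < R')
    {g : ℂ → ℂ} (hg : DifferentiableOn ℂ g (ball c R)) {B : ℝ}
    (hB : ∀ z ∈ closedBall c R', ‖g z‖ ≤ B) (A : Finset ℂ)
    (hA : ∀ a ∈ A, a ∈ closedBall c r ∧ g a = 0) {z : ℂ} (hz : z ∈ closedBall c r) :
    ‖g z‖ ≤ B * (2 * r / (R' - r)) ^ A.card := by
  obtain ⟨G, -, hgG, hGB⟩ := exists_quot hr hR hR0 hg hB A hA
  have hzR' : z ∈ closedBall c R' := closedBall_subset_closedBall hr.le hz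
  have hzR : z ∈ ball c R := closedBall_subset_ball hR hzR'
  have hpos : 0 < R' - r := sub_pos.2 hr
  rw [hgG z hzR, norm_mul, norm_prod]
  have h1 : ∏ a ∈ A, ‖z - a‖ ≤ (2 * r) ^ A.card := by
    rw [← Finset.prod_const]
    refine Finset.prod_le_prod (fun _ _ => norm_nonneg _) ?_
    intro a ha
    have h2 := mem_closedBall_iff_norm.1 (hA a ha).1
    have h3 := mem_closedBall_iff_norm.1 hz
    have h4 : z - a = (z - c) - (a - c) := by ring
    rw [h4]
    exact (norm_sub_le _ _).trans (by linarith)
  calc (∏ a ∈ A, ‖z - a‖) * ‖G z‖ ≤ (2 * r) ^ A.card * (B / (R' - r) ^ A.card) :=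
        mul_le_mul h1 (hGB z hzR') (norm_nonneg _) (le_trans (Finset.prod_nonneg fun _ _ => norm_nonneg _) h1)
    _ = B * (2 * r / (R' - r)) ^ A.card := by
        rw [div_pow]; ring

end Pool.Agent.KS6_12
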