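import Pool.Agent.KS6_12.Hyp.Defs

/-! Sectors. -/

set_option autoImplicit false

namespace Pool.Agent.KS6_12

/-- The truncated sector of the complex numbers `z` with real part larger than `R₀` and
`|Im z| < κ Re z`. -/
def Sector (κ R₀ : ℝ) : Set ℂ := {z | R₀ < z.re ∧ |z.im| < κ * z.re}

end Pool.Agent.KS6_12
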