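import Pool.Agent.KS6_12.Hyp.Defs
import Pool.Agent.KS6_12.Hyp.Chart

/-! Translation between maps to projective space and maps to projection matrices. -/

set_option autoImplicit false

open Metric Set Filter Topology
open Pool.Agent.NH29.GK

namespace Pool.Agent.KS6_12

variable {n : ℕ} {ι : Type}

/-- the projection matrices of the points of the variety -/
def SS (F : ι → MvPolynomial (Fin (n + 1)) ℂ) : Set (Mat n) :=
  {A | ∃ u : Fin (n + 1) → ℂ, u ≠ 0 ∧ (∀ i, MvPolynomial.eval u (F i) = 0) ∧ A = Phi u}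

lemma SS_sub (F : ι → MvPolynomial (Fin (n + 1)) ℂ) : SS F ⊆ PM n := by
  rintro A ⟨u, hu, -, rfl⟩
  exact ⟨u, hu, rfl⟩

lemma SS_compact {F : ι → MvPolynomial (Fin (n + 1)) ℂ} {e : ι → ℕ}
    (hF : ∀ i, (F i).IsHomogeneous (e i)) : IsCompact (SS F) := by
  set T : Set (Fin (n + 1) → ℂ) := sphere 0 1 ∩ {u | ∀ i, MvPolynomial.eval u (F i) = 0} with hT
  have hTc : IsCompact T := by
    refine (isCompact_sphere _ _).inter_right ?_
    have : {u : Fin (n + 1) → ℂ | ∀ i, MvPolynomial.eval u (F i) = 0} =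
        ⋂ i, {u | MvPolynomial.eval u (F i) = 0} := by
      ext u
      simp
    rw [this]
    exact isClosed_iInter fun i => isClosed_eq (MvPolynomial.continuous_eval _) continuous_const
  have hne : ∀ u ∈ T, u ≠ 0 := by
    intro u hu h0
    have := mem_sphere_zero_iff_norm.1 hu.1
    rw [h0, norm_zero] at this
    exact zero_ne_one this
  have h1 : SS F = Phi '' T := by
    ext A
    constructor
    · rintro ⟨u, hu, huF, rfl⟩
      have hn : ‖u‖ ≠ 0 := norm_ne_zero_iff.2 hu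
      have hc : ((‖u‖ : ℂ))⁻¹ ≠ 0 := inv_ne_zero (by exact_mod_cast hn)
      refine ⟨((‖u‖ : ℂ))⁻¹ • u, ⟨?_, fun i => ?_⟩, Phi_smul hc u⟩
      · rw [mem_sphere_zero_iff_norm, norm_smul, norm_inv, Complex.norm_real, norm_norm,
          inv_mul_cancel₀ hn]
      · rw [eval_smul_form (hF i), huF i, mul_zero]
    · rintro ⟨u, hu, rfl⟩
      exact ⟨u, hne u hu, hu.2, rfl⟩
  rw [h1]
  exact hTc.image_of_continuousOn fun u hu => (continuousAt_Phi (hne u hu)).continuousWithinAt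

lemma Phi_rep {v : Fin (n + 1) → ℂ} (hv : v ≠ 0) :
    Phi (Projectivization.mk ℂ v hv).rep = Phi v := by
  obtain ⟨a, ha⟩ := Projectivization.exists_smul_eq_mk_rep ℂ v hv
  rw [← ha]
  have : (a • v : Fin (n + 1) → ℂ) = (a : ℂ) • v := rfl
  rw [this]
  exact Phi_smul a.ne_zero v

lemma mk_eq_of_Phi {u v : Fin (n + 1) → ℂ} (hu : u ≠ 0) (hv : v ≠ 0) (h : Phi u = Phi v) :
    Projectivization.mk ℂ u hu = Projectivization.mk ℂ v hv := by
  obtain ⟨c, hc, h1⟩ := Phi_inj hu hv h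
  rw [Projectivization.mk_eq_mk_iff']
  exact ⟨c⁻¹, by rw [h1, smul_smul, inv_mul_cancel₀ hc, one_smul]⟩

lemma eval_rep {L : Type} [Field L] {n : ℕ} {P : MvPolynomial (Fin (n + 1)) L} {e : ℕ}
    (hP : P.IsHomogeneous e) {v : Fin (n + 1) → L} (hv : v ≠ 0) :
    MvPolynomial.eval (Projectivization.mk L v hv).rep P = 0 ↔ MvPolynomial.eval v P = 0 := by
  obtain ⟨a, ha⟩ := Projectivization.exists_smul_eq_mk_rep L v hv
  rw [← ha]
  have h1 : (a • v : Fin (n + 1) → L) = (a : L) • v := rfl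
  have h2 : MvPolynomial.eval ((a : L) • v) P = (a : L) ^ e * MvPolynomial.eval v P := by
    rw [MvPolynomial.eval_eq', MvPolynomial.eval_eq', Finset.mul_sum]
    refine Finset.sum_congr rfl fun β hβ => ?_
    have h1 : β.degree = e := by
      by_contra h
      exact (MvPolynomial.mem_support_iff.1 hβ) (hP.coeff_eq_zero h)
    have h2 : ∏ i, ((a : L) • v) i ^ β i = (a : L) ^ e * ∏ i, v i ^ β i := by
      simp only [Pi.smul_apply, smul_eq_mul, mul_pow]
      rw [Finset.prod_mul_distrib, Finset.prod_pow_eq_pow_sum]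
      congr 2
      rw [← h1, Finsupp.degree_eq_sum]
    rw [h2]
    ring
  rw [h1, h2]
  constructor
  · intro h
    exact (mul_eq_zero.1 h).resolve_left (pow_ne_zero _ a.ne_zero)
  · intro h
    rw [h, mul_zero]

/-- the map to projection matrices -/
noncomputable def toMat (f : ℂ → PP ℂ n) (z : ℂ) : Mat n := Phi (f z).rep

lemma toMat_holP {U : Set ℂ} {f : ℂ → PP ℂ n} (hf : IsHol U f) : HolP U (toMat f) := by
  intro z hz
  obtain ⟨V, g, hV, hzV, hg, hfg⟩ := hf z hz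
  refine ⟨V, g, hV, hzV, hg, fun w hw => ?_⟩
  obtain ⟨h, h1⟩ := hfg w hw
  refine ⟨h, ?_⟩
  unfold toMat
  rw [h1, Phi_rep]

lemma toMat_mem {F : ι → MvPolynomial (Fin (n + 1)) ℂ} {f : ℂ → PP ℂ n} {z : ℂ}
    (hf : f z ∈ Zer F) : toMat f z ∈ SS F :=
  ⟨(f z).rep, (f z).rep_nonzero, hf, rfl⟩

lemma hyp_const {F : ι → MvPolynomial (Fin (n + 1)) ℂ} {e : ι → ℕ}
    (hF : ∀ i, (F i).IsHomogeneous (e i)) (hyp : BrodyHyp F) :
    ∀ H : ℂ → Mat n, HolP univ H → (∀ z, H z ∈ SS F) → ∀ z, H z = H 0 := by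
  intro H hH hHS
  choose u hu huF hHu using hHS
  have h1 : IsHol univ (fun z => Projectivization.mk ℂ (u z) (hu z)) := by
    intro z hz
    obtain ⟨V, g, hV, hzV, hg, hfg⟩ := hH z hz
    refine ⟨V, g, hV, hzV, hg, fun w hw => ⟨(hfg w hw).1, ?_⟩⟩
    apply mk_eq_of_Phi
    rw [← hHu w, (hfg w hw).2]
  have h2 := hyp _ h1 fun z i => (eval_rep (hF i) (hu z)).2 (huF z i)
  intro z
  have h3 := congrArg Projectivization.rep (h2 z 0)
  rw [hHu z, hHu 0, ← Phi_rep (hu z), ← Phi_rep (hu 0), h3]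

end Pool.Agent.KS6_12
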